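import Pool.Agent.MP_9590fd_lc.Mg.Glue

-- part MP_9590fd_lc.Lim
section

/-!
Limits of chains, and the countable chain condition of the finite modifications.
-/

set_option autoImplicit false
set_option linter.unusedSectionVars false

namespace Pool.Agent.MP_9590fd_lc

open Set Filter MeasureTheory

variable {T : Type} [LinearOrder T] [WellFoundedLT T] {S : Type} [Preorder S]

theorem lim (W : ℕ → Cd T) (hv : ∀ n, Val univ (W n))
    (h : ∀ n, Ext (sp (W n)) (W (n + 1)) (W n)) :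
    ∃ V, Val univ V ∧ (∀ n, Ext (sp (W n)) V (W n)) ∧ sp V = ⋃ n, sp (W n) ∧
      ∀ η i, ∃ n j, ∀ x, (V η).K i x ⊆ (W n η).K j x := by
  have ch : ∀ n m, n ≤ m → Ext (sp (W n)) (W m) (W n) := fun n m hnm => by
    induction m, hnm using Nat.le_induction with
    | base => exact Ext.refl
    | succ m _ ih => exact (h m).trans ih ih.le.supp
  let V : Cd T := fun η => ⟨∃ n, (W n η).on, fun x => ⋃ n, (W n η).L x, fun x => ⋃ n, (W n η).O x,
    fun i x => (W i.unpair.1 η).K i.unpair.2 x⟩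
  have hsp : sp V = ⋃ n, sp (W n) := Set.ext fun η => by simp only [sp, mem_ofPred_eq, mem_iUnion, V]
  have key : ∀ n η, η ∈ sp (W n) → (V η).L = (W n η).L ∧ (V η).O = (W n η).O := by
    intro n η hη
    have : ∀ m x, (W m η).L x ⊆ (W n η).L x ∧ (W m η).O x ⊆ (W n η).O x := fun m x => by
      rcases le_total n m with hm | hm
      · rw [((ch n m hm).eq η hη).1, ((ch n m hm).eq η hη).2]
        exact ⟨subset_rfl, subset_rfl⟩
      · by_cases h1 : η ∈ sp (W m)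
        · rw [((ch m n hm).eq η h1).1, ((ch m n hm).eq η h1).2]
          exact ⟨subset_rfl, subset_rfl⟩
        · rw [(hv m).ok.off η h1]
          exact ⟨empty_subset _, empty_subset _⟩
    exact ⟨funext fun x => (iUnion_subset fun m => (this m x).1).antisymm
        (subset_iUnion (fun m => (W m η).L x) n),
      funext fun x => (iUnion_subset fun m => (this m x).2).antisymm
        (subset_iUnion (fun m => (W m η).O x) n)⟩
  have hle : ∀ n, Le univ V (W n) := fun n => by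
    refine ⟨fun η _ hη => ⟨n, hη⟩, fun η _ => univ_mem' fun x =>
      ⟨subset_iUnion (fun m => (W m η).L x) n, subset_iUnion (fun m => (W m η).O x) n,
        Cv.of_sub fun i => ⟨n.pair i, by simp [V]⟩⟩, finite_empty.subset ?_⟩
    rintro η ⟨-, h1, h2⟩
    exact h2 (univ_mem' fun x => ⟨congrFun (key n η h1).1 x, congrFun (key n η h1).2 x⟩)
  have hoff : ∀ η, η ∉ sp V → V η = triv := fun η hη => by
    have : ∀ n, W n η = triv := fun n => (hv n).ok.off η fun h1 => hη ⟨n, h1⟩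
    simp [V, this, triv]
  refine ⟨V, ⟨⟨hsp ▸ countable_iUnion fun n => (hv n).ok.cnt, hoff, fun η => ⟨fun k => ?_,
    fun k => ?_, fun i => ((hv _).ok.ml η).K _⟩⟩, fun η _ => ?_⟩, fun n => ⟨hle n, key n⟩, hsp,
    fun η i => ⟨_, _, fun _ => subset_rfl⟩⟩
  · simpa only [V, mem_iUnion, ofPred_exists] using
      MeasurableSet.iUnion fun n => ((hv n).ok.ml η).L k
  · simpa only [V, mem_iUnion, ofPred_exists] using
      MeasurableSet.iUnion fun n => ((hv n).ok.ml η).O k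
  by_cases hη : η ∈ sp V
  swap
  · rw [hoff η hη, vS_triv]
    exact univ_mem
  obtain ⟨n, hn⟩ := hη
  have h1 : ∀ᶠ x in F (Iio η) V, ∀ m, x ∈ vS (W m η) :=
    eventually_countable_forall.2 fun m => (hle m).fl' η ((hv m).v η (mem_univ η))
  have h2 : ∀ᶠ x in F (Iio η) V, ∀ a b, a ≤ b → x ∈ wS (W b η) (W a η) :=
    eventually_countable_forall.2 fun a => eventually_countable_forall.2 fun b =>
      eventually_countable_forall.2 fun hab => (hle b).fl' η ((ch a b hab).le.w η (mem_univ η))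
  filter_upwards [h1, h2] with x h1 h2
  refine ⟨(key n η hn).1 ▸ (h1 n).1, (key n η hn).1 ▸ (key n η hn).2 ▸ (h1 n).2.1, fun hs => ?_⟩
  obtain ⟨a, ha⟩ := Sm.lim (L := fun a j => (W a η).K j x) (fun a b hab => (h2 a b hab).2.2)
    (fun i => ⟨_, _, subset_rfl⟩) hs
  rw [(key (max a n) η ((ch n _ (le_max_right _ _)).le.supp hn)).2] at ha
  exact (h1 _).2.2 (ha.cv (h2 _ _ (le_max_left a n)).2.2)

/-- Meeting all dense open sets indexed by finitely supported data. -/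
theorem kill (hS : SC S) {τ : Type} (su : τ → Set T) (G : Set τ) (hf : ∀ π ∈ G, (su π).Finite)
    (hc : ∀ a : Set T, a.Countable → {π | π ∈ G ∧ su π ⊆ a}.Countable) (c : S × Cd T)
    (hv : Val univ c.2) (D : τ → Set (S × Cd T))
    (hD : ∀ π ∈ G, DO (fun c' => Val univ c'.2 ∧ RL c' c) RL (D π)) :
    ∃ c', Val univ c'.2 ∧ RL c' c ∧ ∀ π ∈ G, su π ⊆ sp c'.2 → c' ∈ D π := by
  have h1 : ∀ c' : S × Cd T, ∀ᶠ r in Gen (fun c' : S × Cd T => Val univ c'.2 ∧ RL c' c) RL,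
      Val univ c'.2 → ∀ π ∈ {π | π ∈ G ∧ su π ⊆ sp c'.2}, ∃ j, r j ∈ D π := fun c' => by
    by_cases h : Val univ c'.2
    · exact ((eventually_countable_ball (hc _ h.ok.cnt)).2 fun π hπ =>
        gen_meets (hD π hπ.1)).mono fun _ a _ => a
    · exact Eventually.of_forall fun _ a => (h a).elim
  obtain ⟨r, hr, h0, hP⟩ := gen_ex (fun _ => RL.refl) (gen_diag h1) (p := c) ⟨hv, RL.refl⟩
  obtain ⟨V, v1, v2, v3, -⟩ := lim (fun n => (r n).2) (fun n => (hr n).1.1) fun n => (hr n).2.2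
  obtain ⟨l, hl⟩ := hS (fun n => (r n).1) (antitone_nat_of_succ_le fun n => (hr n).2.1)
  have h2 : ∀ n, RL (l, V) (r n) := fun n => ⟨hl n, v2 n⟩
  have h3 : RL (l, V) c := h0 ▸ h2 0
  refine ⟨(l, V), v1, h3, fun π hπ hs => ?_⟩
  have hm : Monotone fun n => sp (r n).2 := monotone_nat_of_le_succ fun n => (hr n).2.2.le.supp
  obtain ⟨i, hi⟩ : ∃ i, ∀ η ∈ su π, η ∈ sp (r i).2 := by
    refine Eventually.exists (f := atTop) ((eventually_all_finite (hf π hπ)).2 fun η hη => ?_)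
    obtain ⟨n, hn⟩ := mem_iUnion.1 (v3 ▸ hs hη)
    exact (eventually_ge_atTop n).mono fun m hnm => hm hnm hn
  obtain ⟨j, hj⟩ := hP i (hr i).1.1 π ⟨hπ, hi⟩
  exact (hD π hπ).2 _ hj _ ⟨v1, h3⟩ (h2 j)

theorem cnt_ty {β : Type} [Countable β] (b : β) {a : Set T} (ha : a.Countable) :
    {π : Finset T × (T → β) | ↑π.1 ⊆ a ∧ ∀ ζ, ζ ∉ π.1 → π.2 ζ = b}.Countable := by
  refine MapsTo.countable_of_injOn (f := fun π => (fun ζ => (ζ, π.2 ζ)) '' (↑π.1 : Set T))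
    (t := {t | t.Finite ∧ t ⊆ a ×ˢ univ}) (fun π hπ => ⟨π.1.finite_toSet.image _, ?_⟩) ?_
    (countable_ofPred_finite_subset (ha.prod countable_univ))
  · rintro _ ⟨ζ, hζ, rfl⟩
    exact ⟨hπ.1 hζ, trivial⟩
  intro π hπ π' hπ' e
  have h1 : ∀ {π π' : Finset T × (T → β)}, (fun ζ => (ζ, π.2 ζ)) '' (↑π.1 : Set T) =
      (fun ζ => (ζ, π'.2 ζ)) '' (↑π'.1 : Set T) → ∀ ζ ∈ π.1, ζ ∈ π'.1 ∧ π'.2 ζ = π.2 ζ := by
    intro π π' e ζ hζ
    obtain ⟨ξ, h1, h2⟩ := e.subset ⟨ζ, hζ, rfl⟩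
    obtain ⟨rfl, h3⟩ := Prod.mk.inj h2
    exact ⟨h1, h3⟩
  have h2 : π.1 = π'.1 :=
    Finset.ext fun ζ => ⟨fun h => (h1 e ζ h).1, fun h => (h1 e.symm ζ h).1⟩
  refine Prod.ext h2 (funext fun ζ => ?_)
  by_cases h : ζ ∈ π.1
  · exact (h1 e ζ h).2.symm
  · rw [hπ.2 ζ h, hπ'.2 ζ (h2 ▸ h)]

/-- A dense open set contains a countable predense set of finite modifications. -/
theorem seal' (hS : SC S) (D : S → Cd T → Prop) {σ : S} {W : Cd T} (hW : Val univ W)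
    (E : Finset T) (hE : ∀ ζ ∈ E, ζ ∈ sp W)
    (hD : ∀ σ' ≤ σ, ∀ r, Val univ r → Le univ r W →
      ∃ σ'' ≤ σ', ∃ ρ, Val univ ρ ∧ Le univ ρ r ∧ D σ'' ρ)
    (hO : ∀ σ' ρ σ'' ρ', D σ' ρ → σ'' ≤ σ' → Val univ ρ' → Le univ ρ' ρ → D σ'' ρ') :
    ∃ σ' ≤ σ, ∃ V, Val univ V ∧ Ext (sp W) V W ∧ ∃ ν : ℕ → Md T,
      (∀ d, Mod V (ν d) ∧ E ⊆ (ν d).E ∧ D σ' (add V (ν d))) ∧
      ∀ᶠ x in F univ V, ∃ d, x ∈ (ν d).ev univ := by
  have hu : IsLowerSet (univ : Set T) := isLowerSet_univ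
  let G : Set (Finset T × (T → Finset ℕ)) := {π | E ⊆ π.1 ∧ ∀ ζ, ζ ∉ π.1 → π.2 ζ = ∅}
  let P : Finset T × (T → Finset ℕ) → S × Cd T → Prop := fun π c =>
    ∃ ν : Md T, (ν.E, ν.t) = π ∧ Mod c.2 ν ∧ D c.1 (add c.2 ν)
  let Q : Finset T × (T → Finset ℕ) → S × Cd T → Prop := fun π c =>
    ∀ c', Val univ c'.2 → RL c' c → ∀ σ' ≤ c'.1, ∀ ρ (ν : Md T), (ν.E, ν.t) = π → D σ' ρ →
      Val univ ρ → Le univ ρ c'.2 → ¬ Leaf univ (sp c'.2) c'.2 ρ ν
  have hc : ∀ a : Set T, a.Countable → {π | π ∈ G ∧ (↑π.1 : Set T) ⊆ a}.Countable :=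
    fun a ha => (cnt_ty (∅ : Finset ℕ) ha).mono fun π hπ => And.intro hπ.2 hπ.1.2
  obtain ⟨⟨σ', V⟩, v1, v2, v3⟩ := kill hS (fun π => ↑π.1) G (fun π _ => π.1.finite_toSet) hc (σ, W)
    hW (fun π => {c | P π c ∨ Q π c}) fun π _ => by
      refine ⟨fun p hp => ?_, fun d hd q hq hqd => hd.imp ?_ fun h c' a b => h c' a (b.trans hqd)⟩
      · by_cases h : Q π p
        · exact ⟨p, Or.inr h, hp, RL.refl⟩
        simp only [Q, not_forall, not_not] at h
        obtain ⟨c', a1, a2, σ', a3, ρ, ν, a4, a5, a6, a7, a8⟩ := h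
        obtain ⟨W', b1, b2, b3, b4⟩ := glue_one a1 subset_rfl a6 a7 a8
        have : RL (σ', W') p := RL.trans (c' := c') ⟨a3, b2⟩ a2
        have h1 : P π (σ', W') := ⟨ν, a4, b3, hO _ _ _ _ a5 le_rfl (b3.val hu b1) b4⟩
        exact ⟨(σ', W'), Or.inl h1,
          ⟨b1, this.trans hp.2⟩, this⟩
      · rintro ⟨ν, a1, a2, a3⟩
        have := a2.ext hqd.2 fun ζ hζ => (a2 ζ hζ).1
        exact ⟨ν, a1, this, hO _ _ _ _ a3 hqd.1 (this.val hu hq.1)
          (add_mono hu hqd.2.le rfl rfl fun _ _ => subset_rfl)⟩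
  let N := {π | (π ∈ G ∧ (↑π.1 : Set T) ⊆ sp V) ∧ P π (σ', V)}
  have key : ∀ r, Val univ r → Le univ r V → ∃ π ∈ N, ∀ ν : Md T, (ν.E, ν.t) = π → Mod V ν →
      ∃ r', Val univ r' ∧ Le univ r' r ∧ ν.ev univ ∈ F univ r' := by
    intro r hr hle
    obtain ⟨σ'', a1, ρ, a2, a3, a4⟩ := hD σ' v2.1 r hr (hle.trans hu v2.2.le)
    obtain ⟨c, μ, b1, b2, b3, b4⟩ := dec hu subset_rfl a2 (a3.trans hu hle) E
      fun ζ hζ => ⟨v2.2.le.supp (hE ζ hζ), mem_univ ζ⟩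
    have b5 : Le univ c V := (b2.trans hu a3).trans hu hle
    have h1 : (μ.E, μ.t) ∈ G ∧ (↑μ.E : Set T) ⊆ sp V := ⟨⟨b3, b4.nrm⟩, fun ζ hζ => (b4.sub ζ hζ).1⟩
    refine ⟨_, ⟨h1, (v3 _ h1.1 h1.2).resolve_right fun h => h (σ', V) v1 RL.refl σ'' a1 c μ rfl
      (hO _ _ _ _ a4 le_rfl b1 b2) b1 b5 b4⟩, fun ν e hν => ?_⟩
    obtain ⟨e1, e2⟩ := Prod.mk.inj e
    obtain ⟨j1, j2⟩ := join hu hν b1 b5 fun ζ hζ _ => by
      filter_upwards [b5.fl' ζ (hν ζ hζ).2.2, b1.v ζ (mem_univ ζ)] with x h2 h3 h4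
      have h5 : (c ζ).L x = ↑(ν.t ζ) := by rw [b4.L ζ (e1 ▸ hζ), e2]
      exact ⟨h5 ▸ (h2 h4).2.2.1, h5 ▸ h3.2.1⟩
    exact ⟨_, j1, (add_le.trans hu b2).trans hu a3, j2⟩
  obtain ⟨f, hf⟩ := ((hc _ v1.ok.cnt).mono fun π hπ => hπ.1 : N.Countable).exists_eq_range
    ((key V v1 Le.refl).imp fun _ h => h.1)
  have hN : ∀ d, f d ∈ N := fun d => hf ▸ mem_range_self d
  choose ν n1 n2 n3 using fun d => (hN d).2
  refine ⟨σ', v2.1, V, v1, v2.2, ν, fun d => ⟨n2 d, ?_, n3 d⟩, F_reg hu fun q hq hle => ?_⟩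
  · have := (hN d).1.1.1
    rwa [← n1 d] at this
  · obtain ⟨π, hπ, h⟩ := key q hq hle
    obtain ⟨d, rfl⟩ : π ∈ range f := hf ▸ hπ
    obtain ⟨r, a, b, c⟩ := h (ν d) (n1 d) (n2 d)
    exact ⟨r, a, b, mem_of_superset c fun x hx => ⟨d, hx⟩⟩

/-- Names for countably many decisions. -/
theorem name (hS : SC S) {I : Type} (Φ : ℕ → I → S → Cd T → Prop)
    (hD : ∀ k σ r, Val univ r → ∃ σ' ≤ σ, ∃ ρ, Val univ ρ ∧ Le univ ρ r ∧ ∃ i, Φ k i σ' ρ)
    (hO : ∀ k i σ ρ σ' ρ', Φ k i σ ρ → σ' ≤ σ → Val univ ρ' → Le univ ρ' ρ → Φ k i σ' ρ')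
    (σ : S) {W : Cd T} (hW : Val univ W) :
    ∃ σ' ≤ σ, ∃ V, Val univ V ∧ Le univ V W ∧ ∃ (e : ℕ → ℕ → Set (Pt T)) (g : ℕ → ℕ → I),
      (∀ A, IsLowerSet A → sp V ⊆ A → ∀ k d, Ms A (e k d)) ∧
      (∀ k, ∀ᶠ x in F univ V, ∃ d, x ∈ e k d) ∧
      ∀ k d r, Val univ r → Le univ r V → e k d ∈ F univ r →
        ∃ r', Val univ r' ∧ Le univ r' r ∧ Φ k (g k d) σ' r' := by
  have hu : IsLowerSet (univ : Set T) := isLowerSet_univ
  have step : ∀ (k : ℕ) (c : {c : S × Cd T // Val univ c.2}), ∃ c' : {c : S × Cd T // Val univ c.2},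
      RL c'.1 c.1 ∧ ∃ ν : ℕ → Md T, (∀ d, Mod c'.1.2 (ν d) ∧ ∃ i, Φ k i c'.1.1 (add c'.1.2 (ν d))) ∧
        ∀ᶠ x in F univ c'.1.2, ∃ d, x ∈ (ν d).ev univ := fun k c => by
    obtain ⟨σ', a1, V, a2, a3, ν, a4, a5⟩ := seal' hS (fun σ ρ => ∃ i, Φ k i σ ρ) (σ := c.1.1) c.2 ∅
      (by simp) (fun σ' _ r hr _ => hD k σ' r hr)
      fun _ _ _ _ ⟨i, h⟩ a b d => ⟨i, hO _ _ _ _ _ _ h a b d⟩
    exact ⟨⟨(σ', V), a2⟩, ⟨a1, a3⟩, ν, fun d => ⟨(a4 d).1, (a4 d).2.2⟩, a5⟩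
  choose g g1 ν g2 g3 using step
  let s : ℕ → {c : S × Cd T // Val univ c.2} := fun n => Nat.rec ⟨(σ, W), hW⟩ g n
  obtain ⟨V, v1, v2, -, -⟩ := lim (fun n => (s n).1.2) (fun n => (s n).2) fun n => (g1 n (s n)).2
  obtain ⟨l, hl⟩ := hS (fun n => (s n).1.1) (antitone_nat_of_succ_le fun n => (g1 n (s n)).1)
  choose i hi using fun k d => (g2 k (s k) d).2
  refine ⟨l, hl 0, V, v1, (v2 0).le, fun k d => (ν k (s k) d).ev univ, i, fun A hA hs k d => ?_,
    fun k => F_mono hu (v2 (k + 1)).le (g3 k (s k)), fun k d r hr hle he => ?_⟩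
  · have h := (g2 k (s k) d).1
    convert h.ms hA using 1
    exact (Md.ev_mono _ (subset_univ A)).antisymm fun x hx ζ hζ _ =>
      hx ζ hζ (hs ((v2 (k + 1)).le.supp (h ζ hζ).1))
  · have h1 := hle.trans hu (v2 (k + 1)).le
    have h2 := join' hu (g2 k (s k) d).1 hr h1 he
    exact ⟨_, h2, add_le, hO _ _ _ _ _ _ (hi k d) (hl (k + 1)) h2
      (add_mono hu h1 rfl rfl fun _ _ => subset_rfl)⟩

end Pool.Agent.MP_9590fd_lc

end

-- part MP_9590fd_lc.Fam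
section

/-!
The traces of the stems of a predense family of modifications generate a proper ideal.
-/

set_option autoImplicit false
set_option linter.unusedSectionVars false

namespace Pool.Agent.MP_9590fd_lc

open Set Filter MeasureTheory

variable {T : Type} [LinearOrder T] [WellFoundedLT T]

theorem ms_fam {A : Set T} {L O : Pt T → Set ℕ} {St : Pt T → Set (Finset ℕ)} (hL : Mf A L)
    (hO : Mf A O) (hS : Mf A St) (s : Finset ℕ) :
    Mf A fun x => fam (L x) (O x) (St x) s := fun y => by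
  let _ := MS A
  have h1 : MeasurableSet {x | L x ⊆ ↑s} := meas_sub hL fun _ => MeasurableSet.const _
  have h2 : MeasurableSet {x | Disjoint (↑s : Set ℕ) (O x)} :=
    meas_disj (M := fun _ => (↑s : Set ℕ)) (fun _ => MeasurableSet.const _) hO
  have h3 : ∀ t, Measurable fun x => t ∈ St x := fun t => measurableSet_setOfPred.1 (hS t)
  exact measurableSet_setOfPred.2 ((((measurableSet_setOfPred.1 h1).and
    (measurableSet_setOfPred.1 h2)).not.and measurable_const).or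
      (Measurable.exists fun t => (h3 t).and measurable_const))

theorem ms_goal {A : Set T} {L O N : Pt T → Set ℕ} {H St : Pt T → Set (Finset ℕ)} (hL : Mf A L)
    (hO : Mf A O) (hN : Mf A N) (hH : Mf A H) (hS : Mf A St) (n : ℕ) (y : Finset ℕ) :
    Ms A {x | Goal (L x) (O x) (N x) (H x) (St x) n y} := by
  let _ := MS A
  have h1 : MeasurableSet {x | Disjoint (↑y : Set ℕ) (O x ∪ N x)} :=
    meas_disj (M := fun _ => (↑y : Set ℕ)) (N := fun x => O x ∪ N x)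
      (fun _ => MeasurableSet.const _) fun k => (hO k).union (hN k)
  have h2 : MeasurableSet {x | Cov (H x ∪ {Z | ∃ s ⊆ Finset.range n,
      Z ∈ Fr (fam (L x) (O x) (St x) s)}) n y} := by
    refine meas_cov (H := fun x => H x ∪ {Z | ∃ s ⊆ Finset.range n,
      Z ∈ Fr (fam (L x) (O x) (St x) s)}) (fun Z => ?_) n y
    exact measurableSet_setOfPred.2 ((measurableSet_setOfPred.1 (hH Z)).or (Measurable.exists fun s =>
      measurable_const.and (measurableSet_setOfPred.1 (meas_fr (ms_fam hL hO hS s) Z))))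
  exact h1.inter h2.compl

theorem Goal.mono {L O N N' : Set ℕ} {H St St' : Set (Finset ℕ)} {n : ℕ} {y : Finset ℕ}
    (h : Goal L O N H St n y) (hN : N' ⊆ N) (hS : St ⊆ St') : Goal L O N' H St' n y := by
  refine ⟨h.1.mono_right (union_subset_union_right _ hN), fun hc => h.2 (hc.mono ?_ le_rfl
    subset_rfl)⟩
  rintro Z (hZ | ⟨s, hs, hZ⟩)
  · exact Or.inl hZ
  · exact Or.inr ⟨s, hs, fun w hw => hZ w (hw.imp id fun ⟨t, a, b⟩ => ⟨t, hS a, b⟩)⟩

/-- Only finitely many stems matter. -/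
theorem Goal.fin {L O N : Set ℕ} {H St : Set (Finset ℕ)} {n : ℕ} {y : Finset ℕ}
    (h : Goal L O N H St n y) :
    Goal L O N H {t | t ∈ St ∧ t ⊆ y ∪ Finset.range n} n y := by
  refine ⟨h.1, fun hc => h.2 (hc.imp ?_)⟩
  rintro Z (hZ | ⟨s, hs, hZ⟩)
  · exact Or.inr ⟨Z, Or.inl hZ, Finset.inter_subset_left⟩
  · refine Or.inr ⟨Z ∩ y, Or.inr ⟨s, hs, fun w hw hw' => hZ w (hw.imp id ?_)
      (hw'.trans Finset.inter_subset_left)⟩, subset_rfl⟩
    rintro ⟨t, a, b, rfl⟩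
    refine ⟨t, ⟨a, fun k hk => ?_⟩, b, rfl⟩
    by_cases hks : k ∈ s
    · exact Finset.mem_union_right _ (hs hks)
    · exact Finset.mem_union_left _ (Finset.mem_inter.1 (hw' (Finset.mem_sdiff.2 ⟨hk, hks⟩))).2

theorem famL {V : Cd T} (hV : Val univ V) {η : T} (hη : η ∈ sp V) (ν : ℕ → Md T)
    (hν : ∀ d, Mod V (ν d) ∧ η ∈ (ν d).E) (hcov : ∀ᶠ x in F univ V, ∃ d, x ∈ (ν d).ev univ)
    (n : ℕ) (hcut : ∀ d, ∀ᶠ x in F (Iio η) V, x ∈ (ν d).ev (Iio η) →
      ∀ k < n, k ∈ (ν d).t η ∨ k ∈ (ν d).O η x)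
    {N : Pt T → Set ℕ} {H : Pt T → Set (Finset ℕ)} (mN : Mf (Iio η) N) (mH : Mf (Iio η) H)
    (hN : ∀ᶠ x in F (Iio η) V, Sm ((V η).K · x) (N x))
    (hH : ∀ᶠ x in F (Iio η) V, ∃ m, H x ⊆ Un ((V η).K · x) m) :
    ∀ᶠ x in F (Iio η) V, ∃ y, Goal ((V η).L x) ((V η).O x) (N x) (H x)
      {t | ∃ d, x ∈ (ν d).ev (Iio η) ∧ t = (ν d).t η} n y := by
  classical
  let _ := MS (Iio η)
  have hA := isLowerSet_Iio η
  have hml := hV.ok.ml η
  set St : Pt T → Set (Finset ℕ) := fun x => {t | ∃ d, x ∈ (ν d).ev (Iio η) ∧ t = (ν d).t η}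
    with hSt
  have mS : Mf (Iio η) St := fun t => measurableSet_setOfPred.2 (Measurable.exists fun d =>
    (measurableSet_setOfPred.1 ((hν d).1.ms hA)).and measurable_const)
  have mG : Ms (Iio η) {x | ∃ y, Goal ((V η).L x) ((V η).O x) (N x) (H x) (St x) n y} :=
    measurableSet_setOfPred.2 (Measurable.exists fun y =>
      measurableSet_setOfPred.1 (ms_goal hml.L hml.O mN mH mS n y))
  refine F_reg hA fun q hq hqV => ?_
  obtain ⟨r, hr, hrq, hG | hG⟩ := F_dec hA mG hq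
  · exact ⟨r, hr, hrq, hG⟩
  exfalso
  have hrV := hrq.trans hA hqV
  let HH : Option {s // s ∈ (Finset.range n).powerset} → Pt T → Set (Finset ℕ) := fun j x =>
    j.casesOn {Z | ∃ Z' ∈ H x, Z ⊆ Z'} fun s => Fr (fam ((V η).L x) ((V η).O x) (St x) s.1)
  obtain ⟨C, _, κ, Z, mZ, hZB, hZ⟩ := comp n (fun x => ((V η).O x ∪ N x)ᶜ) HH
    (fun k => ((hml.O k).union (mN k)).compl)
    (by
      rintro (_ | s) Z
      · exact measurableSet_setOfPred.2 (Measurable.exists fun Z' =>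
          (measurableSet_setOfPred.1 (mH Z')).and measurable_const)
      · exact meas_fr (ms_fam hml.L hml.O mS s.1) Z)
    (by
      rintro (_ | s) x Z Z' h hZ
      · exact hZ.imp fun _ a => ⟨a.1, h.trans a.2⟩
      · exact fun w hw hw' => hZ w hw (hw'.trans h))
  have h1 : ∀ᶠ x in F (Iio η) r, ((V η).O x ∪ N x)ᶜ ⊆ ⋃ c, Z c x ∧
      ∀ c (y : Finset ℕ), ↑y ⊆ Z c x → y.Nonempty → y ∈ HH (κ c) x := by
    filter_upwards [hG] with x hx
    refine hZ x fun y hy => ?_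
    have : Cov (H x ∪ {Z | ∃ s ⊆ Finset.range n,
        Z ∈ Fr (fam ((V η).L x) ((V η).O x) (St x) s)}) n y := by
      by_contra hc
      exact hx ⟨y, subset_compl_iff_disjoint_right.1 hy, hc⟩
    refine this.mono ?_ le_rfl subset_rfl
    rintro W (hW | ⟨s, hs, hW⟩)
    · exact mem_iUnion.2 ⟨none, W, hW, subset_rfl⟩
    · exact mem_iUnion.2 ⟨some ⟨s, Finset.mem_powerset.2 hs⟩, hW⟩
  have h2 : ∀ᶠ x in F (Iio η) r, ∃ c, x ∈ {x | ¬ Sm ((V η).K · x) (Z c x)} := by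
    filter_upwards [h1, F_mono hA hrV hN, F_mono hA hrV (hV.v η (mem_univ η))] with x a b c
    by_contra hc
    refine c.2.2 ((((Sm.iUnion fun i => not_not.1 fun h => hc ⟨i, h⟩).mono a.1).union b).mono
      fun k hk => ?_)
    by_cases hk' : k ∈ N x
    · exact Or.inr hk'
    · exact Or.inl fun h => h.elim hk hk'
  obtain ⟨c, r', hr', hr'r, hc⟩ := F_ex hA (fun c => (meas_sm hml.K (mZ c)).compl) hr h2
  have hr'V := hr'r.trans hA hrV
  have h3 := F_mono hA hr'r h1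
  cases hκ : κ c with
  | none =>
    have := F_neBot hr'
    obtain ⟨x, a, b, m, hm⟩ := (Eventually.and hc (Eventually.and h3 (F_mono hA hr'V hH))).exists
    refine a (Sm.of_her (n := m) fun y hy hy' => ?_)
    have := b.2 c y hy hy'
    rw [hκ] at this
    obtain ⟨W, h4, h5⟩ := this
    exact ⟨W, hm h4, h5⟩
  | some s =>
    have h4 : ∀ᶠ x in F (Iio η) r', ¬ Sm ((V η).K · x) (Z c x) ∧
        ∀ w ∈ fam ((V η).L x) ((V η).O x) (St x) s.1, ¬ ↑w ⊆ Z c x := by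
      filter_upwards [hc, h3] with x a b
      refine ⟨a, fun w hw hw' => ?_⟩
      obtain ⟨k, hk⟩ := (Sm.infinite a).nonempty
      have := b.2 c (insert k w) (by rw [Finset.coe_insert]; exact insert_subset hk hw')
        (Finset.insert_nonempty _ _)
      rw [hκ] at this
      exact this w hw (Finset.subset_insert _ _)
    let e : Loc T := ⟨True, fun _ => ↑s.1, fun x => (Z c x ∪ ↑s.1)ᶜ, (V η).K⟩
    have me : ML (Iio η) e := ⟨fun _ => MeasurableSet.const _,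
      fun k => ((mZ c k).union (MeasurableSet.const _)).compl, hml.K⟩
    have hp : Val univ (cat (Iio η) r' V) := cat_val hA isLowerSet_univ hr' hV hr'V
    have hpr : F (Iio η) (cat (Iio η) r' V) ≤ F (Iio η) r' := F_mono hA cat_le_left
    have hw : wS e (cat (Iio η) r' V η) ∈ F (Iio η) (cat (Iio η) r' V) := by
      rw [cat_out (A := Iio η) (lt_irrefl η)]
      filter_upwards [hpr h4] with x a
      have : (V η).L x ⊆ ↑s.1 ∧ Disjoint (↑s.1 : Set ℕ) ((V η).O x) := by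
        by_contra h
        exact a.2 ∅ (Or.inl ⟨h, rfl⟩) (by simp)
      refine ⟨this.1, fun k hk h => h.elim (fun h => hZB c x h (Or.inl hk))
        fun h => disjoint_left.1 this.2 h hk, Cv.refl _⟩
    have hv : vS e ∈ F (Iio η) (cat (Iio η) r' V) := by
      filter_upwards [hpr h4] with x a
      exact ⟨s.1.finite_toSet, disjoint_left.2 fun k hk h => h (Or.inr hk),
        fun h => a.1 (h.mono fun k hk h' => h' (Or.inl hk))⟩
    have hp' := upd_val isLowerSet_univ hp me trivial hw hv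
    have hle : Le univ (Function.update (cat (Iio η) r' V) η e) (cat (Iio η) r' V) :=
      upd_le trivial hw
    have hl : F univ (Function.update (cat (Iio η) r' V) η e) ≤ F (Iio η) r' :=
      ((F_lift hA isLowerSet_univ (subset_univ _)).trans (hle.fl' η)).trans hpr
    have hg := F_gen (p := Function.update (cat (Iio η) r' V) η e) isLowerSet_univ (mem_univ η)
    rw [Function.update_self] at hg
    have := F_neBot hp'
    obtain ⟨x, a, b, ⟨d, hd⟩, g⟩ := (Eventually.and (hl h4) (Eventually.and hg (Eventually.and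
      (F_mono isLowerSet_univ (hle.trans isLowerSet_univ (cat_le hA hr'V)) hcov)
      ((hl.trans (F_mono hA hr'V)) (eventually_countable_forall.2 hcut))))).exists
    have h5 := hd η (hν d).2 (mem_univ η)
    have h6 := (ν d).ev_mono (subset_univ (Iio η)) hd
    refine a.2 _ (Or.inr ⟨(ν d).t η, ⟨d, h6, rfl⟩, fun k hk => ?_, rfl⟩) fun k hk => ?_
    · exact (g d h6 k (Finset.mem_range.1 (Finset.mem_powerset.1 s.2 hk))).resolve_right
        (disjoint_left.1 h5.2 (b.1 hk))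
    · have h7 := Finset.mem_sdiff.1 (Finset.mem_coe.1 hk)
      exact (not_not.1 (disjoint_left.1 b.2 (h5.1 h7.1))).resolve_right h7.2

end Pool.Agent.MP_9590fd_lc

end

-- part MP_9590fd_lc.Build
section

/-!
Finite trees of conditions that meet the goals at the coordinates in `Λ`.
-/

set_option autoImplicit false
set_option linter.unusedSectionVars false

namespace Pool.Agent.MP_9590fd_lc

open Set Filter MeasureTheory

variable {T : Type} [LinearOrder T] [WellFoundedLT T]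

structure Pk (a : Set T) (W : Cd T) (N : T → Pt T → Set ℕ) (H : T → Pt T → Set (Finset ℕ))
    (n : ℕ) (Λ : Finset T) {ι : Type} (c : ι → Cd T) (ν : ι → Md T) (y : ι → T → Finset ℕ) :
    Prop where
  val : ∀ i, Val univ (c i)
  le : ∀ i, Le univ (c i) W
  sub : ∀ i, Λ ⊆ (ν i).E
  leaf : ∀ i, Leaf univ a W (c i) (ν i)
  tree : Tree a c ν
  low : ∀ i j ζ, (∀ η ∈ Λ, ζ < η) → c i ζ = c j ζ ∧ (ζ ∈ (ν i).E ↔ ζ ∈ (ν j).E)
  nrm : ∀ i ζ, ζ ∉ Λ → y i ζ = ∅
  goal : ∀ i, ∀ η ∈ Λ, ∀ᶠ x in F (Iio η) (c i), Goal ((W η).L x) ((W η).O x) (N η x) (H η x)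
    {t | ∃ j, TAg (ν i) (ν j) η ∧ t = (ν j).t η} n (y i η)

theorem join_fin {A : Set T} (hA : IsLowerSet A) {V r : Cd T} {ν : ℕ → Md T}
    (hν : ∀ d, Mod V (ν d)) (D : Finset ℕ) (hr : Val A r) (hle : Le A r V)
    (h : ∀ d ∈ D, (ν d).ev A ∈ F A r) :
    ∃ r', Val A r' ∧ Le A r' r ∧ ∀ d ∈ D, Le A r' (add V (ν d)) := by
  induction D using Finset.induction_on with
  | empty => exact ⟨r, hr, Le.refl, by simp⟩
  | insert d D _ ih =>
    obtain ⟨r', a, b, c⟩ := ih fun e he => h e (Finset.mem_insert_of_mem he)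
    refine ⟨add r' (ν d), join' hA (hν d) a (b.trans hA hle)
      (F_mono hA b (h d (Finset.mem_insert_self _ _))), add_le.trans hA b, fun e he => ?_⟩
    rcases Finset.mem_insert.1 he with rfl | he
    · exact add_mono hA (b.trans hA hle) rfl rfl fun _ _ => subset_rfl
    · exact add_le.trans hA (c e he)

theorem Goal.sel {L O N : Set ℕ} {H : Set (Finset ℕ)} {t : ℕ → Finset ℕ} {P : ℕ → Prop} {n : ℕ}
    {y : Finset ℕ} (h : Goal L O N H {s | ∃ d, P d ∧ s = t d} n y) (h0 : ∃ d, P d) :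
    ∃ D : Finset ℕ, (D.Nonempty ∧ InjOn t D) ∧ (∀ d ∈ D, P d) ∧
      Goal L O N H {s | ∃ d ∈ D, s = t d} n y := by
  classical
  obtain ⟨d, hd⟩ := h0
  choose! g hg using fun s (h : ∃ d, P d ∧ s = t d) => h
  let U := (y ∪ Finset.range n ∪ t d).powerset.filter fun s => ∃ d, P d ∧ s = t d
  have hU : ∀ s ∈ U, P (g s) ∧ s = t (g s) := fun s hs => hg s (Finset.mem_filter.1 hs).2
  refine ⟨U.image g, ⟨⟨_, Finset.mem_image_of_mem g (Finset.mem_filter.2
    ⟨Finset.mem_powerset.2 Finset.subset_union_right, d, hd, rfl⟩)⟩, fun a ha b hb e => ?_⟩,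
    fun a ha => ?_, h.fin.mono subset_rfl fun s hs => ?_⟩
  · obtain ⟨s, h1, rfl⟩ := Finset.mem_image.1 ha
    obtain ⟨s', h2, rfl⟩ := Finset.mem_image.1 hb
    rw [← (hU s h1).2, ← (hU s' h2).2] at e
    rw [e]
  · obtain ⟨s, h1, rfl⟩ := Finset.mem_image.1 ha
    exact (hU s h1).1
  · have : s ∈ U := Finset.mem_filter.2
      ⟨Finset.mem_powerset.2 (hs.2.trans Finset.subset_union_left), hs.1⟩
    exact ⟨g s, Finset.mem_image_of_mem g this, (hU s this).2⟩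

/-- Finitely many trees are put on top of one condition, branching at `η`. -/
theorem graft {a : Set T} {W : Cd T} {N : T → Pt T → Set ℕ} {H : T → Pt T → Set (Finset ℕ)}
    {n : ℕ} {Λ : Finset T} {η : T} (hη : ∀ ζ ∈ Λ, η < ζ) (ha : η ∈ a) {κ : Type} {ι : κ → Type}
    {c : ∀ d, ι d → Cd T} {ν : ∀ d, ι d → Md T} {y : ∀ d, ι d → T → Finset ℕ}
    (hP : ∀ d, Pk a W N H n Λ (c d) (ν d) (y d)) (hι : ∀ d, Nonempty (ι d)) {c0 : Cd T}
    {ν0 : Md T} (h0 : Val (Iio η) c0) (hl : Leaf (Iio η) a W c0 ν0) (lc : κ → Loc T)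
    (t : κ → Finset ℕ) (hon : ∀ d, (lc d).on) (hml : ∀ d, ML (Iio η) (lc d))
    (hL : ∀ d, (lc d).L = fun _ => ↑(t d)) (hK : ∀ d d', (lc d).K = (lc d').K)
    (hx : ∀ d d', d ≠ d' → t d ≠ t d') (hx' : ∀ d d', ∀ k ∈ t d, k ∉ t d' → ∀ x, k ∈ (lc d').O x)
    (hle : ∀ d i, Le (Iio η) c0 (c d i)) (hw : ∀ d i, wS (lc d) (c d i η) ∈ F (Iio η) c0)
    (hv : ∀ d, vS (lc d) ∈ F (Iio η) c0)
    (hs : ∀ d, ∀ᶠ x in F (Iio η) c0, Sm ((lc d).K · x) ((lc d).O x)) {y0 : Finset ℕ}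
    (hg : ∀ᶠ x in F (Iio η) c0, Goal ((W η).L x) ((W η).O x) (N η x) (H η x) (range t) n y0) :
    ∃ (c' : (Σ d, ι d) → Cd T) (ν' : (Σ d, ι d) → Md T) (y' : (Σ d, ι d) → T → Finset ℕ),
      Pk a W N H n (insert η Λ) c' ν' y' ∧ ∀ s, Le (Iio η) (c' s) c0 := by
  obtain ⟨c', hc⟩ : ∃ c' : (Σ d, ι d) → Cd T,
    ∀ s, c' s = Function.update (cat (Iio η) c0 (c s.1 s.2)) η (lc s.1) := ⟨_, fun _ => rfl⟩
  have c1 : ∀ s ζ, ζ < η → c' s ζ = c0 ζ := fun s ζ h => by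
    rw [hc, Function.update_of_ne h.ne, cat_in (A := Iio η) h]
  have c2 : ∀ s, c' s η = lc s.1 := fun s => by rw [hc, Function.update_self]
  have c3 : ∀ s ζ, η < ζ → c' s ζ = c s.1 s.2 ζ := fun s ζ h => by
    rw [hc, Function.update_of_ne h.ne', cat_out (A := Iio η) h.not_gt]
  obtain ⟨ν', e0, e1, e2, e3, t1, t2, t3⟩ : ∃ ν' : (Σ d, ι d) → Md T,
      (∀ s ζ, (ν' s).O ζ = (c' s ζ).O) ∧ (∀ s ζ, ζ < η → (ζ ∈ (ν' s).E ↔ ζ ∈ ν0.E)) ∧
      (∀ s, η ∈ (ν' s).E) ∧ (∀ s ζ, η < ζ → (ζ ∈ (ν' s).E ↔ ζ ∈ (ν s.1 s.2).E)) ∧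
      (∀ s ζ, ζ < η → (ν' s).t ζ = ν0.t ζ) ∧ (∀ s, (ν' s).t η = t s.1) ∧
      ∀ s ζ, η < ζ → (ν' s).t ζ = (ν s.1 s.2).t ζ :=
    ⟨fun s => ⟨insert η (ν0.E ∪ (ν s.1 s.2).E.filter (η < ·)), fun ζ => if ζ < η then ν0.t ζ else
      if ζ = η then t s.1 else (ν s.1 s.2).t ζ, fun ζ => (c' s ζ).O⟩, fun _ _ => rfl,
      fun s ζ h => by simp [h.ne, h.not_gt], fun s => by simp, fun s ζ h => by
        have : ζ ∉ ν0.E := fun b => h.not_gt (hl.sub ζ b).2
        simp [h.ne', h, this], fun s ζ h => if_pos h, fun s => by simp,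
      fun s ζ h => by simp [h.ne', h.not_gt]⟩
  have lo := isLowerSet_Iio η
  have l0 : ∀ s, Le (Iio η) (c' s) c0 := fun s => le_of_agree (c1 s)
  have m0 : ∀ s : Σ d, ι d, F (Iio η) (cat (Iio η) c0 (c s.1 s.2)) ≤ F (Iio η) c0 := fun _ =>
    F_mono lo cat_le_left
  have w0 : ∀ s : Σ d, ι d, wS (lc s.1) (cat (Iio η) c0 (c s.1 s.2) η) ∈
      F (Iio η) (cat (Iio η) c0 (c s.1 s.2)) := fun s => by
    rw [cat_out (A := Iio η) (lt_irrefl η)]
    exact m0 s (hw _ _)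
  have l1 : ∀ s, Le univ (c' s) (c s.1 s.2) := fun s => by
    rw [hc]
    exact (upd_le (hon _) (w0 s)).trans isLowerSet_univ (cat_le lo (hle _ _))
  have ex : ∀ d i j ζ, Excl (ν d i) (ν d j) ζ → Excl (ν' ⟨d, i⟩) (ν' ⟨d, j⟩) ζ := by
    rintro d i j ζ ⟨ξ, a1, a2, a3, k, a4, a5, a6⟩
    have h : η < ξ := lt_of_not_ge fun h => a5 (by
      have b := ((hP d).low i j ξ fun _ b => h.trans_lt (hη _ b)).1
      have b1 := congrFun (((hP d).leaf i).L ξ a2) fun _ => ∅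
      rw [b, ((hP d).leaf j).L ξ a3] at b1
      rwa [Finset.coe_inj.1 b1])
    refine ⟨ξ, a1, (e3 _ ξ h).2 a2, (e3 _ ξ h).2 a3, k, t3 _ ξ h ▸ a4, t3 _ ξ h ▸ a5, ?_⟩
    rw [e0, c3 _ ξ h, ((hP d).leaf j).O ξ a3]
    exact a6
  have ag : ∀ s s' ξ, ξ < η → c' s ξ = c' s' ξ ∧ (ξ ∈ (ν' s).E ↔ ξ ∈ (ν' s').E) :=
    fun s s' ξ h => by rw [c1 s ξ h, c1 s' ξ h, e1 s ξ h, e1 s' ξ h]; exact ⟨rfl, Iff.rfl⟩
  refine ⟨c', ν', fun s => Function.update (y s.1 s.2) η y0, ⟨fun s => ?_,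
    fun s => (l1 s).trans isLowerSet_univ ((hP _).le _), fun s ζ h => ?_,
    fun s => ⟨fun ζ h => ⟨?_, trivial⟩, fun ζ h => ?_, fun ζ h => ?_, fun ζ _ => (e0 s ζ).symm,
      fun ζ h => ?_, fun ζ _ h h' => ?_⟩, fun s s' ζ => ?_,
    fun s s' ζ h => ag s s' ζ (h η (Finset.mem_insert_self _ _)), fun s ζ h => ?_,
    fun s ζ h => ?_⟩, l0⟩
  · rw [hc]
    exact upd_val isLowerSet_univ (cat_val lo isLowerSet_univ h0 ((hP _).val _) (hle _ _)) (hml _)
      (hon _) (w0 s) (m0 s (hv _))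
  · rcases Finset.mem_insert.1 h with rfl | h
    · exact e2 s
    · exact (e3 s ζ (hη ζ h)).2 ((hP _).sub _ h)
  · rcases lt_trichotomy ζ η with b | rfl | b
    · exact (hl.sub ζ ((e1 s ζ b).1 h)).1
    · exact ha
    · exact (((hP _).leaf _).sub ζ ((e3 s ζ b).1 h)).1
  · rcases lt_trichotomy ζ η with b | rfl | b
    · rw [t1 s ζ b, hl.nrm ζ (mt (e1 s ζ b).2 h)]
    · exact (h (e2 s)).elim
    · rw [t3 s ζ b, ((hP _).leaf _).nrm ζ (mt (e3 s ζ b).2 h)]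
  · rcases lt_trichotomy ζ η with b | rfl | b
    · rw [t1 s ζ b, c1 s ζ b, hl.L ζ ((e1 s ζ b).1 h)]
    · rw [t2, c2, hL]
    · rw [t3 s ζ b, c3 s ζ b, ((hP _).leaf _).L ζ ((e3 s ζ b).1 h)]
  · rcases lt_trichotomy ζ η with b | rfl | b
    · rw [c1 s ζ b]
      exact (l0 s).fl lo b (hl.sm ζ ((e1 s ζ b).1 h))
    · rw [c2]
      exact F_mono lo (l0 s) (hs _)
    · rw [c3 s ζ b]
      exact (l1 s).fl' ζ (((hP _).leaf _).sm ζ ((e3 s ζ b).1 h))
  · rcases lt_trichotomy ζ η with b | rfl | b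
    · rw [c1 s ζ b]
      exact (l0 s).fl lo b (hl.eq ζ b h (mt (e1 s ζ b).2 h'))
    · exact (h' (e2 s)).elim
    · rw [c3 s ζ b]
      exact (l1 s).fl' ζ (((hP _).leaf _).eq ζ trivial h (mt (e3 s ζ b).2 h'))
  · rcases lt_trichotomy ζ η with b | rfl | b
    · exact Or.inr (Or.inr ⟨fun ξ h => ag s s' ξ (h.trans b), by rw [(ag s s' ζ b).1],
        fun _ => (ag s s' ζ b).1⟩)
    · exact Or.inr (Or.inr ⟨ag s s', by rw [c2, c2, hK], fun h => (h ha).elim⟩)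
    obtain ⟨d, i⟩ := s
    obtain ⟨d', j⟩ := s'
    rcases eq_or_ne d d' with rfl | e
    · refine ((hP d).tree i j ζ).imp (ex d i j ζ) (Or.imp (ex d j i ζ) fun ⟨b1, b2⟩ =>
        ⟨fun ξ h => ?_, by rwa [c3 _ ζ b, c3 _ ζ b]⟩)
      rcases lt_trichotomy ξ η with b' | rfl | b'
      · exact ag _ _ ξ b'
      · exact ⟨by rw [c2, c2], iff_of_true (e2 _) (e2 _)⟩
      · rw [c3 _ ξ b', c3 _ ξ b', e3 _ ξ b', e3 _ ξ b']
        exact b1 ξ h
    · have key : ∀ s s' : Σ d, ι d, ∀ k ∈ t s.1, k ∉ t s'.1 → Excl (ν' s) (ν' s') ζ :=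
        fun s s' k h h' => ⟨η, b, e2 s, e2 s', k, t2 s ▸ h, t2 s' ▸ h', by
          rw [e0, c2]; exact hx' _ _ k h h'⟩
      by_cases h : t d ⊆ t d'
      · obtain ⟨k, h1, h2⟩ := Finset.exists_of_ssubset (h.ssubset_of_ne (hx d d' e))
        exact Or.inr (Or.inl (key ⟨d', j⟩ ⟨d, i⟩ k h1 h2))
      · obtain ⟨k, h1, h2⟩ := Finset.not_subset.1 h
        exact Or.inl (key ⟨d, i⟩ ⟨d', j⟩ k h1 h2)
  · rw [Finset.mem_insert, not_or] at h
    rw [Function.update_of_ne h.1, (hP _).nrm _ ζ h.2]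
  · rcases Finset.mem_insert.1 h with rfl | h
    · rw [Function.update_self]
      filter_upwards [F_mono lo (l0 s) hg] with x b
      refine b.mono subset_rfl ?_
      rintro _ ⟨d, rfl⟩
      obtain ⟨j⟩ := hι d
      exact ⟨⟨d, j⟩, fun ξ h => ⟨(ag _ _ ξ h).2, by rw [t1 _ ξ h, t1 _ ξ h]⟩, (t2 ⟨d, j⟩).symm⟩
    · rw [Function.update_of_ne (hη ζ h).ne']
      filter_upwards [(l1 s).fl' ζ ((hP _).goal _ ζ h)] with x b
      refine b.mono subset_rfl ?_
      rintro _ ⟨j, b1, rfl⟩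
      refine ⟨⟨s.1, j⟩, fun ξ h => ?_, (t3 ⟨s.1, j⟩ ζ (hη ζ h)).symm⟩
      rcases lt_trichotomy ξ η with b' | rfl | b'
      · exact ⟨(ag _ _ ξ b').2, by rw [t1 _ ξ b', t1 _ ξ b']⟩
      · exact ⟨iff_of_true (e2 _) (e2 _), by rw [t2, t2]⟩
      · rw [t3 _ ξ b', t3 _ ξ b', e3 _ ξ b', e3 _ ξ b']
        exact b1 ξ h

theorem build {a : Set T} {W : Cd T} (hW : Val univ W) (ha : a ⊆ sp W)
    {N : T → Pt T → Set ℕ} {H : T → Pt T → Set (Finset ℕ)} (n : ℕ) (Λ : Finset T)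
    (hΛ : ∀ η ∈ Λ, η ∈ a ∧ Mf (Iio η) (N η) ∧ Mf (Iio η) (H η) ∧
      (∀ᶠ x in F (Iio η) W, Sm ((W η).K · x) (N η x)) ∧
      ∀ᶠ x in F (Iio η) W, ∃ m, H η x ⊆ Un ((W η).K · x) m)
    {ρ : Cd T} (hρ : Val univ ρ) (hle : Le univ ρ W) :
    ∃ (ι : Type) (_ : Finite ι) (_ : Nonempty ι) (c : ι → Cd T) (ν : ι → Md T)
      (y : ι → T → Finset ℕ), Pk a W N H n Λ c ν y ∧ ∀ i, Le {ζ | ∀ η ∈ Λ, ζ < η} (c i) ρ := by
  induction Λ using Finset.induction_on_min generalizing ρ with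
  | empty =>
    obtain ⟨c, ν, h1, h2, -, h3⟩ := dec isLowerSet_univ ha hρ hle ∅ (by simp)
    exact ⟨Unit, inferInstance, inferInstance, fun _ => c, fun _ => ν, fun _ _ => ∅,
      ⟨fun _ => h1, fun _ => h2.trans isLowerSet_univ hle, fun _ => Finset.empty_subset _,
        fun _ => h3, fun _ _ _ => Or.inr (Or.inr ⟨fun _ _ => ⟨rfl, Iff.rfl⟩, rfl, fun _ => rfl⟩),
        fun _ _ _ _ => ⟨rfl, Iff.rfl⟩, fun _ _ _ => rfl, by simp only [Finset.notMem_empty, exists_const, IsEmpty.forall_iff, implies_true]⟩, fun _ => h2.sub (subset_univ _)⟩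
  | insert η Λ hη ih =>
  replace ih := @ih fun ζ h => hΛ ζ (Finset.mem_insert_of_mem h)
  obtain ⟨a1, a2, a3, a4, a5⟩ := hΛ η (Finset.mem_insert_self _ _)
  have lo := isLowerSet_Iio η
  have lc := isLowerSet_Iic η
  have lu : IsLowerSet (univ : Set T) := isLowerSet_univ
  have r1 := cat_val lo lu (hρ.sub (subset_univ _)) hW (hle.sub (subset_univ _))
  have r2 : Le univ (cat (Iio η) ρ W) W := cat_le lo (hle.sub (subset_univ _))
  have r3 : cat (Iio η) ρ W η = W η := cat_out (A := Iio η) (lt_irrefl η)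
  obtain ⟨-, -, V, b1, b2, ν, b3, b4⟩ := seal' (S := Unit) (fun _ _ => ⟨(), fun _ => le_rfl⟩)
    (fun _ r => (∃ (ι : Type) (_ : Finite ι) (_ : Nonempty ι) (c : ι → Cd T) (ν : ι → Md T)
      (y : ι → T → Finset ℕ), Pk a W N H n Λ c ν y ∧ ∀ i, Le (Iic η) r (c i)) ∧
      ∀ᶠ x in F (Iio η) r, ∀ k < n, k ∈ (r η).L x ∨ k ∈ (r η).O x) (σ := ()) r1 {η}
    (fun ζ h => Finset.mem_singleton.1 h ▸ r2.supp (ha a1)) (fun _ _ r h1 h2 => by
      obtain ⟨ι, i1, ⟨i⟩, c, ν, y, h3, h4⟩ := ih h1 (h2.trans lu r2)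
      have h5 : Le (Iic η) (c i) r := (h4 i).sub fun _ b ζ b' => lt_of_le_of_lt b (hη ζ b')
      have h6 := cat_val lc lu ((h3.val i).sub (subset_univ _)) h1 h5
      refine ⟨(), le_rfl, _, cut_val lu h6 (mem_univ η) (finite_Iio n),
        (cut_le _).trans lu (cat_le lc h5), ⟨ι, i1, ⟨i⟩, c, ν, y, h3, fun j =>
          ((cut_le _).trans lc cat_le_left).trans lc (le_of_agree fun ζ b =>
            (h3.low i j ζ fun ξ b' => lt_of_le_of_lt b (hη ξ b')).1)⟩,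
        Eventually.of_forall fun x k hk => ?_⟩
      rw [Function.update_self]
      exact or_iff_not_imp_left.2 fun b => Or.inr ⟨hk, b⟩)
    (fun _ r _ r' ⟨⟨ι, i1, i2, c, ν, y, h3, h4⟩, h5⟩ _ _ h6 =>
      ⟨⟨ι, i1, i2, c, ν, y, h3, fun i => (h6.sub (subset_univ _)).trans lc (h4 i)⟩, by
        filter_upwards [h6.fl' η h5, h6.w η trivial] with x b b' k hk
          using (b k hk).imp (b'.1 ·) (b'.2.1 ·)⟩)
  have b5 : ∀ d, η ∈ (ν d).E := fun d => (b3 d).2.1 (Finset.mem_singleton_self η)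
  have b6 := b2.le.trans lu r2
  obtain ⟨e1, e2⟩ := b2.eq η (r2.supp (ha a1))
  rw [r3] at e1 e2
  have mv := fun d => (b3 d).1.ms lo
  have ad : ∀ d, add V (ν d) η = ⟨True, fun x => (V η).L x ∪ ↑((ν d).t η),
    fun x => (V η).O x ∪ (ν d).O η x, (V η).K⟩ := fun d => if_pos (b5 d)
  have f1 := famL b1 (b6.supp (ha a1)) ν (fun d => ⟨(b3 d).1, b5 d⟩) b4 n (fun d => by
      filter_upwards [(b3 d).1.tr lo (b3 d).2.2.2, ((b3 d).1 η (b5 d)).2.2] with x c1 c2 c3 k hk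
      have := c1 c3 k hk
      rw [ad] at this
      exact this.imp (fun b => b.elim ((c2 c3).1 ·) id) fun b => b.elim ((c2 c3).2.1 ·) id) a2 a3
    (by filter_upwards [b6.fl' η a4, b6.w η trivial] with x c1 c2 using c1.cv c2.2.2)
    (by
      filter_upwards [b6.fl' η a5, b6.w η trivial] with x c1 c2
      obtain ⟨m, c3⟩ := c1
      exact (c2.2.2.un m).imp fun _ => c3.trans)
  have f2 : (⋃ d, (ν d).ev (Iio η)) ∈ F (Iio η) V :=
    F_abs lo lu (subset_univ _) (MeasurableSet.iUnion mv) b1 (b4.mono fun x ⟨d, h⟩ =>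
      mem_iUnion.2 ⟨d, (ν d).ev_mono (subset_univ _) h⟩)
  rw [e1, e2] at f1
  obtain ⟨⟨y0, D⟩, ρ1, g1, g2, g3⟩ := F_ex lo (ι := Finset ℕ × Finset ℕ) (t := fun z =>
      {x | (z.2.Nonempty ∧ InjOn (fun d => (ν d).t η) z.2) ∧ (∀ d ∈ z.2, x ∈ (ν d).ev (Iio η)) ∧
        Goal ((W η).L x) ((W η).O x) (N η x) (H η x) {s | ∃ d ∈ z.2, s = (ν d).t η} n z.1})
    (fun z => by
      let _ := MS (Iio η)
      exact (MeasurableSet.const _).inter ((measurableSet_setOfPred.2 (Measurable.forall fun d =>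
        Measurable.forall fun _ => measurableSet_setOfPred.1 (mv d))).inter
        (ms_goal (hW.ok.ml η).L (hW.ok.ml η).O a2 a3 (fun _ => MeasurableSet.const _) n z.1)))
    (b1.sub (subset_univ _)) (by
      filter_upwards [f1, f2] with x c1 c2
      obtain ⟨y, c1⟩ := c1
      obtain ⟨D, c3⟩ := c1.sel (mem_iUnion.1 c2)
      exact ⟨(y, D), c3⟩)
  have := F_neBot g1
  obtain ⟨_, ⟨⟨d0, g4⟩, g5⟩, -⟩ := Filter.nonempty_of_mem g3
  obtain ⟨ρ2, g6, g7, g8⟩ := join_fin lo (fun d => (b3 d).1) D g1 g2 fun d h =>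
    mem_of_superset g3 fun _ b => b.2.1 d h
  have g9 := g7.trans lo g2
  obtain ⟨c0, ν0, h1, h2, -, h3⟩ := dec lo ha g6 (g9.trans lo (b6.sub (subset_univ _))) ∅ (by simp only [Finset.notMem_empty, mem_Iio, IsEmpty.forall_iff, implies_true])
  choose ι i1 i2 c ν' y h4 h5 using fun d : D => (b3 d).2.2.1
  have h6 := F_mono lo (h2.trans lo g7) g3
  have h7 := F_mono lo (h2.trans lo g9)
  have h8 : ∀ d : D, gS (V η) ((ν d).t η) ((ν d).O η) ∈ F (Iio η) c0 := fun d => by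
    filter_upwards [h6, h7 ((b3 d).1 η (b5 d)).2.2] with x c1 c2 using c2 (c1.2.1 d d.2)
  let U : Finset ℕ := D.biUnion fun d => (ν d).t η
  obtain ⟨c', ν'', y', h9, h10⟩ := graft hη a1 h4 i2 h1 h3
    (fun d => cut ⟨True, fun _ => ↑((ν d).t η), (ν d).O η, (V η).K⟩ ↑U) (fun d => (ν d).t η)
    (fun _ => trivial) (fun d => ML.cut (d := ⟨True, fun _ => ↑((ν d).t η), (ν d).O η, (V η).K⟩)
      ⟨fun _ => MeasurableSet.const _, ((b3 d).1 η (b5 d)).2.1, (b1.ok.ml η).K⟩ _) (fun _ => rfl) (fun _ _ => rfl)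
    (fun d d' h e => h (Subtype.ext (g5 d.2 d'.2 e)))
    (fun d d' k h h' x => Or.inr ⟨Finset.mem_biUnion.2 ⟨d, d.2, h⟩, h'⟩)
    (fun d i => (h2.trans lo (g8 d d.2)).trans lo ((h5 d i).sub Iio_subset_Iic_self))
    (fun d i => by
      filter_upwards [h8 d, F_mono lo (h2.trans lo (g8 d d.2)) ((h5 d i).w η self_mem_Iic)]
        with x c1 c2
      rw [ad] at c2
      exact ⟨c2.1.trans (union_subset c1.1 subset_rfl),
        (c2.2.1.trans (union_subset c1.2.1 subset_rfl)).trans subset_union_left, c2.2.2⟩)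
    (fun d => by
      filter_upwards [h8 d, h7 (b1.v η trivial)] with x c1 c2
      exact vS_cut _ U.finite_toSet ⟨Finset.finite_toSet _, c1.2.2.1, fun b => c2.2.2
        ((b.union c1.2.2.2).mono fun k _ => (em _).symm)⟩)
    (fun d => by
      filter_upwards [h8 d] with x c1
      exact c1.2.2.2.union (Sm.of_finite (U.finite_toSet.subset sdiff_subset))) (y0 := y0)
    (by
      filter_upwards [h6] with x c1
      exact c1.2.2.mono subset_rfl fun s ⟨d, b, b'⟩ => ⟨⟨d, b⟩, b'.symm⟩)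
  obtain ⟨i0⟩ := i2 ⟨d0, g4⟩
  exact ⟨_, inferInstance, ⟨⟨⟨d0, g4⟩, i0⟩⟩, c', ν'', y', h9, fun s =>
    (((h10 s).trans lo ((h2.trans lo g9).trans lo (b2.le.sub (subset_univ _)))).trans lo
      cat_le_left).sub fun ζ h => h η (Finset.mem_insert_self _ _)⟩

end Pool.Agent.MP_9590fd_lc

end

-- part MP_9590fd_lc.Mir
section

/-!
Threads and their mirrors. A history lists, for each stage `n`, a pair `(σ, W)`, the finite set
`π` of the types of the threads born at stage `n`, an ordinal `α` and the out-sets `O` of all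
threads in the `n`-th mirror.
-/

set_option autoImplicit false
set_option linter.unusedSectionVars false

namespace Pool.Agent.MP_9590fd_lc

open Set Filter MeasureTheory

variable {T : Type} [LinearOrder T] [WellFoundedLT T] {S Ω : Type} [Preorder S] [LinearOrder Ω]

/-- The type of a thread: its support, its stems and the finite sets it reserves. -/
abbrev Ty (T : Type) := Finset T × (T → Finset ℕ × Finset ℕ)

def md (l : Ty T) (O : T → Pt T → Set ℕ) : Md T := ⟨l.1, fun ζ => (l.2 ζ).1, O⟩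

abbrev Cf (T : Type) := ℕ → Ty T → T → Pt T → Set ℕ

structure St (S Ω T : Type) where
  σ : S
  W : Cd T
  π : Set (Ty T)
  α : Ω
  O : Cf T

open Classical in
/-- An enumeration of the support. -/
noncomputable def en (W : Cd T) (k : ℕ) : Set T :=
  if h : (sp W).Countable then
    {η | ∃ hη : η ∈ sp W, (Set.countable_iff_exists_injective.1 h).choose ⟨η, hη⟩ < k}
  else ∅

variable (f : ℕ → St S Ω T)

/-- The out-sets of the threads born before stage `j` whose event holds. -/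
def Nc (O : Cf T) (j : ℕ) (η : T) (x : Pt T) : Set ℕ :=
  {k | ∃ i < j, ∃ l ∈ (f i).π, η ∈ l.1 ∧ x ∈ (md l (O i l)).ev (Iio η) ∧ k ∈ O i l η x}

/-- The same for all mirrors before stage `j`. -/
def Np (j : ℕ) (η : T) (x : Pt T) : Set ℕ := {k | ∃ i < j, k ∈ Nc f (f i).O (i + 1) η x}

def Hp (j : ℕ) (η : T) (x : Pt T) : Set (Finset ℕ) :=
  {Z | ∃ i < j, Z ∈ Un (((f i).W η).K · x) j}

def Lv (j : ℕ) : Set T := {η | ∃ i < j, η ∈ en (f i).W j}

/-- The requirements on the threads born at stage `j`. -/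
structure Cl (j : ℕ) (W : Cd T) (O : Cf T) : Prop where
  mod : ∀ l ∈ (f j).π, Mod W (md l (O j l))
  sub : ∀ l ∈ (f j).π, Lv f j ⊆ ↑l.1
  goal : ∀ l ∈ (f j).π, ∀ η ∈ Lv f j, ∀ᶠ x in F (Iio η) W, x ∈ (md l (O j l)).ev (Iio η) →
    Goal ((W η).L x) ((W η).O x) (Np f j η x ∪ Nc f O j η x) (Hp f j η x)
      {t | ∃ l' ∈ (f j).π, TAg (md l (O j l)) (md l' (O j l')) η ∧ t = (l'.2 η).1} j (l.2 η).2
  sib : ∀ l ∈ (f j).π, ∀ l' ∈ (f j).π, ∀ η, TAg (md l (O j l)) (md l' (O j l')) η →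
    (md l (O j l)).ev (Iio η) ⊆ (md l' (O j l')).ev (Iio η)

variable (X : S → Cd T → Ω → Prop)

def Rq (n : ℕ) (σ : S) (W : Cd T) (α : Ω) (O : Cf T) : Prop :=
  (∀ j ≤ n, Cl f j W O) ∧ ∀ l ∈ (f 0).π, X σ (add W (md l (O 0 l))) α

/-- The property `R` occurs with unboundedly many `α` below every extension of `c`. -/
def HR (R : S × Cd T → Ω → Prop) (c : S × Cd T) : Prop :=
  ∀ c', Val univ c'.2 → RL c' c → ∀ β, ∃ c'', Val univ c''.2 ∧ RL c'' c' ∧ ∃ α, β < α ∧ R c'' α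

variable {f X}

theorem en_fin (W : Cd T) (k : ℕ) : (en W k).Finite := by
  unfold en
  split_ifs with h
  · have hi := (Set.countable_iff_exists_injective.1 h).choose_spec
    refine (((Set.finite_lt_nat k).preimage hi.injOn).image Subtype.val).subset ?_
    rintro η ⟨hη, h1⟩
    exact ⟨⟨η, hη⟩, h1, rfl⟩
  · exact finite_empty

theorem en_sub (W : Cd T) (k : ℕ) : en W k ⊆ sp W := by
  unfold en
  split_ifs with h
  · rintro η ⟨hη, -⟩
    exact hη
  · exact empty_subset _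

theorem en_ev {W : Cd T} (h : OK W) {η : T} (hη : η ∈ sp W) : ∃ k, ∀ j, k ≤ j → η ∈ en W j := by
  refine ⟨(Set.countable_iff_exists_injective.1 h.cnt).choose ⟨η, hη⟩ + 1, fun j hj => ?_⟩
  unfold en
  rw [dif_pos h.cnt]
  exact ⟨hη, hj⟩

/-- One of countably many types occurs unboundedly often. -/
theorem hrl (hS : SC S) (hΩ : ∀ s : Set Ω, s.Countable → BddAbove s) {τ : Type} (su : τ → Set T)
    (G : Set τ) (hf : ∀ π ∈ G, (su π).Finite)
    (hc : ∀ a : Set T, a.Countable → {π | π ∈ G ∧ su π ⊆ a}.Countable)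
    (R : τ → S × Cd T → Ω → Prop) {c : S × Cd T} (hv : Val univ c.2)
    (h : ∀ c', Val univ c'.2 → RL c' c → ∀ β, ∃ π ∈ G, su π ⊆ sp c'.2 ∧
      ∃ c'', Val univ c''.2 ∧ RL c'' c' ∧ ∃ α, β < α ∧ R π c'' α) :
    ∃ π ∈ G, ∃ c', Val univ c'.2 ∧ RL c' c ∧ HR (R π) c' := by
  classical
  by_contra hn
  let D : τ → Set (S × Cd T) := fun π =>
    {c' | ∃ β, ∀ c'', Val univ c''.2 → RL c'' c' → ∀ α, β < α → ¬ R π c'' α}
  have hD : ∀ π ∈ G, DO (fun c' => Val univ c'.2 ∧ RL c' c) RL (D π) := by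
    intro π hπ
    refine ⟨fun p hp => ?_, fun d ⟨β, hd⟩ q _ hq =>
      ⟨β, fun c'' h1 h2 => hd c'' h1 (h2.trans hq)⟩⟩
    by_contra h1
    refine hn ⟨π, hπ, p, hp.1, hp.2, fun c' h2 h3 β => ?_⟩
    by_contra h4
    exact h1 ⟨c', ⟨β, fun c'' a b α d e => h4 ⟨c'', a, b, α, d, e⟩⟩, ⟨h2, h3.trans hp.2⟩, h3⟩
  obtain ⟨c', h1, h2, h3⟩ := kill hS su G hf hc c hv D hD
  have h4 : ∀ π : {π | π ∈ G ∧ su π ⊆ sp c'.2}, ∃ β, ∀ c'', Val univ c''.2 → RL c'' c' →
      ∀ α, β < α → ¬ R π c'' α := fun π => h3 π π.2.1 π.2.2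
  choose b hb using h4
  have := (hc _ h1.ok.cnt).to_subtype
  obtain ⟨β, hβ⟩ := hΩ _ (countable_range b)
  obtain ⟨π, a1, a2, c'', a3, a4, α, a5, a6⟩ := h c' h1 h2 β
  exact hb ⟨π, a1, a2⟩ c'' a3 a4 α ((hβ (mem_range_self _)).trans_lt a5) a6

theorem bi_lv_fin (f : ℕ → St S Ω T) (j : ℕ) : (Lv f j).Finite := by
  refine ((Set.finite_Iio j).biUnion fun i _ => en_fin (f i).W j).subset ?_
  rintro η ⟨i, hi, h⟩
  exact mem_biUnion hi h

theorem bi_ms_ex {A : Set T} {ι : Type} {I : Set ι} (hI : I.Countable) {s : ι → Set (Pt T)}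
    (h : ∀ i ∈ I, Ms A (s i)) : Ms A {x | ∃ i ∈ I, x ∈ s i} := by
  have e : {x | ∃ i ∈ I, x ∈ s i} = ⋃ i ∈ I, s i := by
    ext x
    simp only [mem_ofPred_eq, mem_iUnion, exists_prop]
  rw [e]
  exact @MeasurableSet.biUnion _ _ (MS A) _ _ hI h

theorem bi_nc_mf {V : Cd T} {O : Cf T} {j : ℕ} (hπ : ∀ i < j, (f i).π.Finite)
    (hm : ∀ i < j, ∀ l ∈ (f i).π, Mod V (md l (O i l))) (η : T) : Mf (Iio η) (Nc f O j η) := by
  intro k
  refine bi_ms_ex (I := Iio j) (to_countable _)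
    (s := fun i => {x | ∃ l ∈ (f i).π, η ∈ l.1 ∧ x ∈ (md l (O i l)).ev (Iio η) ∧ k ∈ O i l η x})
    fun i hi => ?_
  refine bi_ms_ex (hπ i hi).countable
    (s := fun l => {x | η ∈ l.1 ∧ x ∈ (md l (O i l)).ev (Iio η) ∧ k ∈ O i l η x}) fun l hl => ?_
  by_cases hη : η ∈ l.1
  · simp only [hη, true_and]
    exact @MeasurableSet.inter _ (MS (Iio η)) _ _ ((hm i hi l hl).ms (isLowerSet_Iio η))
      ((hm i hi l hl η hη).2.1 k)
  · simp only [hη, false_and, ofPred_false]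
    exact @MeasurableSet.empty _ (MS (Iio η))

theorem bi_nc_sm {V : Cd T} {O : Cf T} {j : ℕ} (hπ : ∀ i < j, (f i).π.Finite)
    (hm : ∀ i < j, ∀ l ∈ (f i).π, Mod V (md l (O i l))) (η : T) :
    ∀ᶠ x in F (Iio η) V, Sm ((V η).K · x) (Nc f O j η x) := by
  have h1 : ∀ᶠ x in F (Iio η) V, ∀ i ∈ Iio j, ∀ l ∈ (f i).π,
      Sm ((V η).K · x) {k | η ∈ l.1 ∧ x ∈ (md l (O i l)).ev (Iio η) ∧ k ∈ O i l η x} := by
    refine (eventually_all_finite (Set.finite_Iio j)).2 fun i hi =>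
      (eventually_all_finite (hπ i hi)).2 fun l hl => ?_
    by_cases hη : η ∈ l.1
    · filter_upwards [(hm i hi l hl η hη).2.2] with x hx
      by_cases he : x ∈ (md l (O i l)).ev (Iio η)
      · exact (hx he).2.2.2.mono fun k hk => hk.2.2
      · exact Sm.of_finite (finite_empty.subset fun k hk => (he hk.2.1).elim)
    · exact Eventually.of_forall fun x =>
        Sm.of_finite (finite_empty.subset fun k hk => (hη hk.1).elim)
  filter_upwards [h1] with x hx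
  refine (Sm.biUnion (Set.finite_Iio j) fun i hi => Sm.biUnion (hπ i hi) (hx i hi)).mono ?_
  rintro k ⟨i, hi, l, hl, hk⟩
  exact mem_biUnion hi (mem_biUnion hl hk)

theorem bi_nc_congr {g : ℕ → St S Ω T} {O O' : Cf T} {j : ℕ} (e : ∀ i < j, g i = f i)
    (eO : ∀ i < j, O' i = O i) : Nc g O' j = Nc f O j := by
  funext η x
  ext k
  exact exists_congr fun i => and_congr_right fun hi => by rw [e i hi, eO i hi]

theorem bi_np_congr {g : ℕ → St S Ω T} {j : ℕ} (e : ∀ i < j, g i = f i) : Np g j = Np f j := by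
  funext η x
  ext k
  refine exists_congr fun i => and_congr_right fun hi => ?_
  rw [bi_nc_congr (f := f) (g := g) (O := (f i).O) (O' := (g i).O) (j := i + 1)
    (fun i' h => e i' (by omega)) fun _ _ => by rw [e i hi]]

theorem bi_hp_congr {g : ℕ → St S Ω T} {j : ℕ} (e : ∀ i < j, g i = f i) : Hp g j = Hp f j := by
  funext η x
  ext k
  exact exists_congr fun i => and_congr_right fun hi => by rw [e i hi]

theorem bi_lv_congr {g : ℕ → St S Ω T} {j : ℕ} (e : ∀ i < j, g i = f i) : Lv g j = Lv f j := by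
  ext η
  exact exists_congr fun i => and_congr_right fun hi => by rw [e i hi]

/-- Leaves of a tree with the same stems have the same events. -/
theorem Tree.sib {ι : Type} {a : Set T} {W : Cd T} {c : ι → Cd T} {ν : ι → Md T} (ht : Tree a c ν)
    (hl : ∀ i, Leaf univ a W (c i) (ν i)) {i j : ι} {η : T} (h : TAg (ν i) (ν j) η) :
    (ν i).ev (Iio η) ⊆ (ν j).ev (Iio η) := by
  rcases ht i j η with ⟨ξ, hξ, -, -, k, h1, h2, -⟩ | ⟨ξ, hξ, -, -, k, h1, h2, -⟩ | ⟨h1, -⟩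
  · exact (h2 ((h ξ hξ).2 ▸ h1)).elim
  · exact (h2 ((h ξ hξ).2 ▸ h1)).elim
  · intro x hx ζ hζ hζη
    have hi : ζ ∈ (ν i).E := (h ζ hζη).1.2 hζ
    have := hx ζ hi hζη
    rwa [(h ζ hζη).2, ← (hl i).O ζ hi, (h1 ζ hζη).1, (hl j).O ζ hζ] at this

/-- The new threads of one stage. -/
theorem birth (j : ℕ) {a : Set T} {W : Cd T} {O : Cf T} (hW : Val univ W) (ha : a ⊆ sp W)
    (hf : ∀ i < j, Val univ (f i).W ∧ Le univ W (f i).W ∧ sp (f i).W ⊆ a ∧ (f i).π.Finite ∧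
      (∀ i' ≤ i, Cl f i' (f i).W (f i).O) ∧ Cl f i W O)
    {ρ : Cd T} (hρ : Val univ ρ) (hle : Le univ ρ W) :
    ∃ π : Set (Ty T), π.Finite ∧ π.Nonempty ∧
      (∀ l ∈ π, ↑l.1 ⊆ a ∧ ∀ ζ, ζ ∉ l.1 → l.2 ζ = (∅, ∅)) ∧
      ∃ W', Val univ W' ∧ Ext a W' W ∧ ∃ O' : Ty T → T → Pt T → Set ℕ,
        (j = 0 → ∀ l ∈ π, Le univ (add W' (md l (O' l))) ρ) ∧ ∀ g : ℕ → St S Ω T,
          (∀ i < j, g i = f i) → (g j).π = π → Cl g j W' (Function.update O j O') := by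
  have hπ : ∀ i < j, (f i).π.Finite := fun i hi => (hf i hi).2.2.2.1
  have hm : ∀ i < j, ∀ l ∈ (f i).π, Mod W (md l (O i l)) := fun i hi => (hf i hi).2.2.2.2.2.mod
  have hπ' : ∀ i < j, ∀ i' < i + 1, (f i').π.Finite := fun i hi i' h => hπ i' (by omega)
  have hm' : ∀ i < j, ∀ i' < i + 1, ∀ l ∈ (f i').π, Mod (f i).W (md l ((f i).O i' l)) :=
    fun i hi i' h => ((hf i hi).2.2.2.2.1 i' (by omega)).mod
  have hΛ : ∀ η, η ∈ (bi_lv_fin f j).toFinset ↔ η ∈ Lv f j := fun η => (bi_lv_fin f j).mem_toFinset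
  have hla : Lv f j ⊆ a := by
    rintro η ⟨i, hi, h⟩
    exact (hf i hi).2.2.1 (en_sub _ _ h)
  obtain ⟨ι, hι, hne, c, ν, y, hP, hρ'⟩ := build hW ha (N := fun η x => Np f j η x ∪ Nc f O j η x)
    (H := Hp f j) j (bi_lv_fin f j).toFinset (fun η hη => by
      have hw : ∀ᶠ x in F (Iio η) W, ∀ i ∈ Iio j, Cv (((f i).W η).K · x) ((W η).K · x) :=
        (eventually_all_finite (Set.finite_Iio j)).2 fun i hi => by
          filter_upwards [(hf i hi).2.1.w η (mem_univ η)] with x hx using hx.2.2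
      refine ⟨hla ((hΛ η).1 hη), fun k => ?_, fun Z => ?_, ?_, ?_⟩
      · exact @MeasurableSet.union _ (MS (Iio η)) _ _
          (bi_ms_ex (I := Iio j) (to_countable _) (s := fun i => {x | k ∈ Nc f (f i).O (i + 1) η x})
            fun i hi => bi_nc_mf (hπ' i hi) (hm' i hi) η k) (bi_nc_mf hπ hm η k)
      · exact bi_ms_ex (I := Iio j) (to_countable _)
          (s := fun i => {x | Z ∈ Un (((f i).W η).K · x) j}) fun i hi =>
            @meas_un _ (MS (Iio η)) _ ((hf i hi).1.ok.ml η).K j Z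
      · have h1 : ∀ᶠ x in F (Iio η) W, ∀ i ∈ Iio j,
            Sm (((f i).W η).K · x) (Nc f (f i).O (i + 1) η x) :=
          (eventually_all_finite (Set.finite_Iio j)).2 fun i hi =>
            (hf i hi).2.1.fl' η (bi_nc_sm (hπ' i hi) (hm' i hi) η)
        filter_upwards [hw, h1, bi_nc_sm hπ hm η] with x h2 h3 h4
        refine Sm.union ((Sm.biUnion (Set.finite_Iio j) fun i hi =>
          (h3 i hi).cv (h2 i hi)).mono ?_) h4
        rintro k ⟨i, hi, hk⟩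
        exact mem_biUnion hi hk
      · filter_upwards [hw] with x h2
        choose! m hm using fun i hi => (h2 i hi).un j
        refine ⟨(Finset.range j).sup m, ?_⟩
        rintro Z ⟨i, hi, hZ⟩
        exact Un_mono (Finset.le_sup (f := m) (Finset.mem_range.2 hi)) (hm i hi hZ)) hρ hle
  obtain ⟨W', hW', hE, hg⟩ := glue hW ha hP.val hP.le hP.leaf hP.tree
  let ty : ι → Ty T := fun i => ((ν i).E, fun ζ => ((ν i).t ζ, y i ζ))
  let O' : Ty T → T → Pt T → Set ℕ := fun l => (ν (Function.invFun ty l)).O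
  have key : ∀ l ∈ range ty, ∃ i, l = ty i ∧ md l (O' l) = ν i := fun l hl => by
    have e : ty (Function.invFun ty l) = l := Function.invFun_eq hl
    refine ⟨Function.invFun ty l, e.symm, ?_⟩
    change md l (ν (Function.invFun ty l)).O = _
    generalize Function.invFun ty l = i at e
    subst e
    rfl
  refine ⟨range ty, finite_range ty, range_nonempty ty, ?_, W', hW', hE, O', ?_, ?_⟩
  · rintro _ ⟨i, rfl⟩
    refine ⟨fun ζ hζ => ((hP.leaf i).sub ζ hζ).1, fun ζ hζ => ?_⟩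
    exact Prod.ext ((hP.leaf i).nrm ζ hζ) (hP.nrm i ζ fun h => hζ (hP.sub i h))
  · rintro rfl l hl
    obtain ⟨i, -, e⟩ := key l hl
    rw [e]
    refine (hg i).2.trans isLowerSet_univ ((hρ' i).sub fun ζ _ η hη => ?_)
    obtain ⟨i', hi', -⟩ := (hΛ η).1 hη
    omega
  · intro g e eπ
    have eO : Function.update O j O' j = O' := Function.update_self ..
    refine ⟨fun l hl => ?_, fun l hl => ?_, fun l hl η hη => ?_, fun l hl l' hl' η => ?_⟩
    · obtain ⟨i, -, e1⟩ := key l (eπ ▸ hl)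
      rw [eO, e1]
      exact (hg i).1
    · obtain ⟨i, rfl, -⟩ := key l (eπ ▸ hl)
      rw [bi_lv_congr e]
      exact fun η hη => hP.sub i ((hΛ η).2 hη)
    · obtain ⟨i, e0, e1⟩ := key l (eπ ▸ hl)
      rw [bi_lv_congr e] at hη
      rw [bi_np_congr e, bi_hp_congr e, bi_nc_congr (O := O) e fun i hi => Function.update_of_ne hi.ne ..,
        eO, e1, eπ, (hE.eq η (hla hη)).1, (hE.eq η (hla hη)).2]
      filter_upwards [(hg i).1.tr (isLowerSet_Iio η)
        ((hg i).2.fl' η (hP.goal i η ((hΛ η).2 hη)))] with x hx he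
      rw [e0]
      refine (hx he).mono subset_rfl ?_
      rintro _ ⟨i', h1, rfl⟩
      exact ⟨ty i', mem_range_self i', h1, rfl⟩
    · obtain ⟨i, -, e1⟩ := key l (eπ ▸ hl)
      obtain ⟨i', -, e2⟩ := key l' (eπ ▸ hl')
      rw [eO, e1, e2]
      exact hP.tree.sib hP.leaf

theorem Nc_congr {g : ℕ → St S Ω T} {j : ℕ} {O O' : Cf T} (e : ∀ i < j, g i = f i)
    (eO : ∀ i < j, O' i = O i) : Nc g O' j = Nc f O j := by
  funext η x
  ext k
  exact exists_congr fun i => and_congr_right fun hi => by rw [e i hi, eO i hi]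

theorem Np_congr {g : ℕ → St S Ω T} {j : ℕ} (e : ∀ i < j, g i = f i) : Np g j = Np f j := by
  funext η x
  ext k
  refine exists_congr fun i => and_congr_right fun hi => ?_
  rw [e i hi, Nc_congr (f := f) (g := g) (fun i' hi' => e i' (by omega)) fun _ _ => rfl]

theorem Hp_congr {g : ℕ → St S Ω T} {j : ℕ} (e : ∀ i < j, g i = f i) : Hp g j = Hp f j := by
  funext η x
  ext k
  exact exists_congr fun i => and_congr_right fun hi => by rw [e i hi]

theorem Lv_congr {g : ℕ → St S Ω T} {j : ℕ} (e : ∀ i < j, g i = f i) : Lv g j = Lv f j := by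
  ext k
  exact exists_congr fun i => and_congr_right fun hi => by rw [e i hi]

theorem Cl.congr {g : ℕ → St S Ω T} {j : ℕ} {W : Cd T} {O O' : Cf T} (h : Cl f j W O)
    (e : ∀ i < j, g i = f i) (e' : (g j).π = (f j).π) (eO : ∀ i ≤ j, O' i = O i) :
    Cl g j W O' := by
  have e1 := Nc_congr (f := f) (g := g) e fun i hi => eO i hi.le
  have e2 := Np_congr e
  have e3 := Hp_congr e
  have e4 := Lv_congr e
  have e5 := eO j le_rfl
  constructor
  · rw [e', e5]; exact h.mod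
  · rw [e', e4]; exact h.sub
  · rw [e', e1, e2, e3, e4, e5]; exact h.goal
  · rw [e', e5]; exact h.sib

theorem Cl.ext {j : ℕ} {a : Set T} {W W' : Cd T} {O : Cf T} (h : Cl f j W O) (hW : Ext a W' W)
    (ha : ∀ l ∈ (f j).π, ↑l.1 ⊆ a) : Cl f j W' O := by
  refine ⟨fun l hl => (h.mod l hl).ext hW fun ζ hζ => ha l hl hζ, h.sub, fun l hl η hη => ?_, h.sib⟩
  have e := hW.eq η (ha l hl (h.sub l hl hη))
  rw [e.1, e.2]
  exact (h.goal l hl η hη).filter_mono (hW.le.fl' η)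

theorem ex_hist {Y : Type} [Nonempty Y] (P : ℕ → (ℕ → Y) → Prop)
    (hc : ∀ n g g', (∀ i ≤ n, g' i = g i) → P n g → P n g')
    (hs : ∀ n g, (∀ i < n, P i g) → ∃ y, P n (Function.update g n y)) : ∃ g, ∀ n, P n g := by
  classical
  have h1 : ∀ n g, ∃ y, (∀ i < n, P i g) → P n (Function.update g n y) := fun n g => by
    by_cases h : ∀ i < n, P i g
    · exact (hs n g h).imp fun _ a _ => a
    · exact ⟨Classical.arbitrary Y, fun a => (h a).elim⟩
  choose y hy using h1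
  let s : ℕ → ℕ → Y := fun n => Nat.rec (fun _ => Classical.arbitrary Y)
    (fun n g => Function.update g n (y n g)) n
  have s1 : ∀ n, s (n + 1) = Function.update (s n) n (y n (s n)) := fun _ => rfl
  have s2 : ∀ i n, i < n → s n i = s (i + 1) i := fun i n hn => by
    induction n, hn using Nat.le_induction with
    | base => rfl
    | succ n hn ih => rw [s1, Function.update_of_ne (by omega), ih]
  refine ⟨fun i => s (i + 1) i, fun n => ?_⟩
  induction n using Nat.strong_induction_on with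
  | _ n ih =>
    refine hc n (s (n + 1)) _ (fun i hi => (s2 i (n + 1) (by omega)).symm)
      (hy n (s n) fun i hi => ?_)
    exact hc i _ _ (fun k hk => s2 k n (by omega)) (ih i hi)

theorem Rq.congr {g : ℕ → St S Ω T} {n : ℕ} {σ : S} {W : Cd T} {α : Ω} {O : Cf T}
    (h : Rq f X n σ W α O) (e : ∀ i ≤ n, g i = f i) : Rq g X n σ W α O :=
  ⟨fun j hj => (h.1 j hj).congr (fun i hi => e i (by omega)) (by rw [e j hj]) fun _ _ => rfl,
    by rw [e 0 n.zero_le]; exact h.2⟩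

variable (f X) in
/-- The configurations of stage `n` with new threads of the types in `π`. -/
def RR (n : ℕ) (π : Set (Ty T)) (c : S × Cd T) (α : Ω) : Prop :=
  ∃ O, ∀ g : ℕ → St S Ω T, (∀ i < n, g i = f i) → (g n).π = π → Rq g X n c.1 c.2 α O

theorem RR_congr {g : ℕ → St S Ω T} {n : ℕ} (e : ∀ i < n, g i = f i) : RR g X n = RR f X n := by
  funext π c α
  refine propext (exists_congr fun O => forall_congr' fun g' => imp_congr_left ?_)
  exact forall₂_congr fun i hi => by rw [e i hi]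

/-- The choice of the next stage. -/
theorem stage (hS : SC S) (hΩ : ∀ s : Set Ω, s.Countable → BddAbove s) (n : ℕ) {c : S × Cd T}
    (hv : Val univ c.2) (β₀ : Ω)
    (h : ∀ c', Val univ c'.2 → RL c' c → ∀ β, ∃ π : Set (Ty T), π.Finite ∧ π.Nonempty ∧
      (∀ l ∈ π, ↑l.1 ⊆ sp c'.2 ∧ ∀ ζ, ζ ∉ l.1 → l.2 ζ = (∅, ∅)) ∧
      ∃ c'', Val univ c''.2 ∧ RL c'' c' ∧ ∃ α, β < α ∧ RR f X n π c'' α) :
    ∃ y : St S Ω T, Val univ y.W ∧ RL (y.σ, y.W) c ∧ β₀ < y.α ∧ y.π.Nonempty ∧ y.π.Finite ∧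
      Rq (Function.update f n y) X n y.σ y.W y.α y.O ∧ HR (RR f X n y.π) (y.σ, y.W) := by
  obtain ⟨π, hπ, c', h1, h2, h3⟩ := hrl hS hΩ (τ := Set (Ty T)) (fun π => ⋃ l ∈ π, ↑l.1)
    {π | π.Finite ∧ π.Nonempty ∧ ∀ l ∈ π, ∀ ζ, ζ ∉ l.1 → l.2 ζ = (∅, ∅)}
    (fun π hπ => hπ.1.biUnion fun l _ => l.1.finite_toSet)
    (fun a ha => by
      refine (Set.countable_ofPred_finite_subset
        (cnt_ty ((∅, ∅) : Finset ℕ × Finset ℕ) ha)).mono ?_
      rintro π ⟨h1, h2⟩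
      exact ⟨h1.1, fun l hl => ⟨(subset_biUnion_of_mem
        (u := fun l : Ty T => (↑l.1 : Set T)) hl).trans h2, h1.2.2 l hl⟩⟩)
    (RR f X n) hv fun c' a b β => by
      obtain ⟨π, a1, a2, a3, a4⟩ := h c' a b β
      exact ⟨π, ⟨a1, a2, fun l hl => (a3 l hl).2⟩, iUnion₂_subset fun l hl => (a3 l hl).1, a4⟩
  obtain ⟨c'', a1, a2, α, a3, O, a4⟩ := h3 c' h1 RL.refl β₀
  refine ⟨⟨c''.1, c''.2, π, α, O⟩, a1, a2.trans h2, a3, hπ.2.1, hπ.1,
    a4 _ (fun i hi => Function.update_of_ne hi.ne _ _) (by rw [Function.update_self]),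
    fun d b1 b2 => h3 d b1 (b2.trans a2)⟩

variable (X) in
/-- The invariant of the recursion. -/
def Inv (h : S → Ω) (c : S × Cd T) (n : ℕ) (g : ℕ → St S Ω T) : Prop :=
  Val univ (g n).W ∧ (n = 0 → RL ((g n).σ, (g n).W) c) ∧
    (∀ m, n = m + 1 → RL ((g n).σ, (g n).W) ((g m).σ, (g m).W) ∧ (g m).α < (g n).α ∧
      h (g m).σ < (g n).α) ∧ (g n).π.Nonempty ∧ (g n).π.Finite ∧
    Rq g X n (g n).σ (g n).W (g n).α (g n).O ∧ HR (RR g X n (g n).π) ((g n).σ, (g n).W)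

theorem stage_succ (hm : ∀ σ p α σ' p', X σ p α → σ' ≤ σ → Val univ p' → Le univ p' p → X σ' p' α)
    {h : S → Ω} {c : S × Cd T} {n : ℕ} (hi : ∀ i < n + 1, Inv X h c i f) (c' : S × Cd T)
    (hv : Val univ c'.2) (hc : RL c' ((f n).σ, (f n).W)) (β : Ω) :
    ∃ π : Set (Ty T), π.Finite ∧ π.Nonempty ∧
      (∀ l ∈ π, ↑l.1 ⊆ sp c'.2 ∧ ∀ ζ, ζ ∉ l.1 → l.2 ζ = (∅, ∅)) ∧
      ∃ c'', Val univ c''.2 ∧ RL c'' c' ∧ ∃ α, β < α ∧ RR f X (n + 1) π c'' α := by
  have chain : ∀ i m, i ≤ m → m ≤ n → Le univ (f m).W (f i).W := fun i m him hm => by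
    induction m, him using Nat.le_induction with
    | base => exact Le.refl
    | succ m _ ih =>
      exact ((hi (m + 1) (by omega)).2.2.1 m rfl).1.2.le.trans isLowerSet_univ (ih (by omega))
  have hl : ∀ i < n + 1, Le univ c'.2 (f i).W := fun i h1 =>
    hc.2.le.trans isLowerSet_univ (chain i n (by omega) le_rfl)
  obtain ⟨c'', a1, a2, α, a3, O, a4⟩ := (hi n n.lt_succ_self).2.2.2.2.2.2 c' hv hc β
  have a5 := a4 f (fun _ _ => rfl) rfl
  obtain ⟨π, b1, b2, b3, W', b4, b5, O', -, b6⟩ := birth (f := f) (n + 1) (a := sp c'.2) (O := O)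
    a1 a2.2.le.supp (fun i h1 => ⟨(hi i h1).1, a2.2.le.trans isLowerSet_univ (hl i h1),
      (hl i h1).supp, (hi i h1).2.2.2.2.1, (hi i h1).2.2.2.2.2.1.1, a5.1 i (by omega)⟩) a1 Le.refl
  have hcl : ∀ g : ℕ → St S Ω T, (∀ i < n + 1, g i = f i) → ∀ j ≤ n,
      Cl g j W' (Function.update O (n + 1) O') := fun g e j hj =>
    ((a5.1 j hj).ext b5 fun l hl' ζ hζ => (hl j (by omega)).supp
      (((hi j (by omega)).2.2.2.2.2.1.1 j le_rfl).mod l hl' ζ hζ).1).congr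
        (fun i hi => e i (by omega)) (by rw [e j (by omega)])
        fun i hi => Function.update_of_ne (by omega) _ _
  refine ⟨π, b1, b2, b3, (c''.1, W'), b4, ⟨a2.1, b5.trans a2.2 subset_rfl⟩, α, a3,
    Function.update O (n + 1) O', fun g e e' => ⟨fun j hj => ?_, fun l hl' => ?_⟩⟩
  · rcases hj.eq_or_lt with rfl | hj
    · exact b6 g e e'
    · exact hcl g e j (by omega)
  · have h0 := ((hcl g e 0 n.zero_le).mod l hl').val isLowerSet_univ b4
    rw [e 0 n.succ_pos] at hl'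
    rw [Function.update_of_ne (by omega)] at h0 ⊢
    exact hm _ _ _ _ _ (a5.2 l hl') le_rfl h0
      (add_mono isLowerSet_univ b5.le rfl rfl fun _ _ => subset_rfl)

/-- The sequence of mirrors. -/
theorem mirror (hS : SC S) (hΩ : ∀ s : Set Ω, s.Countable → BddAbove s) (h : S → Ω)
    (hm : ∀ σ p α σ' p', X σ p α → σ' ≤ σ → Val univ p' → Le univ p' p → X σ' p' α)
    {σ : S} {W : Cd T} (hW : Val univ W)
    (hd : ∀ σ' ≤ σ, ∀ p, Val univ p → Le univ p W → ∀ β,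
      ∃ σ'' ≤ σ', ∃ p', Val univ p' ∧ Le univ p' p ∧ ∃ α, β < α ∧ X σ'' p' α) :
    ∃ f : ℕ → St S Ω T, RL ((f 0).σ, (f 0).W) (σ, W) ∧ ∀ n, Val univ (f n).W ∧
      RL ((f (n + 1)).σ, (f (n + 1)).W) ((f n).σ, (f n).W) ∧ (f n).α < (f (n + 1)).α ∧
      h (f n).σ < (f (n + 1)).α ∧ (f n).π.Nonempty ∧ (f n).π.Finite ∧
      Rq f X n (f n).σ (f n).W (f n).α (f n).O := by
  obtain ⟨β₀, -⟩ := hΩ ∅ countable_empty
  have : Nonempty (St S Ω T) := ⟨⟨σ, W, ∅, β₀, fun _ _ _ _ => ∅⟩⟩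
  obtain ⟨g, hg⟩ := ex_hist (Inv X h (σ, W)) (fun n g g' e ⟨a1, a2, a3, a4, a5, a6, a7⟩ => by
    unfold Inv
    rw [RR_congr (f := g) (g := g') fun i hi => e i hi.le, e n le_rfl]
    refine ⟨a1, a2, fun m hm => ?_, a4, a5, a6.congr e, a7⟩
    rw [e m (by omega)]
    exact a3 m hm) fun n g hi => by
      have e := fun y : St S Ω T => RR_congr (X := X) (f := g) (g := Function.update g n y) (n := n)
        fun i hi => Function.update_of_ne hi.ne _ _
      rcases n with _ | n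
      · obtain ⟨y, a1, a2, -, a4, a5, a6, a7⟩ := stage (f := g) (X := X) hS hΩ 0 (c := (σ, W)) hW β₀
          fun c' hv hc β => by
            obtain ⟨σ'', b1, p', b2, b3, α, b4, b5⟩ := hd c'.1 hc.1 c'.2 hv hc.2.le β
            obtain ⟨π, d1, d2, d3, W', d4, d5, O', d6, d7⟩ := birth (f := g) 0 (a := sp c'.2)
              (O := fun _ _ _ _ => ∅) hv subset_rfl (fun i hi => absurd hi i.not_lt_zero) b2 b3
            refine ⟨π, d1, d2, d3, (σ'', W'), d4, ⟨b1, d5⟩, α, b4,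
              Function.update (fun _ _ _ _ => ∅) 0 O', fun g' e e' => ⟨fun j hj => ?_,
                fun l hl => ?_⟩⟩
            · rw [Nat.le_zero.1 hj]
              exact d7 g' e e'
            · have h0 := ((d7 g' e e').mod l hl).val isLowerSet_univ d4
              rw [Function.update_self] at h0 ⊢
              exact hm _ _ _ _ _ b5 le_rfl h0 (d6 rfl l (e' ▸ hl))
        refine ⟨y, ?_⟩
        unfold Inv
        rw [e y, Function.update_self]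
        exact ⟨a1, fun _ => a2, fun m hm => absurd hm (by omega), a4, a5, a6, a7⟩
      · obtain ⟨y, a1, a2, a3, a4, a5, a6, a7⟩ := stage (f := g) (X := X) hS hΩ (n + 1)
          (c := ((g n).σ, (g n).W)) (hi n n.lt_succ_self).1 (max (g n).α (h (g n).σ))
          (stage_succ hm hi)
        refine ⟨y, ?_⟩
        unfold Inv
        rw [e y, Function.update_self]
        refine ⟨a1, fun h0 => absurd h0 (by omega), fun m hm => ?_, a4, a5, a6, a7⟩
        obtain rfl : n = m := by omega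
        rw [Function.update_of_ne (by omega)]
        exact ⟨a2, (le_max_left _ _).trans_lt a3, (le_max_right _ _).trans_lt a3⟩
  exact ⟨g, (hg 0).2.1 rfl, fun n => ⟨(hg n).1, ((hg (n + 1)).2.2.1 n rfl).1,
    ((hg (n + 1)).2.2.1 n rfl).2.1, ((hg (n + 1)).2.2.1 n rfl).2.2, (hg n).2.2.2.1,
    (hg n).2.2.2.2.1, (hg n).2.2.2.2.2.1⟩⟩

end Pool.Agent.MP_9590fd_lc

end

-- part MP_9590fd_lc.Am
section

/-!
One condition extends infinitely many mirrors.
-/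

set_option autoImplicit false
set_option linter.unusedSectionVars false

namespace Pool.Agent.MP_9590fd_lc

open Set Filter MeasureTheory

variable {T : Type} [LinearOrder T] [WellFoundedLT T] {S Ω : Type} [Preorder S] [LinearOrder Ω]

theorem fr_fam_mono {L O : Set ℕ} {St St' : Set (Finset ℕ)} (h : St ⊆ St') (s : Finset ℕ) :
    Fr (fam L O St' s) ⊆ Fr (fam L O St s) := fun _ hZ y hy =>
  hZ y (hy.imp_right fun ⟨t, a, b⟩ => ⟨t, h a, b⟩)

variable (f : ℕ → St S Ω T) (u : ℕ → ℕ × Ty T)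

/-- A thread over all its mirrors. -/
def mi (v : ℕ × Ty T) : Md T := md v.2 fun ζ x => ⋃ n, ⋃ _ : v.1 ≤ n, (f n).O v.1 v.2 ζ x

theorem mi_ev {v : ℕ × Ty T} {A : Set T} {x : Pt T} :
    x ∈ (mi f v).ev A ↔ ∀ n, v.1 ≤ n → x ∈ (md v.2 ((f n).O v.1 v.2)).ev A :=
  ⟨fun h n hn ζ a b => ⟨(h ζ a b).1, (h ζ a b).2.mono_right
      (subset_iUnion₂ (s := fun n (_ : v.1 ≤ n) => (f n).O v.1 v.2 ζ x) n hn)⟩,
    fun h ζ a b => ⟨(h _ le_rfl ζ a b).1, disjoint_iUnion₂_right.2 fun n hn => (h n hn ζ a b).2⟩⟩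

def stems (n : ℕ) (η : T) (x : Pt T) : Set (Finset ℕ) :=
  {t | ∃ k, n ≤ (u k).1 ∧ η ∈ (u k).2.1 ∧ x ∈ (mi f (u k)).ev (Iio η) ∧ t = ((u k).2.2 η).1}

/-- The ideals of `V` are enlarged by the out-sets of the threads and the free sets of stems. -/
def enl (e : ℕ → Finset ℕ × ℕ) (V : Cd T) : Cd T := fun η =>
  ⟨(V η).on, (V η).L, (V η).O, fun i x => (V η).K i x ∪ {Z | (V η).on ∧
    ((η ∈ (u i).2.1 ∧ x ∈ (mi f (u i)).ev (Iio η) ∧ Z ∈ Nul ((mi f (u i)).O η x)) ∨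
      Z ∈ Fr (fam ((V η).L x) ((V η).O x) (stems f u (e i).2 η x) (e i).1))}⟩

variable {f u} {e : ℕ → Finset ℕ × ℕ} {V q : Cd T}

theorem enl_le : Le univ (enl f u e V) V :=
  ⟨fun _ _ h => h, fun _ _ => univ_mem' fun _ => ⟨subset_rfl, subset_rfl,
    Cv.of_sub fun i => ⟨i, subset_union_left⟩⟩,
    finite_empty.subset fun _ h => h.2.2 (univ_mem' fun _ => ⟨rfl, rfl⟩)⟩

theorem enl_off (hV : OK V) {η : T} (h : η ∉ sp V) : enl f u e V η = triv := by
  simp only [enl, hV.off η h, triv, false_and, ofPred_false, union_self]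

theorem enl_ok (hV : OK V) (hm : ∀ k, ∀ ζ ∈ (mi f (u k)).E, Mf (Iio ζ) ((mi f (u k)).O ζ)) :
    OK (enl f u e V) := by
  refine ⟨hV.cnt, fun η h => enl_off hV h, fun η => ⟨(hV.ml η).L, (hV.ml η).O, fun i Z => ?_⟩⟩
  let _ := MS (Iio η)
  have ev := fun k => ms_ev (isLowerSet_Iio η) (hm k)
  have st : Mf (Iio η) (stems f u (e i).2 η) := fun t =>
    measurableSet_setOfPred.2 (Measurable.exists fun k => measurable_const.and (measurable_const.and
      ((measurableSet_setOfPred.1 (ev k)).and measurable_const)))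
  refine ((hV.ml η).K i Z).union ((MeasurableSet.const _).inter (MeasurableSet.union ?_
    (meas_fr (ms_fam (hV.ml η).L (hV.ml η).O st _) Z)))
  by_cases h : η ∈ (u i).2.1
  · exact (MeasurableSet.const _).inter ((ev i).inter
      (meas_sub (M := fun _ => (↑Z : Set ℕ)) (fun _ => MeasurableSet.const _) (hm i η h)))
  · exact measurableSet_setOfPred.2 (by simp only [h, false_and]; exact measurable_const)

/-- Some thread born after stage `n` is met by the generic point. -/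
theorem hit (he : Function.Surjective e) (hm : ∀ k, Mod (enl f u e V) (mi f (u k))) {n : ℕ}
    (hn : ∃ k, n ≤ (u k).1) {A : Set T} (hA : IsLowerSet A) :
    ∀ᶠ x in F A (enl f u e V), ∃ k, n ≤ (u k).1 ∧ x ∈ (mi f (u k)).ev A := by
  generalize hq : enl f u e V = q at hm
  refine F_reg hA fun r hr hle => ?_
  obtain ⟨c, ν, h1, h2, -, h3⟩ := dec hA subset_rfl hr hle ∅ (by simp)
  have h4 := h2.trans hA hle
  have key : ∀ k (r : Cd T), Le A r q → ∀ ζ ∈ (mi f (u k)).E, ζ ∈ A →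
      eS (r ζ) (q ζ) ∈ F (Iio ζ) r → ∀ᶠ x in F (Iio ζ) r, x ∈ (mi f (u k)).ev (Iio ζ) →
        Disjoint ((r ζ).L x) ((mi f (u k)).O ζ x) ∧
          Disjoint (↑((mi f (u k)).t ζ) : Set ℕ) ((r ζ).O x) := fun k r hr ζ a b d => by
    filter_upwards [d, hr.fl hA b (hm k ζ a).2.2] with x h5 h6 h7
    rw [h5.1, h5.2]
    exact ⟨(h6 h7).2.2.1.mono_left (h6 h7).1, (h6 h7).2.2.1.mono_right (h6 h7).2.1⟩
  rcases ν.E.eq_empty_or_nonempty with h0 | h0
  · obtain ⟨k, hk⟩ := hn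
    obtain ⟨h5, h6⟩ := join hA (hm k) h1 h4 fun ζ a b =>
      key k c h4 ζ a b (h3.eq ζ b (hm k ζ a).1 (by simp [h0]))
    exact ⟨_, h5, add_le.trans hA h2, mem_of_superset h6 fun x hx => ⟨k, hk, hx⟩⟩
  have hζ := ν.E.max'_mem h0
  have hmax : ∀ x ∈ ν.E, x ≤ ν.E.max' h0 := ν.E.le_max'
  generalize ν.E.max' h0 = ζ at hζ hmax
  obtain ⟨a1, a2⟩ := h3.sub ζ hζ
  have hs : Iio ζ ⊆ A := fun _ h => hA (le_of_lt h) a2
  obtain ⟨i, hi⟩ := he (ν.t ζ, n)
  obtain ⟨k, r2, b1, b2, b3⟩ := F_ex (isLowerSet_Iio ζ) (t := fun k => {x | (n ≤ (u k).1 ∧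
      ζ ∈ (u k).2.1 ∧ ν.t ζ ⊆ ((u k).2.2 ζ).1) ∧ x ∈ (mi f (u k)).ev (Iio ζ) ∧
      Disjoint (↑(((u k).2.2 ζ).1 \ ν.t ζ) : Set ℕ) ((c ζ).O x)})
    (fun k => by
      let _ := MS (Iio ζ)
      exact (MeasurableSet.const _).inter (((hm k).ms (isLowerSet_Iio ζ)).inter
        (meas_disj (M := fun _ => (↑(((u k).2.2 ζ).1 \ ν.t ζ) : Set ℕ))
          (fun _ => MeasurableSet.const _) (h1.ok.ml ζ).O))) (h1.sub hs) (by
    filter_upwards [h1.v ζ a2, h4.w ζ a2] with x d1 d2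
    by_contra hc
    obtain ⟨m, d3⟩ := d2.2.2 i
    refine d1.2.2 (Sm.of_her (n := m) fun y hy _ => ⟨y, d3 ?_, subset_rfl⟩)
    subst hq
    refine Or.inr ⟨a1, Or.inr ?_⟩
    rw [hi]
    rintro w (⟨d4, -⟩ | ⟨t, ⟨k, d5, d6, d7, rfl⟩, d8, rfl⟩) d9
    · have d5 := d1.2.1
      have d6 := d2.1
      rw [h3.L ζ hζ] at d5 d6
      exact d4 ⟨d6, d5.mono_right d2.2.1⟩
    · exact hc ⟨k, ⟨d5, d6, d8⟩, d7, disjoint_left.2 fun j hj => hy (d9 hj)⟩)
  have c1 := cat_val (isLowerSet_Iio ζ) hA b1 h1 b2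
  have c2 : Le A (cat (Iio ζ) r2 c) c := cat_le (isLowerSet_Iio ζ) b2
  have c3 := F_mono (isLowerSet_Iio ζ) (cat_le_left (q := r2) (p := c)) b3
  have := F_neBot b1
  obtain ⟨_, ⟨d1, -, d2⟩, -⟩ := Filter.nonempty_of_mem b3
  obtain ⟨h5, h6⟩ := join hA (hm k) c1 (c2.trans hA h4) fun ξ a b => by
    rcases lt_trichotomy ξ ζ with h | rfl | h
    · exact (join_ev (isLowerSet_Iio ζ) (hm k) (c1.sub hs)
        (mem_of_superset c3 fun _ d => d.2.1) a h).mono fun _ d _ => d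
    · filter_upwards [c3, (c2.trans hA h4).fl hA b (hm k ξ a).2.2, c2.fl hA b (h1.v ξ b)]
        with x d3 d4 d5 d6
      have d7 := d5.2.1
      rw [cat_out (A := Iio ξ) (lt_irrefl ξ)]
      rw [h3.L ξ hζ] at d7 ⊢
      refine ⟨(d4 d6).2.2.1.mono_left (Finset.coe_subset.2 d2), disjoint_left.2 fun j hj => ?_⟩
      by_cases d8 : j ∈ ν.t ξ
      · exact disjoint_left.1 d7 d8
      · exact disjoint_left.1 d3.2.2 (Finset.mem_coe.2 (Finset.mem_sdiff.2 ⟨hj, d8⟩))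
    · refine key k _ (c2.trans hA h4) ξ a b ?_
      rw [cat_out (A := Iio ζ) h.not_gt]
      exact c2.fl hA b (h3.eq ξ b (hm k ξ a).1 fun d => (hmax ξ d).not_gt h)
  exact ⟨_, h5, (add_le.trans hA c2).trans hA h2, mem_of_superset h6 fun x hx => ⟨k, d1, hx⟩⟩

theorem amalg {f : ℕ → St S Ω T} (hv : ∀ n, Val univ (f n).W)
    (he : ∀ n, Ext (sp (f n).W) (f (n + 1)).W (f n).W) (hn : ∀ n, (f n).π.Nonempty)
    (hc : ∀ n, ∀ j ≤ n, Cl f j (f n).W (f n).O) (hcnt : ∀ n, (f n).π.Countable) {l : Ty T}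
    (hl : l ∈ (f 0).π) : ∃ q, Val univ q ∧ Le univ q (f 0).W ∧
      ∀ n, Le univ q (add (f n).W (md l ((f n).O 0 l))) := by
  obtain ⟨V, hV, hE, hs, hK⟩ := lim (fun n => (f n).W) hv he
  have hT : {v : ℕ × Ty T | v.2 ∈ (f v.1).π}.Countable :=
    (countable_iUnion fun n => (hcnt n).image (Prod.mk n)).mono fun v h =>
      mem_iUnion.2 ⟨v.1, mem_image_of_mem (Prod.mk v.1) (show v.2 ∈ (f v.1).π from h)⟩
  obtain ⟨u, hu⟩ := hT.exists_eq_range ⟨(0, l), hl⟩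
  have u1 : ∀ k, (u k).2 ∈ (f (u k).1).π := fun k => (hu.ge ⟨k, rfl⟩ :)
  have u2 : ∀ j, ∀ l ∈ (f j).π, ∃ k, u k = (j, l) := fun j l h => (hu.le (show (j, l) ∈ _ from h) :)
  obtain ⟨e, he'⟩ := exists_surjective_nat (Finset ℕ × ℕ)
  have hle : ∀ n, Le univ (enl f u e V) (f n).W := fun n =>
    enl_le.trans isLowerSet_univ (hE n).le
  have m1 : ∀ k n, (u k).1 ≤ n → Mod (f n).W (md (u k).2 ((f n).O (u k).1 (u k).2)) :=
    fun k n h => (hc n _ h).mod _ (u1 k)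
  have hm : ∀ k, Mod (enl f u e V) (mi f (u k)) := fun k ζ hζ => by
    have a := (m1 k _ le_rfl ζ hζ).1
    refine ⟨(hle _).supp a, fun j => ?_, ?_⟩
    · let _ := MS (Iio ζ)
      simp only [mi, md, mem_iUnion]
      exact measurableSet_setOfPred.2 (Measurable.exists fun n => Measurable.exists fun h =>
        measurableSet_setOfPred.1 ((m1 k n h ζ hζ).2.1 j))
    · filter_upwards [eventually_countable_forall.2 fun n : {n // (u k).1 ≤ n} =>
        (hle n).fl' ζ (m1 k n n.2 ζ hζ).2.2] with x b c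
      have d := fun n h => b ⟨n, h⟩ ((mi_ev f).1 c n h)
      obtain ⟨e1, e2⟩ := (hE _).eq ζ a
      refine ⟨(congrFun e1 x).le.trans (d _ le_rfl).1, ((congrFun e2 x).le.trans
        (d _ le_rfl).2.1).trans (subset_iUnion₂
          (s := fun n (_ : (u k).1 ≤ n) => (f n).O (u k).1 (u k).2 ζ x) _ le_rfl),
        disjoint_iUnion₂_right.2 fun n h => (d n h).2.2.1, Sm.of_nul (i := k) fun Z hZ =>
          Or.inr ⟨(hE _).le.supp a, Or.inl ⟨hζ, c, hZ⟩⟩⟩
  have hq : Val univ (enl f u e V) := by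
    refine ⟨enl_ok hV.ok fun k ζ h => (hm k ζ h).2.1, fun η _ => ?_⟩
    by_cases hη : η ∈ sp V
    swap
    · rw [enl_off hV.ok hη, vS_triv]
      exact univ_mem
    have g : ∀ k n, ∀ᶠ x in F (Iio η) (enl f u e V), ∀ h : (u k).1 ≤ n, η ∈ Lv f (u k).1 →
        x ∈ (md (u k).2 ((f n).O (u k).1 (u k).2)).ev (Iio η) →
        Goal (((f n).W η).L x) (((f n).W η).O x)
          (Np f (u k).1 η x ∪ Nc f (f n).O (u k).1 η x) (Hp f (u k).1 η x)
          {t | ∃ l' ∈ (f (u k).1).π, TAg (md (u k).2 ((f n).O (u k).1 (u k).2))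
            (md l' ((f n).O (u k).1 l')) η ∧ t = (l'.2 η).1} (u k).1 ((u k).2.2 η).2 :=
      fun k n => eventually_countable_forall.2 fun h => eventually_countable_forall.2 fun h' =>
        (hle n).fl' η ((hc n _ h).goal _ (u1 k) η h')
    filter_upwards [enl_le.fl' η (hV.v η trivial), eventually_countable_forall.2 fun k =>
      eventually_countable_forall.2 (g k), eventually_countable_forall.2 fun n =>
        hit he' hm (n := n) (let ⟨l, h⟩ := hn n; let ⟨k, h'⟩ := u2 n l h; ⟨k, by rw [h']⟩)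
          (isLowerSet_Iio η)] with x a1 a2 a3
    refine ⟨a1.1, a1.2.1, fun ⟨n, hn⟩ => ?_⟩
    choose ka kj hk using hK η
    obtain ⟨i0, b1⟩ := mem_iUnion.1 (hs.le hη)
    obtain ⟨k0, b2⟩ := en_ev (hv i0).ok b1
    have ev : ∀ᶠ j in atTop, n ≤ j ∧ i0 < j ∧ k0 ≤ j ∧ ∀ i ∈ Finset.range n, ka i < j ∧
        kj i < j ∧ (u i).1 < j ∧ (e i).2 ≤ j ∧ (e i).1.sup id < j :=
      (eventually_ge_atTop _).and ((eventually_gt_atTop _).and ((eventually_ge_atTop _).and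
        ((eventually_all_finset _).2 fun i _ => (eventually_gt_atTop _).and
          ((eventually_gt_atTop _).and ((eventually_gt_atTop _).and
            ((eventually_ge_atTop _).and (eventually_gt_atTop _)))))))
    obtain ⟨n', b3⟩ := eventually_atTop.1 ev
    obtain ⟨k, b4, b5⟩ := a3 n'
    obtain ⟨c1, c2, c3, c4⟩ := b3 _ b4
    have c5 : η ∈ Lv f (u k).1 := ⟨i0, c2, b2 _ c3⟩
    have c6 := fun m h => a2 k m h c5 ((mi_ev f).1 b5 m h)
    obtain ⟨e1, e2⟩ := (hE _).eq η (m1 k _ le_rfl η ((hc _ _ le_rfl).sub _ (u1 k) c5)).1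
    have c7 := c6 _ le_rfl
    rw [← e1, ← e2] at c7
    refine c7.2 (((hn _ fun j hj h => disjoint_left.1 c7.1 hj (Or.inl h)).imp ?_).mono
      subset_rfl c1 subset_rfl)
    rintro Z (h | ⟨i, hi, h⟩)
    · exact Or.inr ⟨Z, Or.inl ⟨i0, c2, Or.inl h⟩, Finset.inter_subset_left⟩
    obtain ⟨d1, d2, d3, d4, d5⟩ := c4 i (Finset.mem_range.2 hi)
    rcases h with h | ⟨-, ⟨h1, h2, h3⟩ | h⟩
    · exact Or.inr ⟨Z, Or.inl ⟨_, d1, sub_Un d2 (hk i x h)⟩, Finset.inter_subset_left⟩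
    · refine Or.inl (Finset.disjoint_left.2 fun j hj hy => ?_)
      obtain ⟨m, hm, h4⟩ := mem_iUnion₂.1 (h3 hj)
      have h5 := (mi_ev f).1 h2 m hm
      rcases lt_or_ge m (u k).1 with h6 | h6
      · exact disjoint_left.1 c7.1 hy
          (Or.inr (Or.inl ⟨m, h6, _, Nat.lt_succ_of_le hm, _, u1 i, h1, h5, h4⟩))
      · exact disjoint_left.1 (c6 m h6).1 hy (Or.inr (Or.inr ⟨_, d3, _, u1 i, h1, h5, h4⟩))
    · refine Or.inr ⟨Z, Or.inr ⟨(e i).1, fun j hj => Finset.mem_range.2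
        ((Finset.le_sup (f := id) hj).trans_lt d5), fr_fam_mono ?_ _ h⟩, Finset.inter_subset_left⟩
      rintro _ ⟨l', h1, h2, rfl⟩
      obtain ⟨k', h3⟩ := u2 _ l' h1
      refine ⟨k', ?_⟩
      rw [h3]
      exact ⟨d4, (hc _ _ le_rfl).sub _ h1 c5, (mi_ev f).2 fun m h =>
        (hc m _ h).sib _ (u1 k) _ h1 η h2 ((mi_ev f).1 b5 m h), rfl⟩
  obtain ⟨k, hk⟩ := u2 0 l hl
  have h0 := hm k
  rw [hk] at h0
  exact ⟨_, h0.val isLowerSet_univ hq, add_le.trans isLowerSet_univ (hle 0), fun n =>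
    add_mono isLowerSet_univ (hle n) rfl rfl fun ζ x =>
      subset_iUnion₂ (s := fun n (_ : 0 ≤ n) => (f n).O 0 l ζ x) n n.zero_le⟩

end Pool.Agent.MP_9590fd_lc

end

-- part MP_9590fd_lc.Core
section

/-!
The club argument.
-/

set_option autoImplicit false
set_option linter.unusedSectionVars false

namespace Pool.Agent.MP_9590fd_lc

open Set Filter MeasureTheory

variable {T : Type} [LinearOrder T] [WellFoundedLT T] {S Ω : Type} [Preorder S] [LinearOrder Ω]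

theorem core (hS : SC S) (hΩ : ∀ s : Set Ω, s.Countable → BddAbove s) (h : S → Ω)
    {X : S → Cd T → Ω → Prop}
    (hm : ∀ σ p α σ' p', X σ p α → σ' ≤ σ → Val univ p' → Le univ p' p → X σ' p' α)
    {σ : S} {W : Cd T} (hW : Val univ W)
    (hd : ∀ σ' ≤ σ, ∀ p, Val univ p → Le univ p W → ∀ β,
      ∃ σ'' ≤ σ', ∃ p', Val univ p' ∧ Le univ p' p ∧ ∃ α, β < α ∧ X σ'' p' α) :
    ∃ (s : ℕ → S) (α : ℕ → Ω) (q : Cd T), Antitone s ∧ s 0 ≤ σ ∧ StrictMono α ∧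
      (∀ n, h (s n) < α (n + 1)) ∧ Val univ q ∧ Le univ q W ∧ ∀ n, X (s n) q (α n) := by
  obtain ⟨f, h0, hf⟩ := mirror hS hΩ h hm hW hd
  obtain ⟨l, hl⟩ := (hf 0).2.2.2.2.1
  obtain ⟨q, a1, a2, a3⟩ := amalg (fun n => (hf n).1) (fun n => (hf n).2.1.2)
    (fun n => (hf n).2.2.2.2.1) (fun n => (hf n).2.2.2.2.2.2.1)
    (fun n => (hf n).2.2.2.2.2.1.countable) hl
  exact ⟨fun n => (f n).σ, fun n => (f n).α, q, antitone_nat_of_succ_le fun n => (hf n).2.1.1, h0.1,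
    strictMono_nat_of_lt_succ fun n => (hf n).2.2.1, fun n => (hf n).2.2.2.1, a1,
    a2.trans isLowerSet_univ h0.2.le,
    fun n => hm _ _ _ _ _ ((hf n).2.2.2.2.2.2.2 l hl) le_rfl a1 (a3 n)⟩

end Pool.Agent.MP_9590fd_lc

end

-- part MP_9590fd_lc.Fa
section

/-!
The generic sets are infinite and unsplit; fresh coordinates; counting conditions.
-/

set_option autoImplicit false
set_option linter.unusedSectionVars false

namespace Pool.Agent.MP_9590fd_lc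

open Set Filter MeasureTheory Cardinal

variable {T : Type} [LinearOrder T] [WellFoundedLT T] {p q r : Cd T} {ξ : T}

theorem val_triv : Val univ (fun _ => triv : Cd T) :=
  ⟨⟨countable_empty.mono fun _ h => h, fun _ _ => rfl, fun _ => ml_triv _⟩,
    fun _ _ => by rw [vS_triv]; exact univ_mem⟩

/-- Extend below `ξ`, then strengthen the coordinate `ξ`. -/
theorem upd_step (hp : Val univ p) (hq : Val (Iio ξ) q) (hle : Le (Iio ξ) q p) {d : Loc T}
    (hd : ML (Iio ξ) d) (ho : d.on) (hw : wS d (p ξ) ∈ F (Iio ξ) q) (hv : vS d ∈ F (Iio ξ) q) :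
    ∃ r, Val univ r ∧ Le univ r p ∧ ∀ᶠ x in F univ r, d.L x ⊆ x ξ ∧ Disjoint (x ξ) (d.O x) := by
  have hl := isLowerSet_Iio ξ
  have h1 : Val univ (cat (Iio ξ) q p) := cat_val hl isLowerSet_univ hq hp hle
  have h2 : F (Iio ξ) (cat (Iio ξ) q p) ≤ F (Iio ξ) q := F_mono hl cat_le_left
  have h3 : wS d (cat (Iio ξ) q p ξ) ∈ F (Iio ξ) (cat (Iio ξ) q p) := by
    rw [cat_out (A := Iio ξ) (lt_irrefl ξ)]
    exact h2 hw
  refine ⟨Function.update (cat (Iio ξ) q p) ξ d, upd_val isLowerSet_univ h1 hd ho h3 (h2 hv),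
    (upd_le ho h3).trans isLowerSet_univ (cat_le hl hle), ?_⟩
  have := F_gen (p := Function.update (cat (Iio ξ) q p) ξ d) isLowerSet_univ (mem_univ ξ)
  rwa [Function.update_self] at this

theorem grow (hp : Val univ p) (ξ : T) (k : ℕ) :
    ∃ q j, Val univ q ∧ Le univ q p ∧ k ≤ j ∧ ∀ᶠ x in F univ q, j ∈ x ξ := by
  have hl := isLowerSet_Iio ξ
  have hm := hp.ok.ml ξ
  have hv := hp.v ξ (mem_univ ξ)
  obtain ⟨j, q, h1, h2, h3⟩ := F_ex hl (t := fun j : ℕ => {x | j + k ∈ (p ξ).O x}ᶜ)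
    (fun j => (hm.O _).compl) (hp.sub (subset_univ _)) (by
      filter_upwards [hv] with x hx
      obtain ⟨j, a, b⟩ := (Sm.infinite hx.2.2).exists_gt k
      exact ⟨j - k, by rwa [mem_compl_iff, mem_ofPred_eq, Nat.sub_add_cancel b.le]⟩)
  obtain ⟨r, a, b, c⟩ := upd_step hp h1 h2
    (d := ⟨True, fun x => (p ξ).L x ∪ {j + k}, (p ξ).O, (p ξ).K⟩)
    ⟨fun i => (hm.L i).union (MeasurableSet.const _), hm.O, hm.K⟩ trivial
    (univ_mem' fun x => ⟨subset_union_left, subset_rfl, Cv.refl _⟩) (by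
      filter_upwards [F_mono hl h2 hv, h3] with x hx hj
      exact ⟨hx.1.union (finite_singleton _),
        disjoint_union_left.2 ⟨hx.2.1, disjoint_singleton_left.2 hj⟩, hx.2.2⟩)
  exact ⟨r, j + k, a, b, Nat.le_add_left _ _, c.mono fun x hx => hx.1 (Or.inr rfl)⟩

theorem split' (hp : Val univ p) {Z : Pt T → Set ℕ} (hZ : Mf (Iio ξ) Z) :
    ∃ q n, Val univ q ∧ Le univ q p ∧ ((∀ᶠ x in F univ q, ∀ k, n ≤ k → k ∈ x ξ → k ∈ Z x) ∨
      ∀ᶠ x in F univ q, ∀ k, n ≤ k → k ∈ x ξ → k ∉ Z x) := by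
  have hl := isLowerSet_Iio ξ
  have hm := hp.ok.ml ξ
  have hv := hp.v ξ (mem_univ ξ)
  let Y : Bool → Pt T → Set ℕ := fun b x => b.casesOn (Z x)ᶜ (Z x)
  have hY : ∀ b, Mf (Iio ξ) (Y b) := fun b k => by
    cases b
    exacts [(hZ k).compl, hZ k]
  obtain ⟨⟨n, b⟩, q, h1, h2, h3⟩ := F_ex hl (t := fun c : ℕ × Bool =>
      {x | (p ξ).L x ⊆ Iio c.1} ∩ {x | Sm ((p ξ).K · x) (((p ξ).O x)ᶜ ∩ Y c.2 x)}ᶜ)
    (fun c => by
      let := MS (Iio ξ)
      exact (meas_sub (N := fun _ => Iio c.1) hm.L fun _ => MeasurableSet.const _).inter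
        (meas_sm (N := fun x => ((p ξ).O x)ᶜ ∩ Y c.2 x) hm.K
          fun k => (hm.O k).compl.inter (hY c.2 k)).compl)
    (hp.sub (subset_univ _)) (by
      filter_upwards [hv] with x hx
      obtain ⟨n, hn⟩ := hx.1.bddAbove
      have h0 : (p ξ).L x ⊆ Iio (n + 1) := fun i hi => Nat.lt_succ_of_le (hn hi)
      by_contra hc
      refine hx.2.2 (((not_not.1 fun a => hc ⟨(n + 1, true), h0, a⟩).union
        (not_not.1 fun a => hc ⟨(n + 1, false), h0, a⟩)).mono fun i hi => ?_)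
      exact (em (i ∈ Z x)).imp (fun a => ⟨hi, a⟩) fun a => ⟨hi, a⟩)
  obtain ⟨r, a, c, e⟩ := upd_step hp h1 h2
    (d := ⟨True, (p ξ).L, fun x => (p ξ).O x ∪ (Y b x)ᶜ ∩ Ici n, (p ξ).K⟩)
    ⟨hm.L, fun i => (hm.O i).union ((hY b i).compl.inter (MeasurableSet.const _)), hm.K⟩ trivial
    (univ_mem' fun x => ⟨subset_rfl, subset_union_left, Cv.refl _⟩) (by
      filter_upwards [F_mono hl h2 hv, h3] with x hx hj
      refine ⟨hx.1, disjoint_union_right.2 ⟨hx.2.1, disjoint_left.2 fun i hi hi' =>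
        (mem_Iio.1 (hj.1 hi)).not_ge (mem_Ici.1 hi'.2)⟩, fun hs => hj.2 (hs.mono fun i hi hi' => ?_)⟩
      exact hi'.elim hi.1 fun a => a.1 hi.2)
  have e' : ∀ᶠ x in F univ r, ∀ k, n ≤ k → k ∈ x ξ → k ∈ Y b x := e.mono fun x hx k hk hk' =>
    not_not.1 fun h => disjoint_left.1 hx.2 hk' (Or.inr ⟨h, hk⟩)
  refine ⟨r, n, a, c, ?_⟩
  cases b
  exacts [Or.inr e', Or.inl e']

/-- Below `q` almost all of the fresh coordinates `ξ k` are still empty. -/
theorem fresh (hp : Val univ p) {ξ : ℕ → T} (hi : Function.Injective ξ) (hξ : ∀ k, ξ k ∉ sp p) :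
    ∃ q, Val univ q ∧ Le univ q p ∧ ∀ r, Le univ r q → ∃ n, ∀ k, n ≤ k →
      ∀ᶠ x in F (Iio (ξ k)) r, (r (ξ k)).L x = ∅ ∧ (r (ξ k)).O x = ∅ := by
  let e : Loc T := ⟨True, fun _ => ∅, fun _ => ∅, fun _ _ => ∅⟩
  have hs : ∀ η ∈ sp p, η ∉ range ξ := by
    rintro _ h ⟨k, rfl⟩
    exact hξ k h
  have hle : Le univ (cat (range ξ) (fun _ => e) p) p := by
    refine ⟨fun η _ h => ?_, fun η _ => ?_, finite_empty.subset fun η h => h.2.2 ?_⟩
    · show (cat (range ξ) (fun _ => e) p η).on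
      rwa [cat_out (hs η h)]
    · by_cases h : η ∈ range ξ
      · rw [hp.ok.off η fun a => hs η a h, wS_triv]
        exact univ_mem
      · rw [cat_out h, wS_self]
        exact univ_mem
    · rw [cat_out (hs η h.2.1), eS_self]
      exact univ_mem
  refine ⟨cat (range ξ) (fun _ => e) p, ⟨⟨(hp.ok.cnt.union (countable_range ξ)).mono fun η h => ?_,
    fun η h => ?_, fun η => ?_⟩, fun η _ => ?_⟩, hle, fun r hr => ?_⟩
  · refine (em (η ∈ range ξ)).symm.imp_left fun a => ?_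
    have : (cat (range ξ) (fun _ => e) p η).on := h
    rwa [cat_out a] at this
  · have h' : ¬ (cat (range ξ) (fun _ => e) p η).on := h
    by_cases a : η ∈ range ξ
    · rw [cat_in a] at h'
      exact (h' trivial).elim
    · rw [cat_out a] at h' ⊢
      exact hp.ok.off η h'
  · by_cases a : η ∈ range ξ
    · rw [cat_in a]
      exact ⟨(ml_triv _).L, (ml_triv _).O, (ml_triv _).K⟩
    · rw [cat_out a]
      exact hp.ok.ml η
  · by_cases a : η ∈ range ξ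
    · rw [cat_in a, show vS e = vS triv from rfl, vS_triv]
      exact univ_mem
    · rw [cat_out a]
      exact hle.fl' η (hp.v η (mem_univ η))
  · obtain ⟨n, hn⟩ := (hr.fin.preimage hi.injOn).bddAbove
    refine ⟨n + 1, fun k hk => ?_⟩
    have a : cat (range ξ) (fun _ => e) p (ξ k) = e := cat_in ⟨k, rfl⟩
    have : eS (r (ξ k)) (cat (range ξ) (fun _ => e) p (ξ k)) ∈ F (Iio (ξ k)) r :=
      not_not.1 fun h => (Nat.lt_of_succ_le hk).not_ge (hn ⟨mem_univ _, by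
        show (cat (range ξ) (fun _ => e) p (ξ k)).on
        rw [a]
        trivial, h⟩)
    rw [a] at this
    exact this

theorem setmin (hr : Val univ r) (h : ∀ᶠ x in F (Iio ξ) r, (r ξ).L x = ∅ ∧ (r ξ).O x = ∅)
    (j : ℕ) : ∃ q, Val univ q ∧ Le univ q r ∧ ∀ᶠ x in F univ q, j ∈ x ξ ∧ ∀ i < j, i ∉ x ξ := by
  obtain ⟨q, a, b, c⟩ := upd_step hr (hr.sub (subset_univ _)) Le.refl
    (d := ⟨True, fun _ => {j}, fun _ => Iio j, (r ξ).K⟩)
    ⟨fun _ => MeasurableSet.const _, fun _ => MeasurableSet.const _, (hr.ok.ml ξ).K⟩ trivial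
    (h.mono fun x hx => ⟨hx.1 ▸ empty_subset _, hx.2 ▸ empty_subset _, Cv.refl _⟩) (by
      filter_upwards [hr.v ξ (mem_univ ξ)] with x hx
      exact ⟨finite_singleton _, disjoint_singleton_left.2 (lt_irrefl j), fun hs => hx.2.2
        ((hs.union (Sm.of_finite (finite_Iio j))).mono fun i _ => (em (i ∈ Iio j)).symm)⟩)
  exact ⟨q, a, b, c.mono fun x hx => ⟨hx.1 rfl, fun i hi h => disjoint_left.1 hx.2 h hi⟩⟩

theorem ex_cover {I L : Type} [Nonempty I] {S : Set I} (h : #S ≤ #L) :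
    ∃ f : L → I, S ⊆ range f := by
  classical
  obtain ⟨e⟩ := h
  exact ⟨Function.extend e Subtype.val fun _ => Classical.arbitrary I, fun x hx =>
    ⟨e ⟨x, hx⟩, e.injective.extend_apply _ _ _⟩⟩

/-- Closing off under operations with countably many arguments. -/
theorem ex_closed {I : Type} [Nonempty I] {κ : Cardinal.{0}} (h0 : ℵ₀ ≤ κ) (h1 : κ ^ ℵ₀ ≤ κ)
    (Φ : (ℕ → I) → Set I) (hΦ : ∀ c, #(Φ c) ≤ κ) {A₀ : Set I} (hA : #A₀ ≤ κ) :
    ∃ A, A₀ ⊆ A ∧ #A ≤ κ ∧ ∀ c, (∀ n, c n ∈ A) → Φ c ⊆ A := by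
  induction κ using Cardinal.inductionOn with | _ L
  obtain ⟨f₀, hf₀⟩ := ex_cover hA
  choose f hf using fun c => ex_cover (hΦ c)
  let ev : WType (fun a : L × Bool => {_n : ℕ // a.2 = true}) → I := WType.elim I fun x =>
    if h : x.1.2 = true then f (fun n => x.2 ⟨n, h⟩) x.1.1 else f₀ x.1.1
  refine ⟨range ev, fun a ha => ?_, mk_range_le.trans (WType.cardinalMk_le_of_le
    ((sum_le_mk_mul_iSup _).trans (mul_le_of_le h0 ?_ (ciSup_le' fun a => ?_)))), fun c hc a ha => ?_⟩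
  · obtain ⟨l, rfl⟩ := hf₀ ha
    exact ⟨.mk (l, false) fun x => absurd x.2 (by simp), by simp [ev, WType.elim]⟩
  · rw [mk_prod, lift_id, lift_id]
    exact mul_le_of_le h0 le_rfl (mk_le_aleph0.trans h0)
  · exact (power_le_power_left (aleph0_pos.trans_le h0).ne' mk_le_aleph0).trans h1
  · obtain ⟨l, rfl⟩ := hf c ha
    choose w hw using hc
    exact ⟨.mk (l, true) fun x => w x.1, by simp [ev, WType.elim, ← funext hw]⟩

theorem cnt_ms {A : Set T} (hA : #A ≤ 𝔠) : #{s : Set (Pt T) | Ms A s} ≤ 𝔠 := by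
  refine MeasurableSpace.cardinal_measurableSet_le_continuum ?_
  have : {s : Set (Pt T) | ∃ ξ ∈ A, ∃ k, s = {x | k ∈ x ξ}} ⊆
      range fun c : A × ℕ => {x : Pt T | c.2 ∈ x c.1} := by
    rintro _ ⟨ξ, h, k, rfl⟩
    exact ⟨(⟨ξ, h⟩, k), rfl⟩
  refine (mk_le_mk_of_subset this).trans (mk_range_le.trans ?_)
  rw [mk_prod, lift_id, lift_id]
  exact mul_le_of_le aleph0_le_continuum hA (mk_le_aleph0.trans aleph0_le_continuum)

theorem mk_iUnion_le_cont {J β : Type} (hJ : #J ≤ 𝔠) {f : J → Set β} (h : ∀ j, #(f j) ≤ 𝔠) :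
    #(⋃ j, f j) ≤ 𝔠 :=
  (mk_iUnion_le f).trans (mul_le_of_le aleph0_le_continuum hJ (ciSup_le' h))

theorem cnt_cd (hT : ∀ ξ : T, #(Iio ξ) ≤ 𝔠) {a : Set T} (ha : a.Countable) :
    #{p : Cd T | OK p ∧ sp p ⊆ a} ≤ 𝔠 := by
  have := ha.to_subtype
  have hA := cnt_ms (mk_iUnion_le_cont (f := fun η : a => Iio η.1)
    (mk_le_aleph0.trans aleph0_le_continuum) fun η => hT η)
  let c : Loc T → Option (ℕ ⊕ ℕ ⊕ ℕ × Finset ℕ) → Set (Pt T) := fun d i => match i with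
    | none => {_x | d.on}
    | some (.inl k) => {x | k ∈ d.L x}
    | some (.inr (.inl k)) => {x | k ∈ d.O x}
    | some (.inr (.inr (i, Z))) => {x | Z ∈ d.K i x}
  have hc : Function.Injective c := fun d e h => by
    refine Loc.ext (propext ?_) (funext fun x => Set.ext fun k => ?_)
      (funext fun x => Set.ext fun k => ?_) (funext₂ fun i x => Set.ext fun Z => ?_)
    · exact Set.ext_iff.1 (congrFun h none) fun _ => ∅
    · exact Set.ext_iff.1 (congrFun h (some (.inl k))) x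
    · exact Set.ext_iff.1 (congrFun h (some (.inr (.inl k)))) x
    · exact Set.ext_iff.1 (congrFun h (some (.inr (.inr (i, Z))))) x
  have hm : ∀ A d i, ML A d → Ms A (c d i) := fun A d i h => match i with
    | none => MeasurableSet.const _
    | some (.inl k) => h.L k
    | some (.inr (.inl k)) => h.O k
    | some (.inr (.inr (i, Z))) => h.K i Z
  let f : {p : Cd T | OK p ∧ sp p ⊆ a} → a × Option (ℕ ⊕ ℕ ⊕ ℕ × Finset ℕ) →
      {s : Set (Pt T) | Ms (⋃ η : a, Iio η.1) s} := fun p i =>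
    ⟨c (p.1 i.1) i.2, hm _ _ _ ((p.2.1.ml i.1).mono (subset_iUnion (fun η : a => Iio η.1) i.1))⟩
  have hf : Function.Injective f := fun p q h => Subtype.ext (funext fun η => by
    by_cases hη : η ∈ a
    · exact hc (funext fun i => congrArg Subtype.val (congrFun h (⟨η, hη⟩, i)))
    · rw [p.2.1.off η fun b => hη (p.2.2 b), q.2.1.off η fun b => hη (q.2.2 b)])
  refine (mk_le_of_injective hf).trans ?_
  rw [← power_def]
  exact (power_le_power_right hA).trans ((power_le_power_left continuum_ne_zero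
    mk_le_aleph0).trans continuum_power_aleph0.le)

theorem closure' [Nonempty T] (hT : ∀ ξ : T, #(Iio ξ) ≤ 𝔠) {J : Type} (hJ : #J ≤ 𝔠)
    (G : J → Cd T → Set T) (hG : ∀ j p, (G j p).Countable) :
    ∃ B : Set T, IsLowerSet B ∧ #B ≤ 𝔠 ∧ ∀ j p, OK p → sp p ⊆ B → G j p ⊆ B := by
  obtain ⟨t⟩ := ‹Nonempty T›
  obtain ⟨B, h0, h1, h2⟩ := ex_closed aleph0_le_continuum continuum_power_aleph0.le
    (fun c : ℕ → T => Iio (c 0) ∪ ⋃ j, ⋃ p : {p : Cd T | OK p ∧ sp p ⊆ range c}, G j p.1)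
    (fun c => (mk_union_le _ _).trans (add_le_of_le aleph0_le_continuum (hT _)
      (mk_iUnion_le_cont hJ fun j => mk_iUnion_le_cont (cnt_cd hT (countable_range c)) fun p =>
        (hG j p.1).le_aleph0.trans aleph0_le_continuum)))
    (A₀ := {t}) ((countable_singleton t).le_aleph0.trans aleph0_le_continuum)
  refine ⟨B, fun b c hcb hb => ?_, h1, fun j p hp hs η hη => ?_⟩
  · rcases hcb.eq_or_lt with rfl | h
    exacts [hb, h2 (fun _ => b) (fun _ => hb) (Or.inl h)]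
  · obtain ⟨c, hc⟩ := (hp.cnt.insert t).exists_eq_range (insert_nonempty _ _)
    refine h2 c (fun n => insert_subset (h0 rfl) hs (hc ▸ mem_range_self n)) (Or.inr ?_)
    exact mem_iUnion₂.2 ⟨j, ⟨p, hp, hc ▸ subset_insert _ _⟩, hη⟩

end Pool.Agent.MP_9590fd_lc

end
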