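import Pool.Agent.MP_9590fd_lc.Stmt
import Pool.Agent.MP_1d5a21_lc.Mg.Tr
import Pool.Agent.MP_9590fd_lc.Mg.Fa

-- part MP_9590fd_lc.Iface
section

/-!
The properties of the complete Boolean algebra that are used to read off the model.
-/

set_option autoImplicit false

namespace Pool.Agent.MP_9590fd_lc

open Cardinal Set Pool.Agent.MP_1d5a21_lc

/-- `l` lists an increasing sequence cofinal in `δ`. -/
def IsLad (δ : O) (l : ℕ → O) : Prop := StrictMono l ∧ (∀ k, l k < δ) ∧ ∀ β < δ, ∃ k, β < l k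

/-- `δ` is a limit. -/
def IsLim (δ : O) : Prop := (∃ β, β < δ) ∧ ∀ β < δ, ∃ γ < δ, β < γ

structure Gd (B : Type) [CompleteBooleanAlgebra B] : Prop where
  nt : (⊤ : B) ≠ ⊥
  /-- countable subsets of `ω₁` are bounded -/
  bd : ∀ b : ℕ → O → B, (∀ k α β, α ≠ β → b k α ⊓ b k β = ⊥) → ∀ x : B, x ≠ ⊥ →
    ∃ y ≤ x, y ≠ ⊥ ∧ ∃ β, ∀ k α, β ≤ α → y ⊓ b k α = ⊥
  club : ∃ v : O → (ℕ → O) → B, (∀ δ l, v δ l ≠ ⊥ → IsLad δ l) ∧
    (∀ δ, IsLim δ → ⨆ l, v δ l = ⊤) ∧ (∀ δ l l', l ≠ l' → v δ l ⊓ v δ l' = ⊥) ∧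
    ∀ x : O → B, (⨅ β, ⨆ α, ⨆ _ : β ≤ α, x α) ≤ ⨆ δ, ⨆ l, v δ l ⊓ ⨅ k, x (l k)
  uns : ∀ a : O → ℕ → B, ∃ y : ℕ → B, inB y = ⊤ ∧
    ∀ δ, inB (fun m => y m ⊓ a δ m) ⊓ inB (fun m => y m ⊓ (a δ m)ᶜ) = ⊥
  ioe : ∀ f : O → ℕ → ℕ → B, (∀ i, IsFn (f i)) →
    ⨆ c : {c : ℕ → ℕ → B // IsFn c}, ⨅ i, inB (fun n => ⨆ m, f i n m ⊓ c.1 n m) = ⊤

end Pool.Agent.MP_9590fd_lc

end

-- part MP_9590fd_lc.Fb
section

/-!
The forcing: countable partial ladder systems times the iteration.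
-/

set_option autoImplicit false
set_option linter.unusedSectionVars false

namespace Pool.Agent.MP_9590fd_lc

open Set Filter MeasureTheory Cardinal Pool.Agent.Lib.PosetForcing Pool.Agent.MP_1d5a21_lc

/-- Countable partial ladder systems. -/
structure SS where
  s : Set (O × (ℕ → O))
  cnt : s.Countable
  fn : ∀ δ l l', (δ, l) ∈ s → (δ, l') ∈ s → l = l'
  lad : ∀ δ l, (δ, l) ∈ s → IsLad δ l

instance : Preorder SS where
  le a b := b.s ⊆ a.s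
  le_refl _ := subset_rfl
  le_trans _ _ _ h h' := Subset.trans h' h

/-- The union of a chain. -/
def SS.sup (s : ℕ → SS) (hs : Antitone s) : SS :=
  ⟨⋃ n, (s n).s, countable_iUnion fun n => (s n).cnt, fun δ l l' h h' => by
    obtain ⟨n, hn⟩ := mem_iUnion.1 h
    obtain ⟨m, hm⟩ := mem_iUnion.1 h'
    exact (s (max n m)).fn δ l l' (hs (le_max_left n m) hn) (hs (le_max_right n m) hm),
    fun δ l h => by
      obtain ⟨n, hn⟩ := mem_iUnion.1 h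
      exact (s n).lad δ l hn⟩

theorem SS.sup_le (s : ℕ → SS) (hs : Antitone s) (n : ℕ) : SS.sup s hs ≤ s n :=
  subset_iUnion (fun n => (s n).s) n

theorem sc_SS : SC SS := fun s hs => ⟨SS.sup s hs, SS.sup_le s hs⟩

theorem SS.ins (σ : SS) {δ : O} {l : ℕ → O} (hl : IsLad δ l) (hn : ∀ l', (δ, l') ∉ σ.s) :
    ∃ σ' ≤ σ, (δ, l) ∈ σ'.s := by
  refine ⟨⟨insert (δ, l) σ.s, σ.cnt.insert _, fun δ' a b ha hb => ?_, fun δ' a ha => ?_⟩,
    subset_insert _ _, mem_insert _ _⟩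
  · rcases ha with ha | ha <;> rcases hb with hb | hb
    · exact (Prod.ext_iff.1 ha).2.trans (Prod.ext_iff.1 hb).2.symm
    · obtain ⟨rfl, rfl⟩ := Prod.ext_iff.1 ha
      exact (hn b hb).elim
    · obtain ⟨rfl, rfl⟩ := Prod.ext_iff.1 hb
      exact (hn a ha).elim
    · exact σ.fn δ' a b ha hb
  · rcases ha with ha | ha
    · obtain ⟨rfl, rfl⟩ := Prod.ext_iff.1 ha
      exact hl
    · exact σ.lad δ' a ha

theorem mk_SS : #SS ≤ 𝔠 := by
  have h1 : #O ≤ 𝔠 := (mk_ord_toType _).trans_le aleph_one_le_continuum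
  have h2 : #(O × (ℕ → O)) ≤ 𝔠 := by
    rw [mk_prod, lift_id, lift_id, ← power_def, mk_nat]
    exact mul_le_of_le aleph0_le_continuum h1
      ((power_le_power_right h1).trans_eq continuum_power_aleph0)
  refine (mk_le_of_injective (f := fun σ : SS => (⟨σ.s, σ.cnt.le_aleph0⟩ :
    {t : Set (O × (ℕ → O)) // #t ≤ ℵ₀})) fun a b h => ?_).trans ((mk_bounded_set_le _ _).trans
      ((power_le_power_right (max_le h2 aleph0_le_continuum)).trans_eq continuum_power_aleph0))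
  cases a
  cases b
  obtain rfl := Subtype.ext_iff.1 h
  rfl

theorem cnt_Iio (a : O) : (Iio a).Countable := by
  rw [← le_aleph0_iff_set_countable, ← Order.lt_succ_iff, succ_aleph0]
  exact (mk_Iio_lt a (by simp only [mk_toType, ord_aleph, Ordinal.card_omega, Ordinal.type_toType])).trans_eq (mk_ord_toType _)

theorem lt_O {s : Set O} (h : s.Countable) : ∃ a, ∀ b ∈ s, b < a := by
  by_contra hn
  push Not at hn
  have h1 : (univ : Set O).Countable :=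
    (h.biUnion fun b _ => (cnt_Iio b).insert b).mono fun a _ => by
      obtain ⟨b, hb, hab⟩ := hn a
      exact mem_biUnion hb hab.eq_or_lt
  rw [← le_aleph0_iff_set_countable, mk_univ, mk_ord_toType] at h1
  exact h1.not_gt aleph0_lt_aleph_one

theorem bdd_O (s : Set O) (h : s.Countable) : BddAbove s :=
  (lt_O h).imp fun _ ha b hb => (ha b hb).le

theorem ex_lad {δ : O} (h : IsLim δ) : ∃ l, IsLad δ l := by
  obtain ⟨f, hf⟩ := (cnt_Iio δ).exists_eq_range h.1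
  have h0 : ∀ n, f n < δ := fun n => (hf.ge ⟨n, rfl⟩ : f n ∈ Iio δ)
  have : Nonempty O := ⟨δ⟩
  choose! g hg hg' using h.2
  let l : ℕ → O := fun n => Nat.rec (f 0) (fun n a => g (max a (f n))) n
  have h1 : ∀ n, l n < δ := fun n => by
    induction n with
    | zero => exact h0 0
    | succ n ih => exact hg _ (max_lt ih (h0 n))
  have h2 : ∀ n, max (l n) (f n) < l (n + 1) := fun n => hg' _ (max_lt (h1 n) (h0 n))
  refine ⟨l, strictMono_nat_of_lt_succ fun n => (le_max_left _ _).trans_lt (h2 n), h1,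
    fun β hβ => ?_⟩
  obtain ⟨n, rfl⟩ := hf.le hβ
  exact ⟨n + 1, (le_max_right _ _).trans_lt (h2 n)⟩

theorem ex_sup {l : ℕ → O} (h : StrictMono l) : ∃ δ, IsLad δ l := by
  obtain ⟨δ, h1, h2⟩ := wellFounded_lt.has_min {a | ∀ b ∈ range l, b < a}
    (lt_O (countable_range l))
  refine ⟨δ, h, fun k => h1 _ ⟨k, rfl⟩, fun β hβ => by_contra fun hn => h2 β ?_ hβ⟩
  push Not at hn
  rintro _ ⟨k, rfl⟩
  exact (h k.lt_succ_self).trans_le (hn _)

variable {T : Type} [LinearOrder T] [WellFoundedLT T]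

structure Q (T : Type) [LinearOrder T] [WellFoundedLT T] where
  σ : SS
  p : Cd T
  v : Val univ p

instance : Preorder (Q T) where
  le a b := a.σ ≤ b.σ ∧ Le univ a.p b.p
  le_refl _ := ⟨le_rfl, Le.refl⟩
  le_trans _ _ _ h h' := ⟨h.1.trans h'.1, h.2.trans isLowerSet_univ h'.2⟩

/-- `(σ, p)` forces `b`. -/
def fo (σ : SS) (p : Cd T) (b : RO (Q T)) : Prop := ∃ h : Val univ p, io (⟨σ, p, h⟩ : Q T) ≤ b

theorem fo.mono {σ σ' : SS} {p p' : Cd T} {b : RO (Q T)} (h : fo σ p b) (h1 : σ' ≤ σ)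
    (h2 : Val univ p') (h3 : Le univ p' p) : fo σ' p' b :=
  ⟨h2, (io_mono (show (⟨σ', p', h2⟩ : Q T) ≤ ⟨σ, p, h.1⟩ from ⟨h1, h3⟩)).trans h.2⟩

theorem le_of_io {P : Type} [Preorder P] {b c : RO P}
    (h : ∀ q, io q ≤ b → ∃ r ≤ q, io r ≤ c) : b ≤ c := by
  by_contra hn
  obtain ⟨q, hq⟩ := exists_io_le (b := b ⊓ cᶜ) fun e =>
    hn (disjoint_compl_right_iff.1 (disjoint_iff.2 e))
  obtain ⟨r, h1, h2⟩ := h q (hq.trans inf_le_left)
  exact io_ne_bot r (le_bot_iff.1 ((le_inf h2 ((io_mono h1).trans (hq.trans inf_le_right))).trans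
    inf_compl_eq_bot.le))

theorem ex_of_le_iSup {P ι : Type} [Preorder P] {q : P} {b : ι → RO P} (h : io q ≤ ⨆ i, b i) :
    ∃ r ≤ q, ∃ i, io r ≤ b i := by
  by_contra hn
  refine io_ne_bot q (le_bot_iff.1 ?_)
  rw [← inf_eq_left.2 h, inf_iSup_eq]
  refine iSup_le fun i => le_of_eq (by_contra fun e => ?_)
  obtain ⟨r, h1, h2⟩ := exists_le_of_inf e
  exact hn ⟨r, h1, i, h2⟩

theorem io_le_gen {P : Type} [Preorder P] {A : P → Prop} {p : P} (h : A p) : io p ≤ gen A := by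
  unfold gen
  exact le_iSup (fun p : {p // A p} => io p.1) ⟨p, h⟩

theorem of_le_gen {P : Type} [Preorder P] {A : P → Prop} {q : P} (h : io q ≤ gen A) :
    ∃ p r, A p ∧ r ≤ p ∧ r ≤ q := by
  obtain ⟨U, hU⟩ := exists_ult q
  exact gen_one (U.mono h hU) hU

theorem not_io_both {P : Type} [Preorder P] {q : P} {b : RO P} (h : io q ≤ b) (h' : io q ≤ bᶜ) :
    False := io_ne_bot q (le_bot_iff.1 ((le_inf h h').trans inf_compl_eq_bot.le))

/-- The Boolean value of a set of points. -/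
noncomputable def bS (s : Set (Pt T)) : RO (Q T) := gen fun c => s ∈ F univ c.p

theorem io_le_bS {c : Q T} {s : Set (Pt T)} : io c ≤ bS s ↔ s ∈ F univ c.p := by
  refine ⟨fun h => F_reg isLowerSet_univ fun q hq hle => ?_, fun h => io_le_gen h⟩
  obtain ⟨p, r, h1, h2, h3⟩ :=
    of_le_gen ((io_mono (show (⟨c.σ, q, hq⟩ : Q T) ≤ c from ⟨le_rfl, hle⟩)).trans h)
  exact ⟨r.p, r.v, h3.2, F_mono isLowerSet_univ h2.2 h1⟩

theorem io_le_bS_compl {c : Q T} {s : Set (Pt T)} (hs : Ms univ s) :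
    io c ≤ (bS s)ᶜ ↔ sᶜ ∈ F univ c.p := by
  refine ⟨fun h => F_reg isLowerSet_univ fun q hq hle => ?_, fun h => ?_⟩
  · obtain ⟨r, h1, h2, h3⟩ := F_dec isLowerSet_univ hs hq
    exact ⟨r, h1, h2, h3.resolve_left fun h4 => not_io_both (q := (⟨c.σ, r, h1⟩ : Q T))
      (io_le_bS.2 h4) ((io_mono (show (⟨c.σ, r, h1⟩ : Q T) ≤ c from
        ⟨le_rfl, h2.trans isLowerSet_univ hle⟩)).trans h)⟩
  · rw [le_compl_iff_disjoint_right, disjoint_iff]
    by_contra hn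
    obtain ⟨r, h1, h2⟩ := exists_le_of_inf hn
    have := F_neBot r.v
    obtain ⟨x, h3, h4⟩ :=
      Filter.nonempty_of_mem (inter_mem (io_le_bS.1 h2) (F_mono isLowerSet_univ h1.2 h))
    exact h4 h3

theorem gd_nt : (⊤ : RO (Q T)) ≠ ⊥ := fun h =>
  io_ne_bot (⟨⟨∅, countable_empty, fun _ _ _ h => h.elim, fun _ _ h => h.elim⟩, _, val_triv⟩ : Q T)
    (le_bot_iff.1 (le_top.trans h.le))

theorem gd_bd (b : ℕ → O → RO (Q T)) (hb : ∀ k α β, α ≠ β → b k α ⊓ b k β = ⊥) (x : RO (Q T))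
    (hx : x ≠ ⊥) : ∃ y ≤ x, y ≠ ⊥ ∧ ∃ β, ∀ k α, β ≤ α → y ⊓ b k α = ⊥ := by
  obtain ⟨c, hc⟩ := exists_io_le hx
  obtain ⟨σ, h1, V, hV, h2, e, g, h3, h4, h5⟩ := name sc_SS
    (fun k (i : O) σ (ρ : Cd T) => ∀ α, α ≠ i → fo σ ρ (b k α)ᶜ) (fun k σ r hr => by
      by_cases h : ∃ α, io (⟨σ, r, hr⟩ : Q T) ⊓ b k α ≠ ⊥
      · obtain ⟨α, h⟩ := h
        obtain ⟨r', h1, h2⟩ := exists_le_of_inf h
        exact ⟨r'.σ, h1.1, r'.p, r'.v, h1.2, α, fun α' hα => ⟨r'.v, h2.trans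
          (le_compl_iff_disjoint_right.2 (disjoint_iff.2 (hb k α α' hα.symm)))⟩⟩
      · push Not at h
        obtain ⟨i, -⟩ := lt_O countable_empty
        exact ⟨σ, le_rfl, r, hr, Le.refl, i, fun α _ =>
          ⟨hr, le_compl_iff_disjoint_right.2 (disjoint_iff.2 (h α))⟩⟩)
    (fun k i σ ρ σ' ρ' h h1 h2 h3 α hα => (h α hα).mono h1 h2 h3) c.σ c.v
  obtain ⟨β, hβ⟩ := lt_O (countable_range fun n : ℕ × ℕ => g n.1 n.2)
  refine ⟨io (⟨σ, V, hV⟩ : Q T), (io_mono (show (⟨σ, V, hV⟩ : Q T) ≤ c from ⟨h1, h2⟩)).trans hc,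
    io_ne_bot _, β, fun k α hα => by_contra fun hn => ?_⟩
  obtain ⟨r, h6, h7⟩ := exists_le_of_inf hn
  obtain ⟨d, q, h8, h9, h10⟩ := F_ex isLowerSet_univ (h3 univ isLowerSet_univ (subset_univ _) k)
    r.v (F_mono isLowerSet_univ h6.2 (h4 k))
  obtain ⟨r', h11, h12, h13⟩ := h5 k d q h8 (h9.trans isLowerSet_univ h6.2) h10
  exact not_io_both ((io_mono (show (⟨r.σ, r', h11⟩ : Q T) ≤ r from
    ⟨le_rfl, h12.trans isLowerSet_univ h9⟩)).trans h7)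
    ((h13 α ((hβ _ ⟨(k, d), rfl⟩).trans_le hα).ne').mono h6.1 h11 Le.refl).2

theorem gd_club : ∃ v : O → (ℕ → O) → RO (Q T), (∀ δ l, v δ l ≠ ⊥ → IsLad δ l) ∧
    (∀ δ, IsLim δ → ⨆ l, v δ l = ⊤) ∧ (∀ δ l l', l ≠ l' → v δ l ⊓ v δ l' = ⊥) ∧
    ∀ x : O → RO (Q T), (⨅ β, ⨆ α, ⨆ _ : β ≤ α, x α) ≤ ⨆ δ, ⨆ l, v δ l ⊓ ⨅ k, x (l k) := by
  refine ⟨fun δ l => gen fun c => (δ, l) ∈ c.σ.s, fun δ l h => ?_, fun δ hδ => ?_,
    fun δ l l' h => by_contra fun hn => ?_, fun x => le_of_io fun c hc => ?_⟩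
  · obtain ⟨q, hq⟩ := exists_io_le h
    obtain ⟨p, -, h1, -⟩ := of_le_gen hq
    exact p.σ.lad δ l h1
  · refine top_le_iff.1 (le_of_io fun c _ => ?_)
    by_cases h : ∃ l, (δ, l) ∈ c.σ.s
    · obtain ⟨l, h⟩ := h
      exact ⟨c, le_rfl, le_iSup_of_le l (io_le_gen h)⟩
    · obtain ⟨l, hl⟩ := ex_lad hδ
      obtain ⟨σ, h1, h2⟩ := c.σ.ins hl (not_exists.1 h)
      exact ⟨⟨σ, c.p, c.v⟩, ⟨h1, Le.refl⟩, le_iSup_of_le l (io_le_gen h2)⟩
  · obtain ⟨q, hq⟩ := exists_io_le hn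
    obtain ⟨p, r, h1, h2, h3⟩ := of_le_gen (hq.trans inf_le_left)
    obtain ⟨p', r', h4, h5, h6⟩ := of_le_gen ((io_mono h3).trans (hq.trans inf_le_right))
    exact h (r'.σ.fn δ l l' (h6.1 (h2.1 h1)) (h5.1 h4))
  · choose h hh using fun σ : SS => lt_O (σ.cnt.image Prod.fst)
    obtain ⟨s, α, q, h1, h2, h3, h4, h5, h6, h7⟩ := core sc_SS bdd_O h
      (X := fun σ p α => fo σ p (x α)) (fun σ p α σ' p' a b d e => a.mono b d e) (σ := c.σ) c.v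
      fun σ hσ p hp hle β => by
        obtain ⟨γ, hγ⟩ := lt_O (countable_singleton β)
        obtain ⟨r, h1, α, h2⟩ := ex_of_le_iSup ((io_mono (show (⟨σ, p, hp⟩ : Q T) ≤ c from
          ⟨hσ, hle⟩)).trans (hc.trans (iInf_le _ γ)))
        obtain ⟨r', h3, h4, h5⟩ := ex_of_le_iSup (ι := PLift (γ ≤ α)) (b := fun _ => x α)
          (h2.trans (iSup_le fun a => le_iSup (fun _ : PLift (γ ≤ α) => x α) ⟨a⟩))
        exact ⟨r'.σ, (h3.trans h1).1, r'.p, r'.v, (h3.trans h1).2, α,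
          (hγ β rfl).trans_le h4.down, r'.v, h5⟩
    obtain ⟨δ, hδ⟩ := ex_sup h3
    obtain ⟨σ, h8, h9⟩ := (SS.sup s h1).ins hδ fun l hl => by
      obtain ⟨n, hn⟩ := mem_iUnion.1 hl
      exact lt_irrefl δ ((hh (s n) δ ⟨_, hn, rfl⟩).trans ((h4 n).trans (hδ.2.1 _)))
    exact ⟨⟨σ, q, h5⟩, ⟨h8.trans ((SS.sup_le s h1 0).trans h2), h6⟩,
      le_iSup_of_le δ (le_iSup_of_le α (le_inf (io_le_gen h9) (le_iInf fun k =>
        ((h7 k).mono (h8.trans (SS.sup_le s h1 k)) h5 Le.refl).2)))⟩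

end Pool.Agent.MP_9590fd_lc

end

-- part MP_9590fd_lc.Tr
section

/-!
From the Boolean algebra to the model.
-/

set_option autoImplicit false

namespace Pool.Agent.MP_9590fd_lc

open Pool.Agent.Lib.Forcing Pool.Agent.Lib.PosetForcing Cardinal Set Pool.Agent.MP_1d5a21_lc

variable {B : Type} [CompleteBooleanAlgebra B]

/-- An unbounded subset of `ω₁` is uncountable. -/
theorem Gd.unc (hB : Gd B) (U : Ult B) :
    ¬ Leq U.E (U.cl (setN (univ : Set O))) U.om := by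
  rintro ⟨f, hf⟩
  obtain ⟨f, rfl⟩ := U.cl_surj f
  let H : Ult B → Prop := fun V => Inj V (V.cl (setN (univ : Set O))) V.om (V.cl f)
  obtain ⟨y, h1, h2, β, h3⟩ := hB.bd
    (fun k α => bv fun V => H V ∧ Ap V.E (V.cl f) (V.cl (oN α)) (V.num k))
    (fun k α β hne => eq_bot_of fun V hV => by
      rw [V.inf, bv_iff, bv_iff] at hV
      exact hne ((oN_inj V).1 ((hV.1.1.2 _ _ _ _ hV.1.2 hV.2.2).2 rfl))) (bv H)
    (bv_ne_bot H hf)
  obtain ⟨X, hy⟩ := Ult.exists_mem h2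
  have hH : ∀ W : Ult B, W.P y → H W := fun W hW => (bv_iff H W).1 (W.mono h1 hW)
  obtain ⟨z, hz, h4⟩ := (hH X hy).1 _ (setN_intro X (mem_univ β))
  refine om_elim (fun V z => V.P y → ¬ Ap V.E (V.cl f) (V.cl (oN β)) z) (fun Y k h5 h6 => ?_)
    X z hz hy h4
  exact Y.bot (h3 k β le_rfl ▸ (Y.inf _ _).2 ⟨h5, (bv_iff _ Y).2 ⟨hH Y h5, h6⟩⟩)

theorem oN_le_om (a : O) (V : Ult B) : Leq V.E (V.cl (oN a)) V.om := by
  have : Countable (Iio a) := by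
    rw [← mk_le_aleph0_iff, ← Order.lt_succ_iff, succ_aleph0]
    exact (mk_Iio_lt a (by simp only [mk_toType, ord_aleph, Ordinal.card_omega, Ordinal.type_toType])).trans_eq (mk_ord_toType _)
  obtain ⟨g, hg⟩ := exists_injective_nat (Iio a)
  rw [oN_eq]
  exact le_chk (fun b : Iio a => oN b.1) (fun b => numN (g b)) omN (fun W i => W.num_mem_om _)
    (fun W s t => by rw [oN_inj, W.num_inj, hg.eq_iff, Subtype.ext_iff]) V

theorem Gd.om1 (hB : Gd B) (U : Ult B) : Om1 U.E U.om (U.cl (setN (univ : Set O))) :=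
  ⟨fun a ha z hz => setN_trans isLowerSet_univ U z a hz ha, setN_tri univ U, hB.unc U,
    setN_elim univ (fun V a => Leq V.E a V.om) (fun V a _ => oN_le_om a V) U⟩

theorem Gd.not_split (hB : Gd B) (U : Ult B) (F : U.M) (hF : Spl U.E U.om F) :
    ¬ Leq U.E F (U.cl (setN (univ : Set O))) := by
  rintro ⟨f, hf⟩
  obtain ⟨f, rfl⟩ := U.cl_surj f
  obtain ⟨F, rfl⟩ := U.cl_surj F
  obtain ⟨y, h1, h2⟩ := hB.uns fun k m =>
    bv fun V : Ult B => ∃ S, Ap V.E (V.cl f) S (V.cl (oN k)) ∧ V.E (V.num m) S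
  obtain ⟨S, hS, h3, h4⟩ := hF.2 _ (sub_subN y U)
    ((inf_iff' (fun V m => V.E m (V.cl (subN y))) y (fun V m => (num_mem_subN y V m).symm) U).1
      (h1 ▸ U.top))
  obtain ⟨z, hz, h5⟩ := hf.1 S hS
  obtain ⟨S, rfl⟩ := U.cl_surj S
  refine setN_elim univ (fun V z => Inj V (V.cl F) (V.cl (setN (univ : Set O))) (V.cl f) →
    Ap V.E (V.cl f) (V.cl S) z →
    Inf V.E V.om (fun m => V.E m (V.cl (subN y)) ∧ V.E m (V.cl S)) →
    ¬ Inf V.E V.om (fun m => V.E m (V.cl (subN y)) ∧ ¬ V.E m (V.cl S)))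
    (fun V k _ h6 h7 h8 h9 => ?_) U z hz hf h5 h3 h4
  let H : Ult B → Prop := fun V => Inj V (V.cl F) (V.cl (setN (univ : Set O))) (V.cl f) ∧
    Ap V.E (V.cl f) (V.cl S) (V.cl (oN k))
  have key : ∀ (W : Ult B) m, H W → ((∃ S, Ap W.E (W.cl f) S (W.cl (oN k)) ∧ W.E (W.num m) S) ↔
      W.E (W.num m) (W.cl S)) := fun W m hW =>
    ⟨fun ⟨T, a, b⟩ => by rwa [(hW.1.2 _ _ _ _ hW.2 a).2 rfl], fun h => ⟨_, hW.2, h⟩⟩
  exact V.bot (h2 k ▸ (V.inf _ _).2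
    ⟨(inf_iff H (fun V m => V.E m (V.cl (subN y)) ∧ V.E m (V.cl S)) _
      (fun W m hW => by rw [W.inf, bv_iff, key W m hW, num_mem_subN]) V ⟨h6, h7⟩).2 h8,
    (inf_iff H (fun V m => V.E m (V.cl (subN y)) ∧ ¬ V.E m (V.cl S)) _
      (fun W m hW => by rw [W.inf, W.compl, bv_iff, key W m hW, num_mem_subN]) V ⟨h6, h7⟩).2 h9⟩)

theorem Gd.ioe' (hB : Gd B) (U : Ult B) : Ioe U.E U.om (U.cl (setN (univ : Set O))) := by
  intro G hG
  obtain ⟨G, rfl⟩ := U.cl_surj G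
  let A : ↥(univ : Set O) → Nm B := fun b => oN b.1
  obtain ⟨f, h1, h2⟩ := exists_isFn A G
  have h0 := hB.ioe (fun i => f ⟨i, mem_univ i⟩) fun i => h1 _
  refine sup_elim _ (fun V => Fn V.E (V.cl (lst A)) (fun _ f => Fun V.E V.om f) (V.cl G) →
    ∃ c, Fun V.E V.om c ∧ ∀ k f, Ap V.E (V.cl G) k f →
      Inf V.E V.om (fun n => ∃ m, Ap V.E f n m ∧ Ap V.E c n m)) (fun U d h4 hG => ?_) U
    (h0 ▸ U.top) hG
  obtain ⟨d, h3⟩ := d
  refine ⟨_, fun_funN h3 U, fun k g hg => ?_⟩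
  obtain ⟨g, rfl⟩ := U.cl_surj g
  refine lst_elim A (fun V k =>
    V.P (⨅ i, inB fun n => ⨆ m, f ⟨i, mem_univ i⟩ n m ⊓ d n m) →
    Fn V.E (V.cl (lst A)) (fun _ f => Fun V.E V.om f) (V.cl G) →
    Ap V.E (V.cl G) k (V.cl g) → Inf V.E V.om (fun n => ∃ m, Ap V.E (V.cl g) n m ∧
      Ap V.E (V.cl (funN d)) n m)) (fun V i h4 h5 h6 => ?_) U k (hG.dom U.zfc hg) h4 hG hg
  let H : Ult B → Prop := fun V => Fn V.E (V.cl (lst A)) (fun _ f => Fun V.E V.om f) (V.cl G) ∧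
    Ap V.E (V.cl G) (V.cl (A i)) (V.cl g)
  let P : ∀ V : Ult B, V.M → Prop := fun V n => ∃ m, Ap V.E (V.cl g) n m ∧
    Ap V.E (V.cl (funN d)) n m
  refine (inf_iff' P (fun n => bv fun V => P V (V.num n)) (fun W n => bv_iff _ W) V).1
    (V.mono (inB_mono (c := bv H) 0 fun n _ => ?_)
      ((V.inf _ _).2 ⟨(bv_iff H V).2 ⟨h5, h6⟩, V.mono (iInf_le _ i.1) h4⟩))
  rw [inf_iSup_eq]
  refine iSup_le fun m => Ult.le_of fun W hW => ?_
  rw [W.inf, W.inf, bv_iff] at hW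
  exact (bv_iff _ W).2 ⟨_, (h2 W i n m _ hW.1.1 hW.1.2).1 hW.2.1, (ap_funN d W n m).2 hW.2.2⟩

instance rep_lim (d : Nm B) : Rep (fun U : Ult B => Lim U.E (U.cl d)) := by
  unfold Lim; infer_instance

instance rep_lad (d A : Nm B) : Rep (fun U : Ult B => Lad U.E U.om (U.cl d) (U.cl A)) := by
  unfold Lad; infer_instance

theorem lim_iff (U : Ult B) (δ : O) : Lim U.E (U.cl (oN δ)) ↔ IsLim δ := by
  constructor
  · rintro ⟨⟨a, ha⟩, h⟩
    refine ⟨oN_elim δ (fun _ _ => ∃ β, β < δ) (fun _ β hβ => ⟨β, hβ⟩) U a ha, fun β hβ => ?_⟩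
    obtain ⟨b, h1, h2⟩ := h _ (oN_intro U hβ)
    exact oN_elim δ (fun V b => V.E (V.cl (oN β)) b → ∃ γ < δ, β < γ)
      (fun V γ hγ h3 => ⟨γ, hγ, (oN_lt V).1 h3⟩) U b h1 h2
  · rintro ⟨⟨β, hβ⟩, h⟩
    refine ⟨⟨_, oN_intro U hβ⟩, oN_elim δ (fun V a => ∃ b, V.E b (V.cl (oN δ)) ∧ V.E a b)
      (fun V a ha => ?_) U⟩
    obtain ⟨γ, h1, h2⟩ := h a ha
    exact ⟨_, oN_intro V h1, oN_intro V h2⟩

theorem IsLad.lim {δ : O} {l : ℕ → O} (h : IsLad δ l) : IsLim δ :=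
  ⟨⟨_, h.2.1 0⟩, fun β hβ => (h.2.2 β hβ).elim fun k hk => ⟨_, h.2.1 k, hk⟩⟩

theorem IsLad.lad {δ : O} {l : ℕ → O} (h : IsLad δ l) (U : Ult B) :
    Lad U.E U.om (U.cl (oN δ)) (U.cl (setN (range l))) := by
  refine ⟨setN_elim _ (fun V z => V.E z (V.cl (oN δ))) (fun V a ha => ?_) U,
    oN_elim δ (fun V a => ∃ b, V.E b (V.cl (setN (range l))) ∧ V.E a b) (fun V a ha => ?_) U,
    U.cl (seqO l), fn_seqO l (fun V _ y => V.E y (V.cl (setN (range l))))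
      (fun V n => setN_intro V (mem_range_self n)) U,
    setN_elim _ (fun V y => ∃ n, Ap V.E (V.cl (seqO l)) n y) (fun V a ha => ?_) U,
    fun n m x y hn hx hy => ?_⟩
  · obtain ⟨k, rfl⟩ := ha
    exact oN_intro V (h.2.1 k)
  · obtain ⟨k, hk⟩ := h.2.2 a ha
    exact ⟨_, setN_intro V (mem_range_self k), oN_intro V hk⟩
  · obtain ⟨k, rfl⟩ := ha
    exact ⟨_, (ap_seqO V l k _).2 rfl⟩
  · refine ap_elim numN (fun n => oN (l n)) _ (fun V n x => ∀ m y, V.E n m →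
      Ap V.E (V.cl (seqO l)) m y → V.E x y) (fun V n _ m y hn hy => ?_) U n x hx m y hn hy
    exact ap_elim numN (fun n => oN (l n)) _ (fun V m y => V.E (V.num n) m →
      V.E (V.cl (oN (l n))) y) (fun W m _ hn => oN_intro W (h.1 (W.num_mem_num.1 hn))) V m y hy hn

theorem Gd.club' (hB : Gd B) (U : Ult B) : Club U.E U.om (U.cl (setN (univ : Set O))) := by
  obtain ⟨v, h1, h2, h3, h4⟩ := hB.club
  let X : O × (ℕ → O) → Nm B := fun s => oN s.1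
  let Y : O × (ℕ → O) → Nm B := fun s => setN (range s.2)
  let w : O × (ℕ → O) → B := fun s => v s.1 s.2
  have hl : ∀ (V : Ult B) δ l, V.P (v δ l) → IsLad δ l := fun V δ l h =>
    h1 δ l fun e => V.bot (e ▸ h)
  refine ⟨U.cl (setN {δ : O | IsLim δ}), U.cl (grN X Y w), fun d => ⟨fun hd => ?_, fun hd => ?_⟩,
    fn_gen (fun b : {δ : O | IsLim δ} => oN b.1) X Y w (fun V d A => Lad V.E V.om d A)
      (fun V s hs => ⟨setN_intro V (X := {δ : O | IsLim δ}) (hl V _ _ hs).lim,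
        (hl V _ _ hs).lad V⟩) (fun V i => ?_) (fun V s t hs ht e => ?_) U, fun Z hZ hZ' => ?_⟩
  · exact setN_elim _ (fun V d => V.E d (V.cl (setN (univ : Set O))) ∧ Lim V.E d)
      (fun V a ha => ⟨setN_intro V (mem_univ a), (lim_iff V a).2 ha⟩) U d hd
  · exact setN_elim univ (fun V d => Lim V.E d → V.E d (V.cl (setN {δ : O | IsLim δ})))
      (fun V a _ ha => setN_intro V (X := {δ : O | IsLim δ}) ((lim_iff V a).1 ha)) U d hd.1 hd.2
  · exact sup_elim (v i.1) (fun V => ∃ y, Ap V.E (V.cl (grN X Y w)) (V.cl (oN i.1)) y)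
      (fun W l h => ⟨_, W.ap_grN X Y w (i.1, l) h⟩) V (h2 i.1 i.2 ▸ V.top)
  · by_contra hne
    have e1 : s.1 = t.1 := (oN_inj V).1 e
    have e2 : s.2 ≠ t.2 := fun h => hne (by simp only [Y, h])
    simp only [w, e1] at hs ht
    exact V.bot (h3 _ _ _ e2 ▸ (V.inf _ _).2 ⟨hs, ht⟩)
  · obtain ⟨Z, rfl⟩ := U.cl_surj Z
    let x : O → B := fun α => Nm.mem (oN α) Z
    have h5 : U.P (⨅ β, ⨆ α, ⨆ _ : β ≤ α, x α) := by
      refine inf_intro _ (fun V => Sub V.E (V.cl Z) (V.cl (setN (univ : Set O))) ∧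
        ¬ Leq V.E (V.cl Z) V.om) (fun V β hV => ?_) U ⟨hZ, hZ'⟩
      by_contra hc
      obtain ⟨f, hf⟩ := oN_le_om β V
      refine hV.2 ⟨f, fun z hz => hf.1 z ?_, hf.2⟩
      refine setN_elim univ (fun W z => ¬ W.P (⨆ α, ⨆ _ : β ≤ α, x α) → W.E z (W.cl Z) →
        W.E z (W.cl (oN β))) (fun W a _ h6 h7 => oN_intro W (not_le.1 fun h8 => h6 ?_))
        V z (hV.1 z hz) hc hz
      exact W.mono (le_iSup₂_of_le a h8 le_rfl) h7
    refine sup_elim _ (fun V => ∃ d A, Ap V.E (V.cl (grN X Y w)) d A ∧ Sub V.E A (V.cl Z))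
      (fun V δ h6 => ?_) U (U.mono (h4 x) h5)
    refine sup_elim _ (fun V => ∃ d A, Ap V.E (V.cl (grN X Y w)) d A ∧ Sub V.E A (V.cl Z))
      (fun W l h7 => ?_) V h6
    rw [W.inf] at h7
    refine ⟨_, _, W.ap_grN X Y w (δ, l) h7.1, fun z hz => ?_⟩
    refine setN_elim (range l) (fun V z => V.P (⨅ k, x (l k)) → V.E z (V.cl Z))
      (fun V a ha h8 => ?_) W z hz h7.2
    obtain ⟨k, rfl⟩ := ha
    exact V.mono (iInf_le _ k) h8

theorem model_of (h : ∃ (B : Type) (_ : CompleteBooleanAlgebra B), Gd B) :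
    ∃ (M : Type 1) (E : M → M → Prop), ZFC E ∧ ∃ w v, Om E w ∧ Om1 E w v ∧ Club E w v ∧
      (∀ F, Spl E w F → ¬ Leq E F v) ∧ Ioe E w v := by
  obtain ⟨B, _, hB⟩ := h
  obtain ⟨U, -⟩ := Ult.exists_mem hB.nt
  exact ⟨U.M, U.E, U.zfc, U.om, _, U.om_om, hB.om1 U, hB.club' U, hB.not_split U, hB.ioe' U⟩

end Pool.Agent.MP_9590fd_lc

end

-- part MP_9590fd_lc.Fc
section

/-!
Unsplit sets and infinitely often equal functions.
-/

set_option autoImplicit false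
set_option linter.unusedSectionVars false

namespace Pool.Agent.MP_9590fd_lc

open Set Filter MeasureTheory Cardinal Pool.Agent.Lib.PosetForcing Pool.Agent.MP_1d5a21_lc

variable {T : Type} [LinearOrder T] [WellFoundedLT T]

theorem fc_common {P : Type} [Preorder P] {p q : P} (h : io p ≤ io q) : ∃ r, r ≤ p ∧ r ≤ q := by
  obtain ⟨U, hU⟩ := exists_ult p
  exact exists_common hU (U.mono h hU)

theorem fc_inB {P : Type} [Preorder P] {q : P} {y : ℕ → RO P} (h : io q ≤ inB y) (n : ℕ) :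
    ∃ r ≤ q, ∃ m, n ≤ m ∧ io r ≤ y m := by
  obtain ⟨r, h1, m, h2⟩ := ex_of_le_iSup (h.trans (inB_le y n))
  by_cases hm : n ≤ m
  · exact ⟨r, h1, m, hm, by rwa [iSup_pos hm] at h2⟩
  · rw [iSup_neg hm] at h2
    exact (io_ne_bot r (le_bot_iff.1 h2)).elim

theorem fc_read {e : ℕ → Set (Pt T)} (he : ∀ d, Ms univ (e d)) {P : ℕ → Prop} {r : Q T}
    (h : ∀ᶠ x in F univ r.p, ∃ d, P d ∧ x ∈ e d) : ∃ r' ≤ r, ∃ d, P d ∧ io r' ≤ bS (e d) := by
  obtain ⟨d, q, h1, h2, h3⟩ := F_ex isLowerSet_univ (t := fun d : {d // P d} => e d.1)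
    (fun d => he d.1) r.v (h.mono fun x ⟨d, a, b⟩ => ⟨⟨d, a⟩, b⟩)
  exact ⟨⟨r.σ, q, h1⟩, ⟨le_rfl, h2⟩, d.1, d.2, io_le_bS.2 h3⟩

/-- `ℵ₁` many names of sequences are, densely, read off the coordinates in a small lower set. -/
theorem refl_name [Nonempty T] (hT : ∀ ξ : T, #(Iio ξ) ≤ 𝔠) {I : Type}
    (b : O → ℕ → I → RO (Q T)) (hb : ∀ δ k, ⨆ i, b δ k i = ⊤) :
    ∃ B : Set T, IsLowerSet B ∧ #B ≤ 𝔠 ∧ ∀ (δ : O) (c : Q T), ∃ c' ≤ c,
      ∃ (e : ℕ → ℕ → Set (Pt T)) (g : ℕ → ℕ → I), (∀ k d, Ms B (e k d)) ∧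
        (∀ k, ∀ᶠ x in F univ c'.p, ∃ d, x ∈ e k d) ∧
        ∀ k d, io c' ⊓ bS (e k d) ≤ b δ k (g k d) := by
  classical
  have key : ∀ (j : O × SS) (p : Cd T), Val univ p → _ := fun j p hp =>
    name sc_SS (fun k i σ ρ => fo σ ρ (b j.1 k i)) (fun k σ r hr => by
      obtain ⟨c, h1, i, h2⟩ := ex_of_le_iSup (q := (⟨σ, r, hr⟩ : Q T)) (b := b j.1 k)
        (hb j.1 k ▸ le_top)
      exact ⟨c.σ, h1.1, c.p, c.v, h1.2, i, c.v, h2⟩)
      (fun k i σ ρ σ' ρ' h h1 h2 h3 => h.mono h1 h2 h3) j.2 hp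
  choose σ' hσ V hV hle e g h1 h2 h3 using key
  have hJ : #(O × SS) ≤ 𝔠 := by
    rw [mk_prod, lift_id, lift_id, mk_ord_toType]
    exact mul_le_of_le aleph0_le_continuum aleph_one_le_continuum mk_SS
  obtain ⟨B, hB, hc, hcl⟩ := closure' hT hJ
    (fun j p => if h : Val univ p then sp (V j p h) else ∅) fun j p => by
      split_ifs with h
      exacts [(hV j p h).ok.cnt, countable_empty]
  refine ⟨B, hB, hc, fun δ c => ?_⟩
  have a1 : Le B c.p fun _ => triv :=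
    ⟨fun _ _ h => h.elim, fun η _ => by rw [wS_triv]; exact univ_mem,
      finite_empty.subset fun _ h => h.2.1.elim⟩
  have a2 : Val univ (cat B c.p fun _ => triv) :=
    cat_val hB isLowerSet_univ (c.v.sub (subset_univ _)) val_triv a1
  have a3 : sp (V (δ, c.σ) _ a2) ⊆ B := by
    have := hcl (δ, c.σ) _ a2.ok fun η hη => by
      by_contra h
      rw [sp, mem_ofPred, cat_out h] at hη
      exact hη
    rwa [dif_pos a2] at this
  have a4 : Le B (V (δ, c.σ) _ a2) c.p :=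
    ((hle (δ, c.σ) _ a2).sub (subset_univ _)).trans hB cat_le_left
  have a5 : Val univ (cat B (V (δ, c.σ) _ a2) c.p) :=
    cat_val hB isLowerSet_univ ((hV _ _ a2).sub (subset_univ _)) c.v a4
  have a6 : Le univ (cat B (V (δ, c.σ) _ a2) c.p) (V (δ, c.σ) _ a2) := by
    refine ⟨fun η _ h => ?_, fun η _ => ?_, finite_empty.subset fun η h => h.2.2 ?_⟩
    · rwa [sp, mem_ofPred, cat_in (a3 h)]
    · by_cases h : η ∈ B
      · rw [cat_in h, wS_self]; exact univ_mem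
      · rw [(hV _ _ a2).ok.off η fun h' => h (a3 h'), wS_triv]; exact univ_mem
    · rw [cat_in (a3 h.2.1), eS_self]; exact univ_mem
  refine ⟨⟨σ' (δ, c.σ) _ a2, _, a5⟩, ⟨hσ _ _ a2, cat_le hB a4⟩, e (δ, c.σ) _ a2, g (δ, c.σ) _ a2,
    h1 _ _ a2 B hB a3, fun k => F_mono isLowerSet_univ a6 (h2 _ _ a2 k), fun k d => ?_⟩
  refine le_of_io fun q hq => ?_
  obtain ⟨r, b1, b2⟩ := fc_common (hq.trans inf_le_left)
  obtain ⟨r', b3, b4, b5⟩ := h3 _ _ a2 k d r.p r.v (b2.2.trans isLowerSet_univ a6)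
    (io_le_bS.1 ((io_mono b1).trans (hq.trans inf_le_right)))
  exact ⟨⟨r.σ, r', b3⟩, le_trans (show (⟨r.σ, r', b3⟩ : Q T) ≤ r from ⟨le_rfl, b4⟩) b1,
    (b5.mono b2.1 b3 Le.refl).2⟩

theorem gd_uns [Nonempty T] (hT : ∀ ξ : T, #(Iio ξ) ≤ 𝔠)
    (hT' : ∀ s : Set T, #s ≤ 𝔠 → ∃ ξ, s ⊆ Iio ξ) (a : O → ℕ → RO (Q T)) :
    ∃ y : ℕ → RO (Q T), inB y = ⊤ ∧
      ∀ δ, inB (fun m => y m ⊓ a δ m) ⊓ inB (fun m => y m ⊓ (a δ m)ᶜ) = ⊥ := by
  obtain ⟨B, hB, hc, h⟩ := refl_name hT (fun δ k (i : Bool) => if i then a δ k else (a δ k)ᶜ)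
    fun δ k => by simp only [iSup_bool_eq, ↓ reduceIte, Bool.false_eq_true, sup_compl_eq_top]
  obtain ⟨ξ, hξ⟩ := hT' B hc
  refine ⟨fun m => bS {x | m ∈ x ξ}, top_unique (le_iInf fun n => le_of_io fun q _ => ?_),
    fun δ => by_contra fun hne => ?_⟩
  · obtain ⟨r, j, a1, a2, a3, a4⟩ := grow q.v ξ n
    exact ⟨⟨q.σ, r, a1⟩, ⟨le_rfl, a2⟩, le_iSup₂_of_le j a3 (io_le_bS.2 a4)⟩
  obtain ⟨c, hc1⟩ := exists_io_le hne
  obtain ⟨c', h0, e, g, h1, h2, h3⟩ := h δ c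
  obtain ⟨q, n, a1, a2, a3⟩ := split' (ξ := ξ) (Z := fun x => {k | ∃ d, g k d = true ∧ x ∈ e k d})
    c'.v fun k => by
      have : {x | ∃ d, g k d = true ∧ x ∈ e k d} = ⋃ d, ⋃ _ : g k d = true, e k d := by
        ext x; simp only [mem_ofPred_eq, mem_iUnion, exists_prop]
      change Ms _ {x | ∃ d, g k d = true ∧ x ∈ e k d}
      rw [this]
      exact .iUnion fun d => .iUnion fun _ => (h1 k d).mono hξ
  have a4 : (⟨c'.σ, q, a1⟩ : Q T) ≤ c' := ⟨le_rfl, a2⟩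
  have a5 := (io_mono (a4.trans h0)).trans hc1
  rcases a3 with a3 | a3
  · obtain ⟨r, b1, m, b2, b3⟩ := fc_inB (a5.trans inf_le_right) n
    obtain ⟨r', b4, d, b5, b6⟩ := fc_read (fun d => (h1 m d).mono (subset_univ _)) (r := r)
      (P := fun d => g m d = true) (by
        filter_upwards [F_mono isLowerSet_univ b1.2 a3, io_le_bS.1 (b3.trans inf_le_left)]
          with x c1 c2 using c1 m b2 c2)
    have b7 := (le_inf (io_mono (b4.trans (b1.trans a4))) b6).trans (h3 m d)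
    rw [b5, if_pos rfl] at b7
    exact io_ne_bot r' (le_bot_iff.1 ((le_inf b7 ((io_mono b4).trans
      (b3.trans inf_le_right))).trans inf_compl_eq_bot.le))
  · obtain ⟨r, b1, m, b2, b3⟩ := fc_inB (a5.trans inf_le_left) n
    obtain ⟨r', b4, d, b5, b6⟩ := fc_read (fun d => (h1 m d).mono (subset_univ _)) (r := r)
      (P := fun d => ¬ g m d = true) (by
        filter_upwards [F_mono isLowerSet_univ b1.2 a3, io_le_bS.1 (b3.trans inf_le_left),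
          F_mono isLowerSet_univ (b1.trans a4).2 (h2 m)] with x c1 c2 c3
        obtain ⟨d, hd⟩ := c3
        exact ⟨d, fun c4 => c1 m b2 c2 ⟨d, c4, hd⟩, hd⟩)
    have b7 := (le_inf (io_mono (b4.trans (b1.trans a4))) b6).trans (h3 m d)
    rw [if_neg b5] at b7
    exact io_ne_bot r' (le_bot_iff.1 ((le_inf ((io_mono b4).trans
      (b3.trans inf_le_right)) b7).trans inf_compl_eq_bot.le))

theorem gd_ioe [Nonempty T] (hT : ∀ ξ : T, #(Iio ξ) ≤ 𝔠)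
    (hT' : ∀ s : Set T, #s ≤ 𝔠 → ∃ ξ, s ⊆ Iio ξ) (f : O → ℕ → ℕ → RO (Q T))
    (hf : ∀ i, IsFn (f i)) : ⨆ c : {c : ℕ → ℕ → RO (Q T) // IsFn c},
      ⨅ i, inB (fun n => ⨆ m, f i n m ⊓ c.1 n m) = ⊤ := by
  obtain ⟨B, hB, hc, h⟩ := refl_name hT f fun δ k => (hf δ).1 k
  refine top_unique (le_of_io fun p _ => ?_)
  obtain ⟨ξ₀, h0⟩ := hT' (B ∪ sp p.p) ((mk_union_le _ _).trans (add_le_of_le aleph0_le_continuum hc
    (p.v.ok.cnt.le_aleph0.trans aleph0_le_continuum)))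
  choose nx hnx using fun t : T => hT' {t} ((countable_singleton t).le_aleph0.trans
    aleph0_le_continuum)
  let ξ : ℕ → T := fun k => nx^[k] ξ₀
  have hm : StrictMono ξ := strictMono_nat_of_lt_succ fun k => by
    simp only [ξ, Function.iterate_succ_apply']
    exact hnx _ rfl
  have h1 : ∀ k, B ∪ sp p.p ⊆ Iio (ξ k) := fun k η hη =>
    lt_of_lt_of_le (h0 hη) (hm.monotone (Nat.zero_le k))
  obtain ⟨q, a1, a2, a3⟩ := fresh p.v hm.injective fun k hk => lt_irrefl _ (h1 k (Or.inr hk))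
  let t : ℕ → ℕ → Set (Pt T) := fun k m => {x | m ∈ x (ξ k) ∧ ∀ i < m, i ∉ x (ξ k)}
  have ht : ∀ k m, Ms univ (t k m) := fun k m => by
    have : t k m = {x | m ∈ x (ξ k)} ∩ ⋂ i, ⋂ _ : i < m, {x | i ∈ x (ξ k)}ᶜ := by
      ext x; simp only [t, mem_ofPred_eq, mem_inter_iff, mem_iInter, mem_compl_iff]
    rw [this]
    exact (ms_atom (mem_univ _) m).inter
      (.iInter fun i => .iInter fun _ => (ms_atom (mem_univ _) i).compl)
  have hfn : IsFn fun k m => bS (t k m) := by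
    refine ⟨fun k => top_unique (le_of_io fun r _ => ?_), fun k m m' hne => by_contra fun e => ?_⟩
    · obtain ⟨r', j, b1, b2, -, b3⟩ := grow r.v (ξ k) 0
      obtain ⟨r'', b4, m, -, b5⟩ := fc_read (ht k) (r := ⟨r.σ, r', b1⟩) (P := fun _ => True)
        (b3.mono fun x hx => by
          classical
          exact ⟨Nat.find ⟨j, hx⟩, trivial, Nat.find_spec (⟨j, hx⟩ : ∃ j, j ∈ x (ξ k)),
            fun i hi => Nat.find_min (⟨j, hx⟩ : ∃ j, j ∈ x (ξ k)) hi⟩)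
      exact ⟨r'', b4.trans ⟨le_rfl, b2⟩, le_iSup_of_le m b5⟩
    · obtain ⟨r, hr⟩ := exists_io_le e
      have := F_neBot r.v
      obtain ⟨x, b1, b2⟩ := Filter.nonempty_of_mem (inter_mem (io_le_bS.1 (hr.trans inf_le_left))
        (io_le_bS.1 (hr.trans inf_le_right)))
      rcases lt_or_gt_of_ne hne with b3 | b3
      exacts [b2.2 m b3 b1.1, b1.2 m' b3 b2.1]
  refine ⟨⟨p.σ, q, a1⟩, ⟨le_rfl, a2⟩, le_iSup_of_le ⟨_, hfn⟩ (le_iInf fun δ => le_iInf fun n₀ =>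
    le_of_io fun r hr => ?_)⟩
  obtain ⟨r₁, b1, b2⟩ := fc_common hr
  obtain ⟨c', b3, e, g, b4, b5, b6⟩ := h δ r₁
  obtain ⟨n, hn⟩ := a3 c'.p (b3.trans b2).2
  have hA := isLowerSet_Iio (ξ (max n n₀))
  have b7 : ∀ d, Ms (Iio (ξ (max n n₀))) (e (max n n₀) d) := fun d =>
    (b4 _ d).mono (subset_union_left.trans (h1 _))
  obtain ⟨d, q₁, c1, c2, c3⟩ := F_ex hA b7 (c'.v.sub (subset_univ _))
    (F_abs hA isLowerSet_univ (subset_univ _) (by
      rw [← iUnion_ofPred]; exact .iUnion b7) c'.v (b5 (max n n₀)))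
  have c4 : Le univ (cat (Iio (ξ (max n n₀))) q₁ c'.p) c'.p := cat_le hA c2
  obtain ⟨q₂, c5, c6, c7⟩ := setmin (ξ := ξ (max n n₀)) (cat_val hA isLowerSet_univ c1 c'.v c2) (by
    rw [cat_out self_notMem_Iio]
    exact c4.fl' _ (hn _ (le_max_left _ _))) (g (max n n₀) d)
  have c8 : (⟨c'.σ, q₂, c5⟩ : Q T) ≤ c' := ⟨le_rfl, c6.trans isLowerSet_univ c4⟩
  refine ⟨⟨c'.σ, q₂, c5⟩, c8.trans (b3.trans b1), le_iSup₂_of_le (max n n₀) (le_max_right _ _)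
    (le_iSup_of_le (g (max n n₀) d) (le_inf ((le_inf (io_mono c8) (io_le_bS.2 ?_)).trans (b6 _ d))
      (io_le_bS.2 c7)))⟩
  exact F_mono isLowerSet_univ c6 (F_lift hA isLowerSet_univ (subset_univ _)
    (F_mono hA cat_le_left c3))

theorem ex_gd : ∃ (B : Type) (_ : CompleteBooleanAlgebra B), Gd B := by
  let T := (Order.succ 𝔠 : Cardinal.{0}).ord.ToType
  have hT : ∀ ξ : T, #(Iio ξ) ≤ 𝔠 := fun ξ => by
    rw [← Order.lt_succ_iff]
    exact (mk_Iio_lt ξ (by simp only [T, mk_toType, card_ord, Ordinal.type_toType])).trans_eq (mk_ord_toType _)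
  have hT' : ∀ s : Set T, #s ≤ 𝔠 → ∃ ξ, s ⊆ Iio ξ := by
    intro s hs
    by_contra hn
    push Not at hn
    have h1 : (univ : Set T) ⊆ ⋃ η ∈ s, Iic η := fun ξ _ => by
      obtain ⟨η, a, b⟩ := not_subset.1 (hn ξ)
      exact mem_biUnion a (mem_Iic.2 (not_lt.1 b))
    have h2 : #T ≤ 𝔠 := by
      rw [← mk_univ]
      refine (mk_le_mk_of_subset h1).trans ((mk_biUnion_le _ _).trans
        (mul_le_of_le aleph0_le_continuum hs (ciSup_le' fun η => ?_)))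
      rw [← Iio_insert]
      exact mk_insert_le.trans (add_le_of_le aleph0_le_continuum (hT _)
        (one_le_aleph0.trans aleph0_le_continuum))
    rw [mk_ord_toType] at h2
    exact (Order.lt_succ _).not_ge h2
  obtain ⟨ξ, -⟩ := hT' ∅ (by simp)
  have : Nonempty T := ⟨ξ⟩
  exact ⟨RO (Q T), inferInstance, gd_nt, gd_bd, gd_club, gd_uns hT hT', gd_ioe hT hT'⟩

end Pool.Agent.MP_9590fd_lc

end
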