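import Mathlib

-- part MP_9590fd_lc.A0
section

/-!
Forcing with pseudo-generic sequences. A descending sequence of conditions that meets countably
many dense open sets (chosen along the way) determines points; `Fl p` is the filter of the sets
of points that are reached below `p` by all sufficiently generic sequences.
-/

set_option autoImplicit false

namespace Pool.Agent.MP_9590fd_lc

open Set Filter MeasureTheory

variable {C X : Type} (ok : C → Prop) (le : C → C → Prop) (pt : (ℕ → C) → X → Prop)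

/-- Dense and open. -/
def DO (D : Set C) : Prop :=
  (∀ p, ok p → ∃ q ∈ D, ok q ∧ le q p) ∧ ∀ d ∈ D, ∀ q, ok q → le q d → q ∈ D

def Desc (r : ℕ → C) : Prop := ∀ n, ok (r n) ∧ le (r (n + 1)) (r n)

def Meets (D : ℕ → List C → Set C) (r : ℕ → C) : Prop :=
  ∀ n l, (∀ c ∈ l, c ∈ range r) → DO ok le (D n l) → ∃ j, r j ∈ D n l

theorem gen_iInter {S : ℕ → Set (ℕ → C)}
    (h : ∀ k, ∃ D, ∀ r, Desc ok le r → Meets ok le D r → r ∈ S k) :
    ∃ D, ∀ r, Desc ok le r → Meets ok le D r → ∀ k, r ∈ S k := by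
  choose D hD using h
  refine ⟨fun n => D n.unpair.1 n.unpair.2, fun r hr hm k => hD k r hr fun n l hl hd => ?_⟩
  simpa using hm (k.pair n) l hl (by simpa using hd)

/-- The sets that contain all sufficiently generic sequences. -/
def Gen : Filter (ℕ → C) where
  sets := {S | ∃ D, ∀ r, Desc ok le r → Meets ok le D r → r ∈ S}
  univ_sets := ⟨fun _ _ => ∅, fun _ _ _ => trivial⟩
  sets_of_superset := fun ⟨D, h⟩ hs => ⟨D, fun r a b => hs (h r a b)⟩
  inter_sets := fun {s t} hs ht => by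
    obtain ⟨D, h⟩ := gen_iInter ok le (S := fun k => if k = 0 then s else t) fun k => by
      split_ifs
      exacts [hs, ht]
    exact ⟨D, fun r a b => ⟨by simpa using h r a b 0, by simpa using h r a b 1⟩⟩

instance : CountableInterFilter (Gen ok le) := ⟨fun S hS h => by
  rcases S.eq_empty_or_nonempty with rfl | hne
  · simp
  obtain ⟨f, rfl⟩ := hS.exists_eq_range hne
  obtain ⟨D, hD⟩ := gen_iInter ok le (S := f) fun k => h _ ⟨k, rfl⟩
  exact ⟨D, fun r a b => by simpa using hD r a b⟩⟩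

/-- The sets of points forced by `p`. -/
def Fl (p : C) : Filter X where
  sets := {s | ∀ᶠ r : ℕ → C in Gen ok le, (∃ j, le (r j) p) → ∀ x, pt r x → x ∈ s}
  univ_sets := mem_ofPred.2 (Eventually.of_forall fun _ _ _ _ => trivial)
  sets_of_superset := fun h hs => mem_ofPred.2 ((mem_ofPred.1 h).mono fun _ a b x c => hs (a b x c))
  inter_sets := fun hs ht => mem_ofPred.2 (((mem_ofPred.1 hs).and (mem_ofPred.1 ht)).mono
    fun _ a b x c => ⟨a.1 b x c, a.2 b x c⟩)

theorem mem_Fl {p : C} {s : Set X} :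
    s ∈ Fl ok le pt p ↔ ∀ᶠ r in Gen ok le, (∃ j, le (r j) p) → ∀ x, pt r x → x ∈ s := Iff.rfl

instance (p : C) : CountableInterFilter (Fl ok le pt p) := ⟨fun S hS h => by
  have := (eventually_countable_ball (l := Gen ok le) hS).2 fun s hs => (mem_Fl ok le pt).1 (h s hs)
  exact (mem_Fl ok le pt).2 (this.mono fun r a b x c s hs => a s hs b x c)⟩

variable {ok le pt}

theorem gen_desc : ∀ᶠ r in Gen ok le, Desc ok le r := ⟨fun _ _ => ∅, fun _ h _ => h⟩

theorem gen_meets {D : Set C} (h : DO ok le D) : ∀ᶠ r in Gen ok le, ∃ j, r j ∈ D :=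
  ⟨fun _ _ => D, fun _ _ hm => hm 0 [] (by simp) h⟩

/-- The diagonal intersection. -/
theorem gen_diag {P : C → (ℕ → C) → Prop} (h : ∀ c, ∀ᶠ r in Gen ok le, P c r) :
    ∀ᶠ r in Gen ok le, ∀ i, P (r i) r := by
  choose D hD using h
  refine ⟨fun n l => l.casesOn ∅ fun c l' => D c n l', fun r hr hm i =>
    hD (r i) r hr fun n l hl hd => hm n (r i :: l) (fun c hc => ?_) hd⟩
  rcases List.mem_cons.1 hc with rfl | hc
  exacts [⟨i, rfl⟩, hl c hc]

/-- Generic sequences for a coarser structure. -/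
theorem gen_le {ok' : C → Prop} {le' : C → C → Prop} (h1 : ∀ r, Desc ok' le' r → Desc ok le r)
    (h2 : ∀ D, DO ok le D → DO ok' le' D) : Gen ok' le' ≤ Gen ok le :=
  fun _ ⟨D, h⟩ => ⟨D, fun r a b => h r (h1 r a) fun n l hl hd => b n l hl (h2 _ hd)⟩

theorem Desc.anti (rf : ∀ p, le p p) (tr : ∀ p q r, le r q → le q p → le r p) {r : ℕ → C}
    (h : Desc ok le r) {i j : ℕ} (hij : i ≤ j) : le (r j) (r i) := by
  induction j, hij using Nat.le_induction with
  | base => exact rf _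
  | succ j _ ih => exact tr _ _ _ (h j).2 ih

/-- Generic sequences exist. -/
theorem gen_ex (rf : ∀ p, le p p) {P : (ℕ → C) → Prop}
    (h : ∀ᶠ r in Gen ok le, P r) {p : C} (hp : ok p) : ∃ r, Desc ok le r ∧ r 0 = p ∧ P r := by
  classical
  obtain ⟨D, hD⟩ := h
  have step : ∀ (E : Set C) (c : C), ∃ q, ok c → ok q ∧ le q c ∧ (DO ok le E → q ∈ E) := by
    intro E c
    by_cases h : ok c ∧ DO ok le E
    · obtain ⟨q, a, b, d⟩ := h.2.1 c h.1
      exact ⟨q, fun _ => ⟨b, d, fun _ => a⟩⟩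
    · exact ⟨c, fun hc => ⟨hc, rf c, fun d => (h ⟨hc, d⟩).elim⟩⟩
  choose g hg using step
  obtain ⟨e, he⟩ := exists_surjective_nat (ℕ × ℕ × List ℕ)
  let s : ℕ → ℕ → C := fun n => Nat.rec (fun _ => p) (fun n h =>
    fun i => if i ≤ n then h i else g (D (e n).2.1 ((e n).2.2.map h)) (h n)) n
  have s1 : ∀ n i, s (n + 1) i =
      if i ≤ n then s n i else g (D (e n).2.1 ((e n).2.2.map (s n))) (s n n) := fun _ _ => rfl
  have s2 : ∀ i n, i ≤ n → s n i = s i i := fun i n hn => by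
    induction n, hn using Nat.le_induction with
    | base => rfl
    | succ n hn ih => rw [s1, if_pos hn, ih]
  have s3 : ∀ n, s (n + 1) (n + 1) = g (D (e n).2.1 ((e n).2.2.map (s n))) (s n n) := fun n => by
    rw [s1, if_neg (by omega)]
  have s4 : ∀ n, ok (s n n) := fun n => by
    induction n with
    | zero => exact hp
    | succ n ih => rw [s3]; exact (hg _ _ ih).1
  have hd : Desc ok le fun n => s n n := fun n => ⟨s4 n, by
    show le (s (n + 1) (n + 1)) _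
    rw [s3]; exact (hg _ _ (s4 n)).2.1⟩
  refine ⟨fun n => s n n, hd, rfl, hD _ hd fun n l hl hdo => ?_⟩
  obtain ⟨m, rfl⟩ : ∃ m : List ℕ, l = m.map fun i => s i i := by
    induction l with
    | nil => exact ⟨[], rfl⟩
    | cons c l ih =>
      clear ih
      exact ⟨(c :: l).attach.map fun x => (hl x.1 x.2).choose, by
        rw [List.map_map]
        conv_lhs => rw [← List.attach_map_subtype_val (c :: l)]
        exact List.map_congr_left fun x _ => (hl x.1 x.2).choose_spec.symm⟩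
  have hinf : (e ⁻¹' range fun k => (k, n, m)).Infinite :=
    (infinite_range_of_injective fun a b h => (Prod.ext_iff.1 h).1).preimage fun x _ => he x
  obtain ⟨t, ⟨k, hk⟩, ht⟩ := hinf.exists_gt m.sum
  refine ⟨t + 1, ?_⟩
  have : m.map (s t) = m.map fun i => s i i :=
    List.map_congr_left fun i hi => s2 i t ((List.le_sum_of_mem hi).trans ht.le)
  show s (t + 1) (t + 1) ∈ _
  rw [s3, ← hk]
  simp only [this]
  exact (hg _ _ (s4 t)).2.2 hdo

theorem Fl_mono (tr : ∀ p q r, le r q → le q p → le r p) {p q : C} (h : le q p) :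
    Fl ok le pt q ≤ Fl ok le pt p := fun _ hs =>
  (mem_Fl ok le pt).2 (((mem_Fl ok le pt).1 hs).mono fun _ a ⟨j, b⟩ => a ⟨j, tr _ _ _ b h⟩)

theorem Fl_neBot (rf : ∀ p, le p p)
    (ex : ∀ r, Desc ok le r → ∃ x, pt r x) {p : C} (hp : ok p) : (Fl ok le pt p).NeBot := by
  refine ⟨fun e => ?_⟩
  obtain ⟨r, h1, h2, h3⟩ := gen_ex rf ((mem_Fl ok le pt).1 (empty_mem_iff_bot.2 e)) hp
  obtain ⟨x, hx⟩ := ex r h1
  exact h3 ⟨0, h2 ▸ rf _⟩ x hx

/-- What a member of a generic sequence forces is true at its points. -/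
theorem gen_true (rf : ∀ p, le p p) (s : C → Set X) :
    ∀ᶠ r in Gen ok le, ∀ i, s (r i) ∈ Fl ok le pt (r i) → ∀ x, pt r x → x ∈ s (r i) := by
  have : ∀ c, ∀ᶠ r in Gen ok le, s c ∈ Fl ok le pt c → (∃ j, le (r j) c) →
      ∀ x, pt r x → x ∈ s c := fun c => by
    by_cases h : s c ∈ Fl ok le pt c
    · exact Eventually.mono ((mem_Fl ok le pt).1 h) fun _ a _ => a
    · exact Eventually.of_forall fun _ a => (h a).elim
  exact Eventually.mono (gen_diag this) fun r a i b => a i b ⟨i, rf _⟩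

theorem Fl_reg (rf : ∀ p, le p p) (tr : ∀ p q r, le r q → le q p → le r p) {p : C} {s : Set X}
    (h : ∀ q, ok q → le q p → ∃ r, ok r ∧ le r q ∧ s ∈ Fl ok le pt r) : s ∈ Fl ok le pt p := by
  have hd : DO ok le {c | s ∈ Fl ok le pt c ∨ ∀ e, ok e → le e c → ¬ le e p} := by
    refine ⟨fun c hc => ?_, fun d hd q _ hq => hd.imp (fun a => Fl_mono tr hq a)
      fun a e he hle => a e he (tr _ _ _ hle hq)⟩
    by_cases h1 : ∀ e, ok e → le e c → ¬ le e p
    · exact ⟨c, Or.inr h1, hc, rf c⟩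
    · push Not at h1
      obtain ⟨e, h2, h3, h4⟩ := h1
      obtain ⟨r, a, b, d⟩ := h e h2 h4
      exact ⟨r, Or.inl d, a, tr _ _ _ b h3⟩
  rw [mem_Fl]
  filter_upwards [gen_meets hd, gen_true (pt := pt) rf fun _ => s, gen_desc] with r h0 h2 h3 h5 x hx
  obtain ⟨j, h1⟩ := h0
  obtain ⟨i, h4⟩ := h5
  refine h2 j (h1.resolve_right fun h5 => ?_) x hx
  exact h5 (r (max i j)) (h3 _).1 (h3.anti rf tr (le_max_right _ _))
    (tr _ _ _ (h3.anti rf tr (le_max_left _ _)) h4)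

/-- The decided sets form a `σ`-algebra. -/
theorem Fl_dec (rf : ∀ p, le p p) (tr : ∀ p q r, le r q → le q p → le r p) {G : Set (Set X)}
    (hG : ∀ s ∈ G, ∀ p, ok p → ∃ q, ok q ∧ le q p ∧ (s ∈ Fl ok le pt q ∨ sᶜ ∈ Fl ok le pt q))
    {s : Set X} (hs : MeasurableSet[MeasurableSpace.generateFrom G] s) :
    ∀ p, ok p → ∃ q, ok q ∧ le q p ∧ (s ∈ Fl ok le pt q ∨ sᶜ ∈ Fl ok le pt q) := by
  induction hs with
  | basic u hu => exact hG u hu
  | empty => exact fun p hp => ⟨p, hp, rf p, Or.inr (by simp)⟩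
  | compl t _ ih =>
    intro p hp
    obtain ⟨q, a, b, c⟩ := ih p hp
    exact ⟨q, a, b, by rw [compl_compl]; exact c.symm⟩
  | iUnion f _ ih =>
    intro p hp
    by_cases h : ∃ n q, ok q ∧ le q p ∧ f n ∈ Fl ok le pt q
    · obtain ⟨n, q, a, b, c⟩ := h
      exact ⟨q, a, b, Or.inl (mem_of_superset c (subset_iUnion f n))⟩
    · refine ⟨p, hp, rf p, Or.inr ?_⟩
      rw [compl_iUnion, countable_iInter_mem]
      refine fun n => Fl_reg rf tr fun q hq hle => ?_
      obtain ⟨r, a, b, c⟩ := ih n q hq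
      exact ⟨r, a, b, c.resolve_left fun d => h ⟨n, r, a, tr _ _ _ b hle, d⟩⟩

end Pool.Agent.MP_9590fd_lc

end

-- part MP_9590fd_lc.Id
section

/-!
`F_σ` ideals on `ℕ` given by a sequence `K` of families of small finite sets.
-/

set_option autoImplicit false

namespace Pool.Agent.MP_9590fd_lc

open Set

/-- `y` is covered by at most `n` members of `K`. -/
def Cov (K : Set (Finset ℕ)) (n : ℕ) (y : Finset ℕ) : Prop :=
  ∃ l : Finset (Finset ℕ), l.card ≤ n ∧ (∀ Z ∈ l, Z ∈ K) ∧ ∀ k ∈ y, ∃ Z ∈ l, k ∈ Z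

/-- The singletons and the members of the first `n` families. -/
def Un (K : ℕ → Set (Finset ℕ)) (n : ℕ) : Set (Finset ℕ) :=
  {Z | (∃ k, Z = {k}) ∨ ∃ i < n, Z ∈ K i}

/-- `N` is in the ideal generated by `K`. -/
def Sm (K : ℕ → Set (Finset ℕ)) (N : Set ℕ) : Prop :=
  ∃ n, ∀ y : Finset ℕ, ↑y ⊆ N → Cov (Un K n) n y

/-- The families of `K` are contained in those of `K'`. -/
def Cv (K K' : ℕ → Set (Finset ℕ)) : Prop := ∀ i, ∃ n, K i ⊆ Un K' n

/-- The finite subsets of `N`. -/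
def Nul (N : Set ℕ) : Set (Finset ℕ) := {Z | ↑Z ⊆ N}

/-- The finite sets that include no member of `Y`. -/
def Fr (Y : Set (Finset ℕ)) : Set (Finset ℕ) := {Z | ∀ y ∈ Y, ¬ y ⊆ Z}

variable {K K' K'' : ℕ → Set (Finset ℕ)} {M N : Set ℕ} {H H' : Set (Finset ℕ)} {m n : ℕ}
  {y y' : Finset ℕ}

theorem Cov.mono (h : Cov H m y) (hH : H ⊆ H') (hm : m ≤ n) (hy : y' ⊆ y) : Cov H' n y' := by
  obtain ⟨l, a, b, c⟩ := h
  exact ⟨l, a.trans hm, fun Z hZ => hH (b Z hZ), fun k hk => c k (hy hk)⟩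

theorem Cov.union (h : Cov H m y) (h' : Cov H n y') : Cov H (m + n) (y ∪ y') := by
  classical
  obtain ⟨l, a, b, c⟩ := h
  obtain ⟨l', a', b', c'⟩ := h'
  refine ⟨l ∪ l', (Finset.card_union_le _ _).trans (add_le_add a a'), fun Z hZ => ?_,
    fun k hk => ?_⟩
  · exact (Finset.mem_union.1 hZ).elim (b Z) (b' Z)
  · rcases Finset.mem_union.1 hk with hk | hk
    · obtain ⟨Z, d, e⟩ := c k hk
      exact ⟨Z, Finset.mem_union_left _ d, e⟩
    · obtain ⟨Z, d, e⟩ := c' k hk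
      exact ⟨Z, Finset.mem_union_right _ d, e⟩

/-- Members of the cover may be replaced or dropped. -/
theorem Cov.imp (h : Cov H m y) (hH : ∀ Z ∈ H, Disjoint Z y ∨ ∃ Z' ∈ H', Z ∩ y ⊆ Z') :
    Cov H' m y := by
  classical
  obtain ⟨l, a, b, c⟩ := h
  have key : ∀ Z : Finset ℕ, ∃ Z', Z ∈ H → ¬ Disjoint Z y → Z' ∈ H' ∧ Z ∩ y ⊆ Z' := fun Z => by
    by_cases h1 : Z ∈ H
    · rcases hH Z h1 with h2 | ⟨Z', h2⟩
      · exact ⟨∅, fun _ h3 => (h3 h2).elim⟩
      · exact ⟨Z', fun _ _ => h2⟩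
    · exact ⟨∅, fun h3 => (h1 h3).elim⟩
  choose f hf using key
  refine ⟨(l.filter fun Z => ¬ Disjoint Z y).image f,
    Finset.card_image_le.trans ((Finset.card_filter_le _ _).trans a), fun Z hZ => ?_,
    fun k hk => ?_⟩
  · obtain ⟨Z', h1, rfl⟩ := Finset.mem_image.1 hZ
    obtain ⟨h2, h3⟩ := Finset.mem_filter.1 h1
    exact (hf Z' (b Z' h2) h3).1
  · obtain ⟨Z, d, e⟩ := c k hk
    have h3 : ¬ Disjoint Z y := fun h => Finset.disjoint_left.1 h e hk
    exact ⟨f Z, Finset.mem_image_of_mem f (Finset.mem_filter.2 ⟨d, h3⟩),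
      (hf Z (b Z d) h3).2 (Finset.mem_inter.2 ⟨e, hk⟩)⟩

theorem Un_mono (h : m ≤ n) : Un K m ⊆ Un K n := by
  rintro Z (hZ | ⟨i, a, b⟩)
  exacts [Or.inl hZ, Or.inr ⟨i, a.trans_le h, b⟩]

theorem sub_Un {i : ℕ} (h : i < n) : K i ⊆ Un K n := fun _ hZ => Or.inr ⟨i, h, hZ⟩

theorem Cv.refl (K : ℕ → Set (Finset ℕ)) : Cv K K := fun i => ⟨i + 1, sub_Un i.lt_succ_self⟩

theorem Cv.of_sub (h : ∀ i, ∃ j, K i ⊆ K' j) : Cv K K' := fun i =>
  let ⟨j, hj⟩ := h i
  ⟨j + 1, hj.trans (sub_Un j.lt_succ_self)⟩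

theorem Cv.un (h : Cv K K') (n : ℕ) : ∃ n', Un K n ⊆ Un K' n' := by
  induction n with
  | zero =>
    refine ⟨0, ?_⟩
    rintro Z (hZ | ⟨i, a, -⟩)
    exacts [Or.inl hZ, absurd a i.not_lt_zero]
  | succ n ih =>
    obtain ⟨a, ha⟩ := ih
    obtain ⟨b, hb⟩ := h n
    refine ⟨max a b, ?_⟩
    rintro Z (hZ | ⟨i, c, d⟩)
    · exact Or.inl hZ
    · rcases Nat.lt_succ_iff_lt_or_eq.1 c with c | rfl
      · exact Un_mono (le_max_left _ _) (ha (sub_Un c d))
      · exact Un_mono (le_max_right _ _) (hb d)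

theorem Cv.trans (h : Cv K K') (h' : Cv K' K'') : Cv K K'' := by
  intro i
  obtain ⟨a, ha⟩ := h i
  obtain ⟨b, hb⟩ := h'.un a
  exact ⟨b, ha.trans hb⟩

theorem Sm.mono (h : Sm K N) (hM : M ⊆ N) : Sm K M := by
  obtain ⟨n, hn⟩ := h
  exact ⟨n, fun y hy => hn y (hy.trans hM)⟩

theorem Sm.cv (h : Sm K N) (hK : Cv K K') : Sm K' N := by
  obtain ⟨n, hn⟩ := h
  obtain ⟨b, hb⟩ := hK.un n
  exact ⟨max n b, fun y hy => (hn y hy).mono (hb.trans (Un_mono (le_max_right _ _)))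
    (le_max_left _ _) subset_rfl⟩

theorem Sm.union (h : Sm K M) (h' : Sm K N) : Sm K (M ∪ N) := by
  classical
  obtain ⟨a, ha⟩ := h
  obtain ⟨b, hb⟩ := h'
  refine ⟨a + b, fun y hy => ?_⟩
  have h1 := ha (y.filter (· ∈ M)) fun k hk => (Finset.mem_filter.1 hk).2
  have h2 := hb (y.filter (· ∉ M)) fun k hk =>
    (hy (Finset.mem_filter.1 hk).1).resolve_left (Finset.mem_filter.1 hk).2
  refine ((h1.mono (Un_mono (Nat.le_add_right a b)) le_rfl subset_rfl).union
    (h2.mono (Un_mono (Nat.le_add_left b a)) le_rfl subset_rfl)).mono subset_rfl le_rfl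
    fun k hk => ?_
  by_cases hk' : k ∈ M
  · exact Finset.mem_union_left _ (Finset.mem_filter.2 ⟨hk, hk'⟩)
  · exact Finset.mem_union_right _ (Finset.mem_filter.2 ⟨hk, hk'⟩)

theorem Sm.of_finite (h : N.Finite) : Sm K N := by
  classical
  refine ⟨h.toFinset.card, fun y hy => ⟨h.toFinset.image fun k => {k}, Finset.card_image_le,
    fun Z hZ => ?_, fun k hk => ⟨{k}, Finset.mem_image_of_mem _ (h.mem_toFinset.2 (hy hk)),
      Finset.mem_singleton_self k⟩⟩⟩
  obtain ⟨k, -, rfl⟩ := Finset.mem_image.1 hZ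
  exact Or.inl ⟨k, rfl⟩

theorem Sm.iUnion {ι : Type} [Finite ι] {N : ι → Set ℕ} (h : ∀ i, Sm K (N i)) :
    Sm K (⋃ i, N i) := by
  have key : ∀ I : Set ι, I.Finite → Sm K (⋃ i ∈ I, N i) := fun I hI => by
    induction I, hI using Set.Finite.induction_on with
    | empty => exact Sm.of_finite (by simp only [mem_empty_iff_false, iUnion_of_empty, iUnion_empty, finite_empty])
    | insert _ _ ih => rw [biUnion_insert]; exact (h _).union ih
  simpa only [mem_univ, iUnion_true] using key univ finite_univ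

theorem Sm.biUnion {ι : Type} {I : Set ι} (hI : I.Finite) {N : ι → Set ℕ}
    (h : ∀ i ∈ I, Sm K (N i)) : Sm K (⋃ i ∈ I, N i) := by
  have := hI.to_subtype
  rw [biUnion_eq_iUnion]
  exact Sm.iUnion fun i => h i.1 i.2

/-- All finite subsets of `N` lie inside members of `Un K n`. -/
theorem Sm.of_her (h : ∀ y : Finset ℕ, ↑y ⊆ N → y.Nonempty → ∃ Z ∈ Un K n, y ⊆ Z) : Sm K N := by
  refine ⟨n + 1, fun y hy => ?_⟩
  rcases y.eq_empty_or_nonempty with rfl | hne
  · exact ⟨∅, Nat.zero_le _, by simp, by simp⟩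
  · obtain ⟨Z, a, b⟩ := h y hy hne
    exact ⟨{Z}, by simp, fun Z' hZ => Finset.mem_singleton.1 hZ ▸ Un_mono n.le_succ a,
      fun k hk => ⟨Z, Finset.mem_singleton_self Z, b hk⟩⟩

theorem Sm.of_nul {i : ℕ} (h : Nul N ⊆ K i) : Sm K N :=
  Sm.of_her (n := i + 1) fun y hy _ => ⟨y, sub_Un i.lt_succ_self (h hy), subset_rfl⟩

/-- Adding the finite subsets of sets that miss `M` does not make `M` small. -/
theorem Sm.ext (h : Sm K' M)
    (hK : ∀ i, ∃ n, ∀ Z ∈ K' i, Z ∈ Un K n ∨ Disjoint (↑Z : Set ℕ) M) : Sm K M := by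
  obtain ⟨n, hn⟩ := h
  choose f hf using hK
  let b := (Finset.range n).sup f
  refine ⟨max n b, fun y hy => ((hn y hy).imp (H' := Un K b) ?_).mono
    (Un_mono (le_max_right _ _)) (le_max_left _ _) subset_rfl⟩
  rintro Z (hZ | ⟨i, a, c⟩)
  · exact Or.inr ⟨Z, Or.inl hZ, Finset.inter_subset_left⟩
  · rcases hf i Z c with d | d
    · exact Or.inr ⟨Z, Un_mono (Finset.le_sup (f := f) (Finset.mem_range.2 a)) d,
        Finset.inter_subset_left⟩
    · exact Or.inl (Finset.disjoint_coe.1 (d.mono_right hy))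

theorem Sm.infinite (h : ¬ Sm K N) : N.Infinite := fun h' => h (Sm.of_finite h')

theorem not_sm_univ : ¬ Sm (fun _ => ∅) univ := by
  rintro ⟨n, hn⟩
  obtain ⟨l, a, b, c⟩ := hn (Finset.range (n + 1)) (subset_univ _)
  have h1 : Finset.range (n + 1) ⊆ l.biUnion id := fun k hk => by
    obtain ⟨Z, d, e⟩ := c k hk
    exact Finset.mem_biUnion.2 ⟨Z, d, e⟩
  have h2 : (l.biUnion id).card ≤ l.card * 1 :=
    Finset.card_biUnion_le_card_mul l id 1 fun Z hZ => by
      rcases b Z hZ with ⟨k, rfl⟩ | ⟨i, -, d⟩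
      · simp
      · exact d.elim
  have h3 := Finset.card_le_card h1
  rw [Finset.card_range] at h3
  omega

/-- The limit of a chain of ideals. -/
theorem Sm.lim {L : ℕ → ℕ → Set (Finset ℕ)} (hL : ∀ a b, a ≤ b → Cv (L a) (L b))
    (hK : ∀ i, ∃ a j, K i ⊆ L a j) (h : Sm K N) : ∃ a, Sm (L a) N := by
  obtain ⟨n, hn⟩ := h
  choose f g hf using hK
  let a := (Finset.range n).sup f
  let K₁ : ℕ → Set (Finset ℕ) := fun i => if i < n then K i else ∅
  have h1 : Sm K₁ N := ⟨n, fun y hy => (hn y hy).mono (by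
    rintro Z (hZ | ⟨i, c, d⟩)
    exacts [Or.inl hZ, Or.inr ⟨i, c, by simpa only [K₁, if_pos c] using d⟩]) le_rfl subset_rfl⟩
  refine ⟨a, h1.cv fun i => ?_⟩
  by_cases c : i < n
  · obtain ⟨b, hb⟩ := hL (f i) a (Finset.le_sup (f := f) (Finset.mem_range.2 c)) (g i)
    exact ⟨b, by simpa only [K₁, if_pos c] using (hf i).trans hb⟩
  · exact ⟨0, by simp only [K₁, if_neg c, empty_subset]⟩


section comp

variable {D : Type}

/-- A colouring of an initial segment: the members of `B` are coloured and every nonempty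
monochromatic subset of `B` is in the family of its colour. -/
def GoodL (B : Set ℕ) (G : D → Set (Finset ℕ)) (l : List (Option D)) : Prop :=
  (∀ k, k < l.length → k ∈ B → ∃ c, l.getD k none = some c) ∧
    ∀ (c : D) (y : Finset ℕ), y.Nonempty → (∀ k ∈ y, k ∈ B ∧ l.getD k none = some c) → y ∈ G c

def Alive (B : Set ℕ) (G : D → Set (Finset ℕ)) (l : List (Option D)) : Prop :=
  ∀ m : ℕ, ∃ t : List (Option D), m ≤ t.length ∧ GoodL B G (l ++ t)

open Classical in
noncomputable def pick (S : Set (Option D)) : Option D := if h : S.Nonempty then h.some else none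

noncomputable def branch (B : Set ℕ) (G : D → Set (Finset ℕ)) : ℕ → List (Option D)
  | 0 => []
  | k + 1 => branch B G k ++ [pick {d | Alive B G (branch B G k ++ [d])}]

variable {B : Set ℕ} {G : D → Set (Finset ℕ)}

theorem getD_app (l t : List (Option D)) {k : ℕ} (h : k < l.length) :
    (l ++ t).getD k none = l.getD k none := by
  simp [List.getD_eq_getElem?_getD, List.getElem?_append_left h]

theorem lt_of_getD {l : List (Option D)} {k : ℕ} {c : D} (h : l.getD k none = some c) :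
    k < l.length := by
  by_contra hk
  rw [List.getD_eq_default _ _ (not_lt.1 hk)] at h
  cases h

theorem GoodL.pre {l t : List (Option D)} (h : GoodL B G (l ++ t)) : GoodL B G l := by
  refine ⟨fun k hk hb => ?_, fun c y hy hc => h.2 c y hy fun k hk => ⟨(hc k hk).1, ?_⟩⟩
  · rw [← getD_app l t hk]
    exact h.1 k (by simp; omega) hb
  · rw [getD_app l t (lt_of_getD (hc k hk).2)]
    exact (hc k hk).2

theorem Alive.good {l : List (Option D)} (h : Alive B G l) : GoodL B G l :=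
  let ⟨_, _, ht⟩ := h 0
  ht.pre

theorem Alive.child [Finite D] {l : List (Option D)} (h : Alive B G l) :
    ∃ d, Alive B G (l ++ [d]) := by
  by_contra hn
  simp only [Alive, not_exists, not_forall, not_and] at hn
  choose f hf using hn
  obtain ⟨M, hM⟩ := (Set.finite_range f).bddAbove
  obtain ⟨t, ht, hg⟩ := h (M + 1)
  cases t with
  | nil => simp at ht
  | cons d t =>
    have := hM ⟨d, rfl⟩
    refine hf d t (by simp at ht; omega) (by simpa using hg)

theorem branch_alive [Finite D] (h : Alive B G []) (k : ℕ) : Alive B G (branch B G k) := by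
  induction k with
  | zero => exact h
  | succ k ih =>
    have hne : ({d | Alive B G (branch B G k ++ [d])} : Set (Option D)).Nonempty := ih.child
    have : pick {d | Alive B G (branch B G k ++ [d])} ∈
        ({d | Alive B G (branch B G k ++ [d])} : Set (Option D)) := by
      rw [pick, dif_pos hne]
      exact hne.some_mem
    exact this

theorem branch_length (k : ℕ) : (branch B G k).length = k := by
  induction k with
  | zero => rfl
  | succ k ih => simp [branch, ih]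

theorem branch_getD {k m : ℕ} (h : k < m) :
    (branch B G m).getD k none = (branch B G (k + 1)).getD k none := by
  induction m, h using Nat.le_induction with
  | base => rfl
  | succ m hm ih =>
    rw [← ih]
    exact getD_app _ _ (by rw [branch_length]; exact hm)

variable {X : Type} [MeasurableSpace X]

theorem meas_branch [Finite D] {B : X → Set ℕ} {G : X → D → Set (Finset ℕ)}
    (hB : ∀ k, MeasurableSet {x | k ∈ B x}) (hG : ∀ c Z, MeasurableSet {x | Z ∈ G x c}) (k : ℕ)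
    (l : List (Option D)) : MeasurableSet {x | branch (B x) (G x) k = l} := by
  have hB' : ∀ k, Measurable fun x => k ∈ B x := fun k => measurableSet_setOfPred.1 (hB k)
  have hG' : ∀ c Z, Measurable fun x => Z ∈ G x c := fun c Z => measurableSet_setOfPred.1 (hG c Z)
  have h1 : ∀ l, Measurable fun x => GoodL (B x) (G x) l := fun l =>
    (Measurable.forall fun k => measurable_const.imp ((hB' k).imp measurable_const)).and
      (Measurable.forall fun c => Measurable.forall fun y => measurable_const.imp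
        ((Measurable.forall fun k => measurable_const.imp ((hB' k).and measurable_const)).imp
          (hG' c y)))
  have h2 : ∀ l, Measurable fun x => Alive (B x) (G x) l := fun l =>
    Measurable.forall fun m => Measurable.exists fun t => measurable_const.and (h1 _)
  induction k generalizing l with
  | zero => exact measurableSet_setOfPred.2 (measurable_const (a := [] = l))
  | succ k ih =>
    have : {x | branch (B x) (G x) (k + 1) = l} = {x | ∃ (l₀ : List (Option D))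
        (S : Set (Option D)), branch (B x) (G x) k = l₀ ∧
        (∀ d, Alive (B x) (G x) (l₀ ++ [d]) ↔ d ∈ S) ∧ l₀ ++ [pick S] = l} := by
      ext x
      constructor
      · intro h
        exact ⟨_, _, rfl, fun _ => Iff.rfl, h⟩
      · rintro ⟨l₀, S, rfl, hS, h⟩
        obtain rfl : {d | Alive (B x) (G x) (branch (B x) (G x) k ++ [d])} = S := Set.ext hS
        exact h
    rw [this]
    exact measurableSet_setOfPred.2 (Measurable.exists fun l₀ => Measurable.exists fun S =>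
      (measurableSet_setOfPred.1 (ih l₀)).and
        ((Measurable.forall fun d => (h2 _).iff measurable_const).and measurable_const))

theorem alive_nil {J : Type} {n : ℕ} {H : J → Set (Finset ℕ)}
    (her : ∀ j Z Z', Z' ⊆ Z → Z ∈ H j → Z' ∈ H j)
    (h : ∀ y : Finset ℕ, ↑y ⊆ B → Cov (⋃ j, H j) n y) :
    Alive B (fun c : Fin n × J => H c.2) [] := by
  classical
  intro m
  obtain ⟨l, hl, hH, hc⟩ := h ((Finset.range m).filter (· ∈ B)) (fun k hk => by
    simpa using (Finset.mem_filter.1 (Finset.mem_coe.1 hk)).2)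
  let z : Fin n → Finset ℕ := fun i =>
    if hi : (i : ℕ) < l.card then (l.equivFin.symm ⟨i, hi⟩ : Finset ℕ) else ∅
  have hz : ∀ Z ∈ l, ∃ i, z i = Z := fun Z hZ =>
    ⟨⟨l.equivFin ⟨Z, hZ⟩, (l.equivFin ⟨Z, hZ⟩).2.trans_le hl⟩, by simp [z]⟩
  let g : ℕ → Option (Fin n × J) := fun k =>
    if hk : ∃ c : Fin n × J, z c.1 ∈ H c.2 ∧ k ∈ z c.1 then some hk.choose else none
  have hg : ∀ k < m, ((List.range m).map g).getD k none = g k := fun k hk => by
    simp [List.getD_eq_getElem?_getD, List.getElem?_range hk]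
  refine ⟨(List.range m).map g, by simp, fun k hk hb => ?_, fun c y hy hy' => ?_⟩
  · have hk' : k < m := by simpa using hk
    obtain ⟨Z, hZ, hkZ⟩ := hc k (by simp [hk', hb])
    obtain ⟨i, rfl⟩ := hz Z hZ
    obtain ⟨j, hj⟩ := mem_iUnion.1 (hH _ hZ)
    have he : ∃ c : Fin n × J, z c.1 ∈ H c.2 ∧ k ∈ z c.1 := ⟨(i, j), hj, hkZ⟩
    exact ⟨he.choose, by rw [List.nil_append, hg k hk']; exact dif_pos he⟩
  · have key : ∀ k ∈ y, z c.1 ∈ H c.2 ∧ k ∈ z c.1 := fun k hk => by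
      have h1 := (hy' k hk).2
      rw [List.nil_append] at h1
      have hk' : k < m := by simpa using lt_of_getD h1
      rw [hg k hk'] at h1
      by_cases he : ∃ c : Fin n × J, z c.1 ∈ H c.2 ∧ k ∈ z c.1
      · rw [show g k = some he.choose from dif_pos he] at h1
        obtain rfl : he.choose = c := Option.some.inj h1
        exact he.choose_spec
      · rw [show g k = none from dif_neg he] at h1
        cases h1
    obtain ⟨k, hk⟩ := hy
    exact her _ _ _ (fun k hk => (key k hk).2) (key k hk).1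

end comp

/-- A measurable form of compactness. -/
theorem comp {X J : Type} [MeasurableSpace X] [Finite J] (n : ℕ) (B : X → Set ℕ)
    (H : J → X → Set (Finset ℕ)) (hB : ∀ k, MeasurableSet {x | k ∈ B x})
    (hH : ∀ j Z, MeasurableSet {x | Z ∈ H j x})
    (her : ∀ j x Z Z', Z' ⊆ Z → Z ∈ H j x → Z' ∈ H j x) :
    ∃ (C : Type) (_ : Finite C) (κ : C → J) (Z : C → X → Set ℕ),
      (∀ c k, MeasurableSet {x | k ∈ Z c x}) ∧ (∀ c x, Z c x ⊆ B x) ∧
      ∀ x, (∀ y : Finset ℕ, ↑y ⊆ B x → Cov (⋃ j, H j x) n y) → B x ⊆ ⋃ c, Z c x ∧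
        ∀ c (y : Finset ℕ), ↑y ⊆ Z c x → y.Nonempty → y ∈ H (κ c) x := by
  let G : X → Fin n × J → Set (Finset ℕ) := fun x c => H c.2 x
  refine ⟨Fin n × J, inferInstance, Prod.snd,
    fun c x => {k | k ∈ B x ∧ (branch (B x) (G x) (k + 1)).getD k none = some c},
    fun c k => ?_, fun c x k hk => hk.1, fun x hx => ?_⟩
  · have : {x | k ∈ {k | k ∈ B x ∧ (branch (B x) (G x) (k + 1)).getD k none = some c}} =
        {x | k ∈ B x ∧ ∃ l, branch (B x) (G x) (k + 1) = l ∧ l.getD k none = some c} := by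
      ext x
      simp only [List.getD_eq_getElem?_getD, mem_ofPred_eq, ↓ existsAndEq, true_and]
    rw [this]
    exact measurableSet_setOfPred.2 ((measurableSet_setOfPred.1 (hB k)).and (Measurable.exists fun l =>
      (measurableSet_setOfPred.1 (meas_branch hB (fun c Z => hH c.2 Z) (k + 1) l)).and
        measurable_const))
  · have ha : ∀ k, GoodL (B x) (G x) (branch (B x) (G x) k) := fun k =>
      (branch_alive (alive_nil (H := fun j => H j x) (fun j => her j x) hx) k).good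
    refine ⟨fun k hk => ?_, fun c y hy hne => ?_⟩
    · obtain ⟨c, hc⟩ := (ha (k + 1)).1 k (by rw [branch_length]; omega) hk
      exact mem_iUnion.2 ⟨c, hk, hc⟩
    · refine (ha (y.sup id + 1)).2 c y hne fun k hk => ⟨(hy hk).1, ?_⟩
      rw [branch_getD (show k < y.sup id + 1 from Nat.lt_succ_of_le (Finset.le_sup (f := id) hk))]
      exact (hy hk).2

section meas

variable {X : Type} [MeasurableSpace X]

theorem meas_cov {H : X → Set (Finset ℕ)} (hH : ∀ Z, MeasurableSet {x | Z ∈ H x}) (n : ℕ)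
    (y : Finset ℕ) : MeasurableSet {x | Cov (H x) n y} :=
  measurableSet_setOfPred.2 (Measurable.exists fun _ => measurable_const.and
    ((Measurable.forall fun Z => measurable_const.imp (measurableSet_setOfPred.1 (hH Z))).and
      measurable_const))

theorem meas_un {K : ℕ → X → Set (Finset ℕ)} (hK : ∀ i Z, MeasurableSet {x | Z ∈ K i x}) (n : ℕ)
    (Z : Finset ℕ) : MeasurableSet {x | Z ∈ Un (K · x) n} :=
  measurableSet_setOfPred.2 (Measurable.or (p := fun _ => ∃ k, Z = {k}) measurable_const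
    (Measurable.exists fun i => measurable_const.and (measurableSet_setOfPred.1 (hK i Z))))

theorem meas_sm {K : ℕ → X → Set (Finset ℕ)} {N : X → Set ℕ}
    (hK : ∀ i Z, MeasurableSet {x | Z ∈ K i x}) (hN : ∀ k, MeasurableSet {x | k ∈ N x}) :
    MeasurableSet {x | Sm (K · x) (N x)} :=
  measurableSet_setOfPred.2 (Measurable.exists fun n => Measurable.forall fun y =>
    (Measurable.forall fun k => measurable_const.imp (measurableSet_setOfPred.1 (hN k))).imp
      (measurableSet_setOfPred.1 (meas_cov (meas_un hK n) n y)))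

theorem meas_sub {β : Type} [Countable β] {M N : X → Set β}
    (hM : ∀ k, MeasurableSet {x | k ∈ M x}) (hN : ∀ k, MeasurableSet {x | k ∈ N x}) :
    MeasurableSet {x | M x ⊆ N x} :=
  measurableSet_setOfPred.2 (Measurable.forall fun k =>
    (measurableSet_setOfPred.1 (hM k)).imp (measurableSet_setOfPred.1 (hN k)))

theorem meas_disj {β : Type} [Countable β] {M N : X → Set β}
    (hM : ∀ k, MeasurableSet {x | k ∈ M x}) (hN : ∀ k, MeasurableSet {x | k ∈ N x}) :
    MeasurableSet {x | Disjoint (M x) (N x)} := by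
  simp only [Set.disjoint_left]
  exact measurableSet_setOfPred.2 (Measurable.forall fun k =>
    (measurableSet_setOfPred.1 (hM k)).imp (measurableSet_setOfPred.1 (hN k)).not)

theorem meas_eq {β : Type} [Countable β] {M N : X → Set β}
    (hM : ∀ k, MeasurableSet {x | k ∈ M x}) (hN : ∀ k, MeasurableSet {x | k ∈ N x}) :
    MeasurableSet {x | M x = N x} := by
  simp only [Set.ext_iff]
  exact measurableSet_setOfPred.2 (Measurable.forall fun k =>
    (measurableSet_setOfPred.1 (hM k)).iff (measurableSet_setOfPred.1 (hN k)))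

theorem meas_fr {Y : X → Set (Finset ℕ)} (hY : ∀ y, MeasurableSet {x | y ∈ Y x}) (Z : Finset ℕ) :
    MeasurableSet {x | Z ∈ Fr (Y x)} :=
  measurableSet_setOfPred.2 (Measurable.forall fun y =>
    (measurableSet_setOfPred.1 (hY y)).imp measurable_const)

end meas

end Pool.Agent.MP_9590fd_lc

end

-- part MP_9590fd_lc.Def
section

/-!
The iteration. A point lists one subset of `ℕ` for each coordinate; names are measurable functions
of the point. At each coordinate of its countable support a condition names a finite set `L` put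
into the generic set, a set `O` kept out of it, and an `F_σ` ideal `K` that does not contain the
complement of `O`. An extension changes `(L, O)` at only finitely many old coordinates.
-/

set_option autoImplicit false
set_option linter.unusedSectionVars false

namespace Pool.Agent.MP_9590fd_lc

open Set Filter MeasureTheory

abbrev Pt (T : Type) := T → Set ℕ

variable {T : Type}

/-- The `σ`-algebra of the coordinates in `A`. -/
@[reducible] def MS (A : Set T) : MeasurableSpace (Pt T) :=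
  .generateFrom {s | ∃ ξ ∈ A, ∃ k, s = {x | k ∈ x ξ}}

abbrev Ms (A : Set T) (s : Set (Pt T)) : Prop := MeasurableSet[MS A] s

abbrev Mf {β : Type} (A : Set T) (f : Pt T → Set β) : Prop := ∀ b, Ms A {x | b ∈ f x}

theorem Ms.mono {A B : Set T} {s : Set (Pt T)} (h : Ms A s) (hAB : A ⊆ B) : Ms B s :=
  (MeasurableSpace.generateFrom_mono (by rintro _ ⟨ξ, a, b⟩; exact ⟨ξ, hAB a, b⟩) :
    MS A ≤ MS B) _ h

theorem ms_atom {A : Set T} {ξ : T} (h : ξ ∈ A) : Mf A fun x => x ξ := fun k =>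
  MeasurableSpace.measurableSet_generateFrom ⟨ξ, h, k, rfl⟩

theorem Ms.congr {A : Set T} {s : Set (Pt T)} (h : Ms A s) {x x' : Pt T}
    (e : ∀ ξ ∈ A, x ξ = x' ξ) : x ∈ s ↔ x' ∈ s := by
  induction h with
  | basic u hu =>
    obtain ⟨ξ, a, k, rfl⟩ := hu
    simp [e ξ a]
  | empty => simp
  | compl t _ ih => exact not_congr ih
  | iUnion f _ ih => simp only [mem_iUnion, ih]

@[ext] structure Loc (T : Type) where
  on : Prop
  L : Pt T → Set ℕ
  O : Pt T → Set ℕ
  K : ℕ → Pt T → Set (Finset ℕ)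

def triv : Loc T := ⟨False, fun _ => ∅, fun _ => ∅, fun _ _ => ∅⟩

abbrev Cd (T : Type) := T → Loc T

def sp (p : Cd T) : Set T := {η | (p η).on}

/-- `d` is valid. -/
def vS (d : Loc T) : Set (Pt T) :=
  {x | (d.L x).Finite ∧ Disjoint (d.L x) (d.O x) ∧ ¬ Sm (d.K · x) (d.O x)ᶜ}

/-- `e` extends `d`. -/
def wS (e d : Loc T) : Set (Pt T) :=
  {x | d.L x ⊆ e.L x ∧ d.O x ⊆ e.O x ∧ Cv (d.K · x) (e.K · x)}

/-- `e` and `d` have the same finite part. -/
def eS (e d : Loc T) : Set (Pt T) := {x | e.L x = d.L x ∧ e.O x = d.O x}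

/-- The names of `d` depend on the coordinates in `A`. -/
structure ML (A : Set T) (d : Loc T) : Prop where
  L : Mf A d.L
  O : Mf A d.O
  K : ∀ i, Mf A (d.K i)

def PtR (A : Set T) (r : ℕ → Cd T) (x : Pt T) : Prop := ∀ η ∈ A, x η = ⋃ n, (r n η).L x

variable [LinearOrder T]

structure OK (p : Cd T) : Prop where
  cnt : (sp p).Countable
  off : ∀ η, η ∉ sp p → p η = triv
  ml : ∀ η, ML (Iio η) (p η)

section raw

variable (l : T → Cd T → Filter (Pt T))

def ValR (A : Set T) (p : Cd T) : Prop := OK p ∧ ∀ η ∈ A, vS (p η) ∈ l η p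

def LeR (A : Set T) (q p : Cd T) : Prop :=
  (∀ η ∈ A, η ∈ sp p → η ∈ sp q) ∧ (∀ η ∈ A, wS (q η) (p η) ∈ l η q) ∧
    {η | η ∈ A ∧ η ∈ sp p ∧ eS (q η) (p η) ∉ l η q}.Finite

def FR (A : Set T) : Cd T → Filter (Pt T) := Fl (ValR l A) (LeR l A) (PtR A)

theorem FR_congr {l l' : T → Cd T → Filter (Pt T)} {A : Set T} (h : ∀ η ∈ A, l η = l' η) :
    FR l A = FR l' A := by
  have h1 : ValR l A = ValR l' A := by
    funext p
    exact propext (and_congr_right' (forall₂_congr fun η hη => by rw [h η hη]))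
  have h2 : LeR l A = LeR l' A := by
    funext q p
    have : {η | η ∈ A ∧ η ∈ sp p ∧ eS (q η) (p η) ∉ l η q} =
        {η | η ∈ A ∧ η ∈ sp p ∧ eS (q η) (p η) ∉ l' η q} :=
      Set.ext fun η => and_congr_right fun hη => by rw [h η hη]
    rw [LeR, LeR, this]
    exact propext (and_congr_right' (and_congr_left' (forall₂_congr fun η hη => by rw [h η hη])))
  rw [FR, FR, h1, h2]

end raw

variable [WellFoundedLT T]

noncomputable def loc : T → Cd T → Filter (Pt T) :=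
  wellFounded_lt.fix fun η ih => FR (fun ξ => if h : ξ < η then ih ξ h else fun _ => ⊥) (Iio η)

/-- The sets of points forced by `p` in the iteration along `A`. -/
noncomputable def F (A : Set T) : Cd T → Filter (Pt T) := FR loc A

theorem loc_eq (η : T) : loc η = F (Iio η) := by
  rw [loc, WellFounded.fix_eq]
  exact FR_congr fun ξ hξ => dif_pos hξ

/-- `p` is a condition of the iteration along `A`. -/
structure Val (A : Set T) (p : Cd T) : Prop where
  ok : OK p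
  v : ∀ η ∈ A, vS (p η) ∈ F (Iio η) p

/-- `q` extends `p` in the iteration along `A`. -/
structure Le (A : Set T) (q p : Cd T) : Prop where
  on : ∀ η ∈ A, η ∈ sp p → η ∈ sp q
  w : ∀ η ∈ A, wS (q η) (p η) ∈ F (Iio η) q
  fin : {η | η ∈ A ∧ η ∈ sp p ∧ eS (q η) (p η) ∉ F (Iio η) q}.Finite

theorem F_eq (A : Set T) : F A = Fl (Val A) (Le A) (PtR A) := by
  have h1 : ValR loc A = Val A := by
    funext p
    simp only [ValR, loc_eq]
    exact propext ⟨fun h => ⟨h.1, h.2⟩, fun h => ⟨h.1, h.2⟩⟩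
  have h2 : LeR loc A = Le A := by
    funext q p
    simp only [LeR, loc_eq]
    exact propext ⟨fun h => ⟨h.1, h.2.1, h.2.2⟩, fun h => ⟨h.1, h.2, h.3⟩⟩
  rw [F, FR, h1, h2]

instance (A : Set T) (p : Cd T) : CountableInterFilter (F A p) := by
  rw [F_eq]; infer_instance

open Classical in
/-- `q` on `A` and `p` elsewhere. -/
noncomputable def cat (A : Set T) (q p : Cd T) : Cd T := fun η => if η ∈ A then q η else p η

/-- `W'` extends `W` and keeps `(L, O)` on `a`. -/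
structure Ext (a : Set T) (W' W : Cd T) : Prop where
  le : Le univ W' W
  eq : ∀ η ∈ a, (W' η).L = (W η).L ∧ (W' η).O = (W η).O

/-- A finite modification: stems `t` and out-sets `O` on `E`. -/
structure Md (T : Type) where
  E : Finset T
  t : T → Finset ℕ
  O : T → Pt T → Set ℕ

/-- The event that the point obeys `ν` on `A`. -/
def Md.ev (ν : Md T) (A : Set T) : Set (Pt T) :=
  {x | ∀ ζ ∈ ν.E, ζ ∈ A → ↑(ν.t ζ) ⊆ x ζ ∧ Disjoint (x ζ) (ν.O ζ x)}

def gS (d : Loc T) (t : Finset ℕ) (O : Pt T → Set ℕ) : Set (Pt T) :=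
  {x | d.L x ⊆ ↑t ∧ d.O x ⊆ O x ∧ Disjoint (↑t : Set ℕ) (O x) ∧ Sm (d.K · x) (O x)}

/-- `ν` is a modification of `W`. -/
def Mod (W : Cd T) (ν : Md T) : Prop :=
  ∀ ζ ∈ ν.E, ζ ∈ sp W ∧ Mf (Iio ζ) (ν.O ζ) ∧
    ∀ᶠ x in F (Iio ζ) W, x ∈ ν.ev (Iio ζ) → x ∈ gS (W ζ) (ν.t ζ) (ν.O ζ)

/-- `r` modified by `ν`. -/
def add (r : Cd T) (ν : Md T) : Cd T := fun ζ =>
  if ζ ∈ ν.E then ⟨True, fun x => (r ζ).L x ∪ ↑(ν.t ζ), fun x => (r ζ).O x ∪ ν.O ζ x, (r ζ).K⟩
  else r ζ

/-- Inside `a`, the condition `c` differs from `W` only on `ν.E`, where it is given by `ν`. -/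
structure Leaf (A a : Set T) (W c : Cd T) (ν : Md T) : Prop where
  sub : ∀ ζ ∈ ν.E, ζ ∈ a ∧ ζ ∈ A
  nrm : ∀ ζ, ζ ∉ ν.E → ν.t ζ = ∅
  L : ∀ ζ ∈ ν.E, (c ζ).L = fun _ => ↑(ν.t ζ)
  O : ∀ ζ ∈ ν.E, (c ζ).O = ν.O ζ
  sm : ∀ ζ ∈ ν.E, ∀ᶠ x in F (Iio ζ) c, Sm ((c ζ).K · x) ((c ζ).O x)
  eq : ∀ ζ ∈ A, ζ ∈ a → ζ ∉ ν.E → eS (c ζ) (W ζ) ∈ F (Iio ζ) c

/-- The events of `ν` and `ν'` are incompatible at a coordinate below `ζ`. -/
def Excl (ν ν' : Md T) (ζ : T) : Prop :=
  ∃ η < ζ, η ∈ ν.E ∧ η ∈ ν'.E ∧ ∃ k ∈ ν.t η, k ∉ ν'.t η ∧ ∀ x, k ∈ ν'.O η x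

/-- The conditions `c i` form a tree that branches inside `a`. -/
def Tree {ι : Type} (a : Set T) (c : ι → Cd T) (ν : ι → Md T) : Prop :=
  ∀ i j ζ, Excl (ν i) (ν j) ζ ∨ Excl (ν j) (ν i) ζ ∨
    ((∀ ξ < ζ, c i ξ = c j ξ ∧ (ξ ∈ (ν i).E ↔ ξ ∈ (ν j).E)) ∧ (c i ζ).K = (c j ζ).K ∧
      (ζ ∉ a → c i ζ = c j ζ))

/-- The same stems below `η`. -/
def TAg (ν ν' : Md T) (η : T) : Prop := ∀ ξ < η, (ξ ∈ ν.E ↔ ξ ∈ ν'.E) ∧ ν.t ξ = ν'.t ξ

/-- The traces beyond `s` of the stems in `St`; it contains `∅` if `s` is no possible stem. -/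
def fam (L O : Set ℕ) (St : Set (Finset ℕ)) (s : Finset ℕ) : Set (Finset ℕ) :=
  {y | (¬ (L ⊆ ↑s ∧ Disjoint (↑s : Set ℕ) O) ∧ y = ∅) ∨ ∃ t ∈ St, s ⊆ t ∧ y = t \ s}

/-- `y` misses `O` and `N` and is not covered by `n` sets that are in `H` or free for a family of
traces. -/
def Goal (L O N : Set ℕ) (H St : Set (Finset ℕ)) (n : ℕ) (y : Finset ℕ) : Prop :=
  Disjoint (↑y : Set ℕ) (O ∪ N) ∧
    ¬ Cov (H ∪ {Z | ∃ s ⊆ Finset.range n, Z ∈ Fr (fam L O St s)}) n y

/-- The order of the `σ`-closed part. -/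
def RL {S : Type} [Preorder S] (c' c : S × Cd T) : Prop := c'.1 ≤ c.1 ∧ Ext (sp c.2) c'.2 c.2

/-- `S` is `σ`-closed. -/
def SC (S : Type) [Preorder S] : Prop := ∀ s : ℕ → S, Antitone s → ∃ l, ∀ n, l ≤ s n

end Pool.Agent.MP_9590fd_lc

end

-- part MP_9590fd_lc.B0
section

/-!
Basic properties of the iteration.
-/

set_option autoImplicit false
set_option linter.unusedSectionVars false

namespace Pool.Agent.MP_9590fd_lc

open Set Filter MeasureTheory

variable {T : Type} [LinearOrder T] [WellFoundedLT T] {A B a : Set T} {p q r W : Cd T}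
  {s : Set (Pt T)} {η : T} {d e : Loc T}

theorem wS_self (d : Loc T) : wS d d = univ :=
  eq_univ_of_forall fun _ => ⟨subset_rfl, subset_rfl, Cv.refl _⟩

theorem eS_self (d : Loc T) : eS d d = univ := eq_univ_of_forall fun _ => ⟨rfl, rfl⟩

theorem vS_triv : vS (triv : Loc T) = univ := by
  refine eq_univ_of_forall fun x => ⟨finite_empty, disjoint_bot_left, ?_⟩
  simpa [triv] using not_sm_univ

theorem wS_triv (e : Loc T) : wS e triv = univ := by
  exact eq_univ_of_forall fun x => ⟨empty_subset _, empty_subset _, fun _ => ⟨0, empty_subset _⟩⟩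

theorem ml_triv (A : Set T) : ML A (triv : Loc T) := by
  refine ⟨fun _ => ?_, fun _ => ?_, fun _ _ => ?_⟩ <;> simp [triv]

theorem ML.mono (h : ML A d) (hAB : A ⊆ B) : ML B d :=
  ⟨fun k => (h.L k).mono hAB, fun k => (h.O k).mono hAB, fun i k => (h.K i k).mono hAB⟩

theorem ML.ms (h : ML A d) : Ms A (vS d) := by
  let _ := MS A
  have h1 : Ms A {x | (d.L x).Finite} := by
    have : {x | (d.L x).Finite} = ⋃ t : Finset ℕ, {x | d.L x ⊆ ↑t} := by
      ext x
      simp only [mem_ofPred, mem_iUnion]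
      exact ⟨fun h => ⟨h.toFinset, by simp⟩, fun ⟨t, ht⟩ => t.finite_toSet.subset ht⟩
    rw [this]
    exact MeasurableSet.iUnion fun t => meas_sub h.L fun k => MeasurableSet.const _
  exact h1.inter ((meas_disj h.L h.O).inter
    (meas_sm (N := fun x => (d.O x)ᶜ) h.K fun k => (h.O k).compl).compl)

theorem Val.sub (h : Val B p) (hAB : A ⊆ B) : Val A p := ⟨h.ok, fun η hη => h.v η (hAB hη)⟩

theorem Le.sub (h : Le B q p) (hAB : A ⊆ B) : Le A q p :=
  ⟨fun η hη => h.on η (hAB hη), fun η hη => h.w η (hAB hη),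
    h.fin.subset fun _ hη => ⟨hAB hη.1, hη.2⟩⟩

theorem le_of_agree (h : ∀ η ∈ A, q η = p η) : Le A q p := by
  refine ⟨fun η hη a => ?_, fun η hη => ?_, finite_empty.subset fun η a => a.2.2 ?_⟩
  · show (q η).on
    rwa [h η hη]
  · rw [h η hη, wS_self]
    exact univ_mem
  · rw [h η a.1, eS_self]
    exact univ_mem

theorem Le.refl : Le A p p := le_of_agree fun _ _ => rfl

theorem F_mono' (tr : ∀ p q r : Cd T, Le A r q → Le A q p → Le A r p) (h : Le A q p) :
    F A q ≤ F A p := by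
  rw [F_eq]
  exact Fl_mono tr h

theorem trans_step (hA : IsLowerSet A)
    (ih : ∀ η ∈ A, ∀ p q r : Cd T, Le (Iio η) r q → Le (Iio η) q p → Le (Iio η) r p)
    (h : Le A r q) (h' : Le A q p) : Le A r p := by
  have m : ∀ η ∈ A, F (Iio η) r ≤ F (Iio η) q := fun η hη =>
    F_mono' (ih η hη) (h.sub fun _ hξ => hA (le_of_lt hξ) hη)
  refine ⟨fun η hη a => h.on η hη (h'.on η hη a), fun η hη => ?_,
    (h.fin.union h'.fin).subset fun η a => ?_⟩
  · filter_upwards [h.w η hη, m η hη (h'.w η hη)] with x a b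
    exact ⟨b.1.trans a.1, b.2.1.trans a.2.1, b.2.2.trans a.2.2⟩
  · by_contra hn
    simp only [mem_union, mem_ofPred, not_or, not_and, not_not] at hn
    refine a.2.2 ?_
    filter_upwards [hn.1 a.1 (h'.on η a.1 a.2.1), m η a.1 (hn.2 a.1 a.2.1)] with x b c
    exact ⟨b.1.trans c.1, b.2.trans c.2⟩

theorem trans_Iio (η : T) :
    ∀ p q r : Cd T, Le (Iio η) r q → Le (Iio η) q p → Le (Iio η) r p := by
  induction η using (wellFounded_lt (α := T)).induction with
  | _ η ih => exact fun _ _ _ => trans_step (isLowerSet_Iio η) ih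

theorem Le.trans (hA : IsLowerSet A) (h : Le A r q) (h' : Le A q p) : Le A r p := by
  exact trans_step hA (fun η _ => trans_Iio η) h h'

theorem F_mono (hA : IsLowerSet A) (h : Le A q p) : F A q ≤ F A p := by
  exact F_mono' (fun _ _ _ => Le.trans hA) h

/-- The form of monotonicity that is used at a coordinate. -/
theorem Le.fl (hA : IsLowerSet A) (h : Le A q p) (hη : η ∈ A) : F (Iio η) q ≤ F (Iio η) p :=
  F_mono (isLowerSet_Iio η) (h.sub fun _ hξ => hA (le_of_lt hξ) hη)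

theorem Le.fl' (h : Le univ q p) (η : T) : F (Iio η) q ≤ F (Iio η) p :=
  h.fl isLowerSet_univ (mem_univ η)

theorem F_neBot (h : Val A p) : (F A p).NeBot := by
  rw [F_eq]
  refine Fl_neBot (fun _ => Le.refl) (fun r hr => ?_) h
  classical
  let x : Pt T := wellFounded_lt.fix fun η ih =>
    ⋃ n, (r n η).L fun ξ => if h : ξ < η then ih ξ h else ∅
  refine ⟨x, fun η _ => ?_⟩
  have : x η = ⋃ n, (r n η).L fun ξ => if ξ < η then x ξ else ∅ := by
    simp only [x]
    rw [WellFounded.fix_eq]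
    rfl
  rw [this]
  refine iUnion_congr fun n => Set.ext fun k => ?_
  exact (((hr n).1.ok.ml η).L k).congr fun ξ hξ => if_pos hξ

theorem F_reg (hA : IsLowerSet A)
    (h : ∀ q, Val A q → Le A q p → ∃ r, Val A r ∧ Le A r q ∧ s ∈ F A r) : s ∈ F A p := by
  rw [F_eq] at h ⊢
  exact Fl_reg (fun _ => Le.refl) (fun _ _ _ => Le.trans hA) h

/-- Validity by induction on the coordinate. -/
theorem val_ind (hA : IsLowerSet A) (hp : OK p)
    (h : ∀ η ∈ A, Val (Iio η) p → vS (p η) ∈ F (Iio η) p) : Val A p := by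
  have : ∀ η, η ∈ A → vS (p η) ∈ F (Iio η) p := fun η => by
    induction η using (wellFounded_lt (α := T)).induction with
    | _ η ih => exact fun hη => h η hη ⟨hp, fun ξ hξ => ih ξ hξ (hA (le_of_lt hξ) hη)⟩
  exact ⟨hp, this⟩

/-- Extension by induction on the coordinate. -/
theorem le_ind (hA : IsLowerSet A) {E : Set T} (hE : E.Finite)
    (h : ∀ η ∈ A, Le (Iio η) q p → (η ∈ sp p → η ∈ sp q) ∧ wS (q η) (p η) ∈ F (Iio η) q ∧
      (η ∈ sp p → η ∉ E → eS (q η) (p η) ∈ F (Iio η) q)) : Le A q p := by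
  have key : ∀ B : Set T, (∀ η ∈ B, (η ∈ sp p → η ∈ sp q) ∧ wS (q η) (p η) ∈ F (Iio η) q ∧
      (η ∈ sp p → η ∉ E → eS (q η) (p η) ∈ F (Iio η) q)) → Le B q p := fun B hB =>
    ⟨fun η hη => (hB η hη).1, fun η hη => (hB η hη).2.1, hE.subset fun η a =>
      by_contra fun hn => a.2.2 ((hB η a.1).2.2 a.2.1 hn)⟩
  refine key A fun η => ?_
  induction η using (wellFounded_lt (α := T)).induction with
  | _ η ih => exact fun hη => h η hη (key _ fun ξ hξ => ih ξ hξ (hA (le_of_lt hξ) hη))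

theorem cat_in (h : η ∈ A) : cat A q p η = q η := if_pos h

theorem cat_out (h : η ∉ A) : cat A q p η = p η := if_neg h

theorem cat_ok (hq : OK q) (hp : OK p) : OK (cat A q p) := by
  refine ⟨(hq.cnt.union hp.cnt).mono fun η h => ?_, fun η h => ?_, fun η => ?_⟩ <;>
    by_cases hη : η ∈ A
  · exact Or.inl (by simpa [sp, cat_in hη] using h)
  · exact Or.inr (by simpa [sp, cat_out hη] using h)
  · rw [cat_in hη]
    exact hq.off η (by simpa [sp, cat_in hη] using h)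
  · rw [cat_out hη]
    exact hp.off η (by simpa [sp, cat_out hη] using h)
  · rw [cat_in hη]
    exact hq.ml η
  · rw [cat_out hη]
    exact hp.ml η

theorem cat_le_left : Le A (cat A q p) q := le_of_agree fun _ h => cat_in h

theorem cat_le (hA : IsLowerSet A) (h : Le A q p) : Le B (cat A q p) p := by
  have m : ∀ η ∈ A, F (Iio η) (cat A q p) ≤ F (Iio η) q := fun η hη => cat_le_left.fl hA hη
  refine ⟨fun η _ a => ?_, fun η _ => ?_, h.fin.subset fun η a => ?_⟩ <;> by_cases hη : η ∈ A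
  · simpa [sp, cat_in hη] using h.on η hη a
  · simpa [sp, cat_out hη] using a
  · rw [cat_in hη]
    exact m η hη (h.w η hη)
  · rw [cat_out hη, wS_self]
    exact univ_mem
  · exact ⟨hη, a.2.1, fun b => a.2.2 (by rw [cat_in hη]; exact m η hη b)⟩
  · exact (a.2.2 (by rw [cat_out hη, eS_self]; exact univ_mem)).elim

theorem cat_val (hA : IsLowerSet A) (hB : IsLowerSet B) (hq : Val A q) (hp : Val B p)
    (h : Le A q p) : Val B (cat A q p) := by
  refine ⟨cat_ok hq.ok hp.ok, fun η hη => ?_⟩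
  by_cases h1 : η ∈ A
  · rw [cat_in h1]
    exact cat_le_left.fl hA h1 (hq.v η h1)
  · rw [cat_out h1]
    exact (cat_le hA h).fl hB hη (hp.v η hη)

theorem gen_lift (hA : IsLowerSet A) (hB : IsLowerSet B) (hAB : A ⊆ B) :
    Gen (Val B) (Le B) ≤ Gen (Val A) (Le A : Cd T → Cd T → Prop) := by
  refine gen_le (fun r h n => ⟨(h n).1.sub hAB, (h n).2.sub hAB⟩) fun D hD =>
    ⟨fun p hp => ?_, fun d hd q hq h => hD.2 d hd q (hq.sub hAB) (h.sub hAB)⟩
  obtain ⟨q, a, b, c⟩ := hD.1 p (hp.sub hAB)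
  have h1 := cat_val hA hB b hp c
  exact ⟨_, hD.2 q a _ (h1.sub hAB) cat_le_left, h1, cat_le hA c⟩

theorem F_lift (hA : IsLowerSet A) (hB : IsLowerSet B) (hAB : A ⊆ B) : F B p ≤ F A p := by
  rw [F_eq, F_eq]
  intro s hs
  rw [mem_Fl] at hs ⊢
  filter_upwards [gen_lift hA hB hAB hs] with r h1 h2 x hx
  exact h1 (h2.imp fun _ a => a.sub hAB) x fun η hη => hx η (hAB hη)

/-- The generic set obeys the condition. -/
theorem F_gen (hA : IsLowerSet A) (hη : η ∈ A) :
    ∀ᶠ x in F A p, (p η).L x ⊆ x η ∧ Disjoint (x η) ((p η).O x) := by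
  have l : ∀ c : Cd T, Fl (Val A) (Le A) (PtR A) c ≤ F (Iio η) c := fun c => by
    rw [← F_eq]
    exact F_lift (isLowerSet_Iio η) hA fun _ hξ => hA (le_of_lt hξ) hη
  have g := fun s : Cd T → Set (Pt T) =>
    gen_true (ok := Val A) (le := Le A) (pt := PtR A) (fun _ => Le.refl) s
  rw [F_eq, Filter.Eventually, mem_Fl]
  filter_upwards [gen_desc, g fun c => vS (c η), g fun c => wS (c η) (p η),
    gen_diag fun c' => g fun c => wS (c η) (c' η)] with r h1 h2 h3 h4 h5 x hx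
  obtain ⟨j, h5⟩ := h5
  have an : ∀ {i j}, i ≤ j → Le A (r j) (r i) :=
    fun h => h1.anti (fun _ => Le.refl) (fun _ _ _ => Le.trans hA) h
  show _ ⊆ x η ∧ Disjoint (x η) _
  rw [hx η hη]
  refine ⟨(h3 j (l _ (h5.w η hη)) x hx).1.trans (subset_iUnion (fun n => (r n η).L x) j),
    disjoint_iUnion_left.2 fun i => ?_⟩
  exact (h2 (max i j) (l _ ((h1 _).1.v η hη)) x hx).2.1.mono
    (h4 i _ (l _ ((an (le_max_left i j)).w η hη)) x hx).1
    (h3 _ (l _ (((an (le_max_right i j)).trans hA h5).w η hη)) x hx).2.1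

theorem upd_ok (hp : OK p) (hd : ML (Iio η) d) (ho : d.on) : OK (Function.update p η d) := by
  refine ⟨(hp.cnt.insert η).mono fun ξ h => ?_, fun ξ h => ?_, fun ξ => ?_⟩ <;>
    rcases eq_or_ne ξ η with rfl | e
  · exact Or.inl rfl
  · exact Or.inr (by simpa [sp, e] using h)
  · exact (h (by simpa [sp] using ho)).elim
  · rw [Function.update_of_ne e]
    exact hp.off ξ (by simpa [sp, e] using h)
  · rwa [Function.update_self]
  · rw [Function.update_of_ne e]
    exact hp.ml ξ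

theorem upd_fl : F (Iio η) (Function.update p η d) ≤ F (Iio η) p :=
  F_mono (isLowerSet_Iio η) (le_of_agree fun _ h => Function.update_of_ne (ne_of_lt h) _ _)

theorem upd_le (ho : d.on) (h : wS d (p η) ∈ F (Iio η) p) : Le A (Function.update p η d) p := by
  refine ⟨fun ξ _ a => ?_, fun ξ _ => ?_, (finite_singleton η).subset fun ξ a => ?_⟩ <;>
    rcases eq_or_ne ξ η with rfl | e
  · simpa [sp] using ho
  · simpa [sp, e] using a
  · rw [Function.update_self]
    exact upd_fl h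
  · rw [Function.update_of_ne e, wS_self]
    exact univ_mem
  · rfl
  · exact (a.2.2 (by rw [Function.update_of_ne e, eS_self]; exact univ_mem)).elim

theorem upd_val (hA : IsLowerSet A) (hp : Val A p) (hd : ML (Iio η) d) (ho : d.on)
    (h : wS d (p η) ∈ F (Iio η) p) (hv : vS d ∈ F (Iio η) p) :
    Val A (Function.update p η d) := by
  refine ⟨upd_ok hp.ok hd ho, fun ξ hξ => ?_⟩
  rcases eq_or_ne ξ η with rfl | e
  · rw [Function.update_self]
    exact upd_fl hv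
  · rw [Function.update_of_ne e]
    exact (upd_le ho h).fl hA hξ (hp.v ξ hξ)

/-- Finitely many numbers are kept out, unless they are in `L`. -/
def cut (d : Loc T) (t : Set ℕ) : Loc T := ⟨True, d.L, fun x => d.O x ∪ t \ d.L x, d.K⟩

theorem ML.cut (h : ML A d) (t : Set ℕ) : ML A (cut d t) :=
  ⟨h.L, fun k => (h.O k).union ((MeasurableSet.const (k ∈ t)).inter (h.L k).compl), h.K⟩

theorem wS_cut (d : Loc T) (t : Set ℕ) : wS (cut d t) d = univ :=
  eq_univ_of_forall fun _ => ⟨subset_rfl, subset_union_left, Cv.refl _⟩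

theorem vS_cut (d : Loc T) {t : Set ℕ} (ht : t.Finite) : vS d ⊆ vS (cut d t) := fun x h =>
  ⟨h.1, disjoint_union_right.2 ⟨h.2.1, disjoint_sdiff_right⟩, fun a => h.2.2
    ((a.union (Sm.of_finite ht)).mono fun k hk => by
      by_cases h1 : k ∈ t
      · exact Or.inr h1
      · exact Or.inl fun b => b.elim hk fun c => h1 c.1)⟩

theorem cut_le (t : Set ℕ) : Le A (Function.update p η (cut (p η) t)) p :=
  upd_le trivial (by rw [wS_cut]; exact univ_mem)

theorem cut_val (hA : IsLowerSet A) (hp : Val A p) (hη : η ∈ A) {t : Set ℕ} (ht : t.Finite) :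
    Val A (Function.update p η (cut (p η) t)) :=
  upd_val hA hp ((hp.ok.ml η).cut t) trivial (by rw [wS_cut]; exact univ_mem)
    (mem_of_superset (hp.v η hη) (vS_cut _ ht))

theorem fdec_step (hA : IsLowerSet A) (ih : ∀ η ∈ A, ∀ s, Ms (Iio η) s → ∀ p, Val (Iio η) p →
      ∃ q, Val (Iio η) q ∧ Le (Iio η) q p ∧ (s ∈ F (Iio η) q ∨ sᶜ ∈ F (Iio η) q))
    (hs : Ms A s) :
    ∀ p, Val A p → ∃ q, Val A q ∧ Le A q p ∧ (s ∈ F A q ∨ sᶜ ∈ F A q) := by
  rw [F_eq]
  refine Fl_dec (fun _ => Le.refl) (fun _ _ _ => Le.trans hA) ?_ hs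
  rw [← F_eq]
  rintro _ ⟨ξ, hξ, k, rfl⟩ p hp
  have hs : Iio ξ ⊆ A := fun _ h => hA (le_of_lt h) hξ
  have h1 := cut_val hA hp hξ (finite_singleton k)
  obtain ⟨q, h2, h3, h4⟩ := ih ξ hξ _ ((hp.ok.ml ξ).L k) _ (h1.sub hs)
  have l := (F_lift (p := cat (Iio ξ) q (Function.update p ξ (cut (p ξ) {k})))
    (isLowerSet_Iio ξ) hA hs).trans (F_mono (isLowerSet_Iio ξ) cat_le_left)
  have g := F_gen (p := cat (Iio ξ) q (Function.update p ξ (cut (p ξ) {k}))) hA hξ
  rw [cat_out (A := Iio ξ) (lt_irrefl ξ), Function.update_self] at g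
  refine ⟨_, cat_val (isLowerSet_Iio ξ) hA h2 h1 h3,
    (cat_le (isLowerSet_Iio ξ) h3).trans hA (cut_le _), h4.imp (fun a => ?_) fun a => ?_⟩
  · filter_upwards [l a, g] with x b c using c.1 b
  · filter_upwards [l a, g] with x b c e using disjoint_left.1 c.2 e (Or.inr ⟨rfl, b⟩)

theorem fdec_Iio (η : T) : ∀ s, Ms (Iio η) s → ∀ p, Val (Iio η) p →
    ∃ q, Val (Iio η) q ∧ Le (Iio η) q p ∧ (s ∈ F (Iio η) q ∨ sᶜ ∈ F (Iio η) q) := by
  induction η using (wellFounded_lt (α := T)).induction with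
  | _ η ih => exact fun _ => fdec_step (isLowerSet_Iio η) ih

theorem F_dec (hA : IsLowerSet A) (hs : Ms A s) (hp : Val A p) :
    ∃ q, Val A q ∧ Le A q p ∧ (s ∈ F A q ∨ sᶜ ∈ F A q) := by
  exact fdec_step hA (fun η _ => fdec_Iio η) hs p hp

theorem F_abs (hA : IsLowerSet A) (hB : IsLowerSet B) (hAB : A ⊆ B) (hs : Ms A s) (hp : Val B p)
    (h : s ∈ F B p) : s ∈ F A p := by
  refine F_reg hA fun q hq hle => ?_
  obtain ⟨r, h1, h2, h3⟩ := F_dec hA hs hq
  refine ⟨r, h1, h2, h3.resolve_right fun h4 => ?_⟩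
  have h5 := h2.trans hA hle
  have := F_neBot (cat_val hA hB h1 hp h5)
  exact compl_notMem (F_mono hB (cat_le hA h5) h)
    (F_lift hA hB hAB (F_mono hA cat_le_left h4))

theorem F_ex (hA : IsLowerSet A) {ι : Type} [Countable ι] {t : ι → Set (Pt T)}
    (ht : ∀ i, Ms A (t i)) (hp : Val A p) (h : ∀ᶠ x in F A p, ∃ i, x ∈ t i) :
    ∃ i q, Val A q ∧ Le A q p ∧ t i ∈ F A q := by
  by_contra hn
  have h1 : ∀ i, ∀ᶠ x in F A p, x ∉ t i := fun i => F_reg hA fun q hq hle => by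
    obtain ⟨r, a, b, c⟩ := F_dec hA (ht i) hq
    exact ⟨r, a, b, c.resolve_left fun e => hn ⟨i, r, a, b.trans hA hle, e⟩⟩
  have := F_neBot hp
  obtain ⟨x, ⟨i, h2⟩, h3⟩ := (h.and (eventually_countable_forall.2 h1)).exists
  exact h3 i h2

theorem Ext.refl : Ext a W W := ⟨Le.refl, fun _ _ => ⟨rfl, rfl⟩⟩

theorem Ext.trans {b : Set T} (h : Ext a r q) (h' : Ext b q p) (hab : b ⊆ a) : Ext b r p :=
  ⟨h.le.trans isLowerSet_univ h'.le, fun η hη =>
    ⟨(h.eq η (hab hη)).1.trans (h'.eq η hη).1, (h.eq η (hab hη)).2.trans (h'.eq η hη).2⟩⟩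

theorem Le.supp (h : Le univ q p) : sp p ⊆ sp q := fun η => h.on η (mem_univ η)

theorem RL.refl {S : Type} [Preorder S] {c : S × Cd T} : RL c c := ⟨le_rfl, Ext.refl⟩

theorem RL.trans {S : Type} [Preorder S] {c c' c'' : S × Cd T} (h : RL c'' c') (h' : RL c' c) :
    RL c'' c := ⟨h.1.trans h'.1, h.2.trans h'.2 h'.2.le.supp⟩

end Pool.Agent.MP_9590fd_lc

end

-- part MP_9590fd_lc.Mo
section

/-!
Finite modifications; deciding the stems.
-/

set_option autoImplicit false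
set_option linter.unusedSectionVars false

namespace Pool.Agent.MP_9590fd_lc

open Set Filter MeasureTheory

variable {T : Type} [LinearOrder T] [WellFoundedLT T] {A B a : Set T} {p q r W W' : Cd T}
  {s : Set (Pt T)} {η : T} {ν ν' : Md T}

theorem Md.ev_mono (ν : Md T) (hAB : A ⊆ B) : ν.ev B ⊆ ν.ev A :=
  fun _ h ζ hζ hA => h ζ hζ (hAB hA)

theorem ms_ev (hA : IsLowerSet A) (h : ∀ ζ ∈ ν.E, Mf (Iio ζ) (ν.O ζ)) : Ms A (ν.ev A) := by
  have e : ν.ev A = ⋂ ζ ∈ ν.E, ⋂ _ : ζ ∈ A,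
      ({x | ↑(ν.t ζ) ⊆ x ζ} ∩ {x | Disjoint (x ζ) (ν.O ζ x)}) := by
    ext x
    simp only [Md.ev, mem_ofPred, mem_iInter, mem_inter_iff]
  rw [e]
  let _ := MS A
  refine Finset.measurableSet_biInter _ fun ζ hζ => MeasurableSet.iInter fun hζA => ?_
  exact (meas_sub (fun _ => MeasurableSet.const _) (ms_atom hζA)).inter
    (meas_disj (ms_atom hζA) fun k => (h ζ hζ k).mono fun _ hξ => hA (le_of_lt hξ) hζA)

theorem Mod.ms (h : Mod W ν) (hA : IsLowerSet A) : Ms A (ν.ev A) :=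
  ms_ev hA fun ζ hζ => (h ζ hζ).2.1

theorem Mod.ext (h : Mod W ν) (hW : Ext a W' W) (ha : ∀ ζ ∈ ν.E, ζ ∈ a) : Mod W' ν := by
  intro ζ hζ
  obtain ⟨h1, h2, h3⟩ := h ζ hζ
  obtain ⟨e1, e2⟩ := hW.eq ζ (ha ζ hζ)
  refine ⟨hW.le.supp h1, h2, ?_⟩
  filter_upwards [hW.le.fl' ζ h3, hW.le.w ζ (mem_univ ζ)] with x a b c
  obtain ⟨a1, a2, a3, a4⟩ := a c
  exact ⟨e1 ▸ a1, e2 ▸ a2, a3, a4.cv b.2.2⟩

theorem add_in {ζ : T} (h : ζ ∈ ν.E) : add r ν ζ =
    ⟨True, fun x => (r ζ).L x ∪ ↑(ν.t ζ), fun x => (r ζ).O x ∪ ν.O ζ x, (r ζ).K⟩ := if_pos h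

theorem add_out {ζ : T} (h : ζ ∉ ν.E) : add r ν ζ = r ζ := if_neg h

theorem add_le : Le A (add r ν) r := by
  refine ⟨fun ζ _ h => ?_, fun ζ _ => ?_, ν.E.finite_toSet.subset fun ζ h => ?_⟩
  · change (add r ν ζ).on
    by_cases hζ : ζ ∈ ν.E
    · rw [add_in hζ]; trivial
    · rw [add_out hζ]; exact h
  · by_cases hζ : ζ ∈ ν.E
    · rw [add_in hζ]
      exact univ_mem' fun x => ⟨subset_union_left, subset_union_left, Cv.refl _⟩
    · rw [add_out hζ, wS_self]; exact univ_mem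
  · by_contra hζ
    refine h.2.2 ?_
    rw [add_out hζ, eS_self]; exact univ_mem

theorem add_mono (hA : IsLowerSet A) (h : Le A r W) (hE : ν'.E = ν.E) (ht : ν'.t = ν.t)
    (hO : ∀ ζ x, ν.O ζ x ⊆ ν'.O ζ x) : Le A (add r ν') (add W ν) := by
  have fl : ∀ ζ ∈ A, F (Iio ζ) (add r ν') ≤ F (Iio ζ) r := fun ζ hζ => add_le.fl hA hζ
  refine ⟨fun ζ hA' h' => ?_, fun ζ hA' => ?_,
    (ν.E.finite_toSet.union h.fin).subset fun ζ h' => ?_⟩
  · change (add r ν' ζ).on
    by_cases hζ : ζ ∈ ν.E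
    · rw [add_in (hE ▸ hζ)]; trivial
    · rw [add_out (hE ▸ hζ)]
      refine h.on ζ hA' ?_
      change (W ζ).on
      rw [← add_out (r := W) hζ]; exact h'
  · by_cases hζ : ζ ∈ ν.E
    · rw [add_in hζ, add_in (hE ▸ hζ), ht]
      filter_upwards [fl ζ hA' (h.w ζ hA')] with x a
      exact ⟨union_subset_union_left _ a.1, union_subset_union a.2.1 (hO ζ x), a.2.2⟩
    · rw [add_out hζ, add_out (hE ▸ hζ)]
      exact fl ζ hA' (h.w ζ hA')
  · by_cases hζ : ζ ∈ ν.E
    · exact Or.inl hζ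
    · obtain ⟨h1, h2, h3⟩ := h'
      rw [add_out hζ, add_out (hE ▸ hζ)] at h3
      refine Or.inr ⟨h1, ?_, fun h4 => h3 (fl ζ h1 h4)⟩
      change (W ζ).on
      rw [← add_out (r := W) hζ]; exact h2

/-- The modified condition forces the event of the modification. -/
theorem ev_add (hA : IsLowerSet A) : ν.ev A ∈ F A (add r ν) := by
  have : ∀ ζ ∈ ν.E, ∀ᶠ x in F A (add r ν),
      ζ ∈ A → ↑(ν.t ζ) ⊆ x ζ ∧ Disjoint (x ζ) (ν.O ζ x) := fun ζ hζ => by
    by_cases hζA : ζ ∈ A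
    · have := F_gen (p := add r ν) hA hζA
      rw [add_in hζ] at this
      exact this.mono fun x a _ =>
        ⟨subset_union_right.trans a.1, a.2.mono_right subset_union_right⟩
    · exact Eventually.of_forall fun _ a => (hζA a).elim
  exact (eventually_all_finset ν.E).2 this

theorem add_ok (hr : OK r) (h : ∀ ζ ∈ ν.E, Mf (Iio ζ) (ν.O ζ)) : OK (add r ν) := by
  refine ⟨(hr.cnt.union ν.E.countable_toSet).mono fun ζ hζ => ?_, fun ζ hζ => ?_, fun ζ => ?_⟩
  · by_cases h1 : ζ ∈ ν.E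
    · exact Or.inr h1
    · left
      change (r ζ).on
      rw [← add_out (r := r) h1]; exact hζ
  · have h1 : ζ ∉ ν.E := fun h1 => hζ (by change (add r ν ζ).on; rw [add_in h1]; trivial)
    rw [add_out h1]
    exact hr.off ζ fun h2 => hζ (by change (add r ν ζ).on; rw [add_out h1]; exact h2)
  · by_cases h1 : ζ ∈ ν.E
    · rw [add_in h1]
      exact ⟨fun k => ((hr.ml ζ).L k).union (MeasurableSet.const (k ∈ (↑(ν.t ζ) : Set ℕ))),
        fun k => ((hr.ml ζ).O k).union (h ζ h1 k), (hr.ml ζ).K⟩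
    · rw [add_out h1]; exact hr.ml ζ

/-- A condition below `W` whose stems agree with `ν` is compatible with `ν`. -/
theorem join (hA : IsLowerSet A) (hW : Mod W ν) (hr : Val A r) (hle : Le A r W)
    (hc : ∀ ζ ∈ ν.E, ζ ∈ A → ∀ᶠ x in F (Iio ζ) r, x ∈ ν.ev (Iio ζ) →
      Disjoint ((r ζ).L x) (ν.O ζ x) ∧ Disjoint (↑(ν.t ζ) : Set ℕ) ((r ζ).O x)) :
    Val A (add r ν) ∧ ν.ev A ∈ F A (add r ν) := by
  refine ⟨⟨add_ok hr.ok fun ζ hζ => (hW ζ hζ).2.1, fun ζ hζA => ?_⟩, ev_add hA⟩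
  have fl : F (Iio ζ) (add r ν) ≤ F (Iio ζ) r := add_le.fl hA hζA
  by_cases hζ : ζ ∈ ν.E
  · have h1 : ν.ev (Iio ζ) ∈ F (Iio ζ) (add r ν) := ev_add (isLowerSet_Iio ζ)
    rw [add_in hζ]
    filter_upwards [h1, fl (hr.v ζ hζA), fl (hle.w ζ hζA), fl (hle.fl hA hζA (hW ζ hζ).2.2),
      fl (hc ζ hζ hζA)] with x a b c d e
    obtain ⟨-, -, d3, d4⟩ := d a
    obtain ⟨e1, e2⟩ := e a
    refine ⟨b.1.union (ν.t ζ).finite_toSet, disjoint_union_left.2
      ⟨disjoint_union_right.2 ⟨b.2.1, e1⟩, disjoint_union_right.2 ⟨e2, d3⟩⟩, fun h => b.2.2 ?_⟩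
    refine (h.union (d4.cv c.2.2)).mono fun k hk => ?_
    by_cases h2 : k ∈ ν.O ζ x
    · exact Or.inr h2
    · exact Or.inl fun h3 => h3.elim hk h2
  · rw [add_out hζ]; exact fl (hr.v ζ hζA)

/-- The hypothesis of `join` at a coordinate where the event is forced. -/
theorem join_ev (hA : IsLowerSet A) (hW : Mod W ν) (hr : Val A r) (h : ν.ev A ∈ F A r) {ζ : T}
    (hζ : ζ ∈ ν.E) (hζA : ζ ∈ A) : ∀ᶠ x in F (Iio ζ) r,
      Disjoint ((r ζ).L x) (ν.O ζ x) ∧ Disjoint (↑(ν.t ζ) : Set ℕ) ((r ζ).O x) := by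
  refine F_abs (isLowerSet_Iio ζ) hA (fun _ hξ => hA (le_of_lt hξ) hζA) ?_ hr ?_
  · let _ := MS (Iio ζ)
    exact (meas_disj (hr.ok.ml ζ).L (hW ζ hζ).2.1).inter
      (meas_disj (fun _ => MeasurableSet.const _) (hr.ok.ml ζ).O)
  · filter_upwards [h, F_gen (p := r) hA hζA] with x a b
    obtain ⟨a1, a2⟩ := a ζ hζ hζA
    exact ⟨a2.mono_left b.1, b.2.mono_left a1⟩

theorem join' (hA : IsLowerSet A) (hW : Mod W ν) (hr : Val A r) (hle : Le A r W)
    (h : ν.ev A ∈ F A r) : Val A (add r ν) :=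
  (join hA hW hr hle fun _ hζ hζA => (join_ev hA hW hr h hζ hζA).mono fun _ a _ => a).1

theorem Mod.val (h : Mod W ν) (hA : IsLowerSet A) (hW : Val A W) : Val A (add W ν) := by
  refine (join hA h hW Le.refl fun ζ hζ _ => (h ζ hζ).2.2.mono fun x a b => ?_).1
  obtain ⟨a1, a2, a3, -⟩ := a b
  exact ⟨a3.mono_left a1, a3.mono_right a2⟩

/-- What `add W ν` forces is forced by `W` on the event of `ν`. -/
theorem Mod.tr (h : Mod W ν) (hA : IsLowerSet A) (hs : s ∈ F A (add W ν)) :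
    ∀ᶠ x in F A W, x ∈ ν.ev A → x ∈ s := by
  refine F_reg hA fun q hq hle => ?_
  obtain ⟨r, h1, h2, h3 | h3⟩ := F_dec hA (h.ms hA) hq
  · have h4 := h2.trans hA hle
    exact ⟨add r ν, join' hA h h1 h4 h3, add_le.trans hA h2,
      mem_of_superset (F_mono hA (add_mono hA h4 rfl rfl fun _ _ => subset_rfl) hs)
        fun _ a _ => a⟩
  · exact ⟨r, h1, h2, mem_of_superset h3 fun _ a b => (a b).elim⟩

theorem dec_step (hA : IsLowerSet A) (ha : a ⊆ sp W)
    (ih : ∀ ζ ∈ A, ∀ p, Val (Iio ζ) p → Le (Iio ζ) p W → ∀ E : Finset T,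
      (∀ ξ ∈ E, ξ ∈ a ∧ ξ ∈ Iio ζ) →
      ∃ c ν, Val (Iio ζ) c ∧ Le (Iio ζ) c p ∧ E ⊆ ν.E ∧ Leaf (Iio ζ) a W c ν)
    (hp : Val A p) (hle : Le A p W) (E : Finset T) (hE : ∀ ζ ∈ E, ζ ∈ a ∧ ζ ∈ A) :
    ∃ c ν, Val A c ∧ Le A c p ∧ E ⊆ ν.E ∧ Leaf A a W c ν := by
  obtain ⟨E', h1, h2, h3⟩ : ∃ E' : Finset T, E ⊆ E' ∧ (∀ ζ ∈ E', ζ ∈ a ∧ ζ ∈ A) ∧
      ∀ ζ ∈ A, ζ ∈ a → ζ ∉ E' → eS (p ζ) (W ζ) ∈ F (Iio ζ) p := by
    have hf := hle.fin.inter_of_left a
    refine ⟨E ∪ hf.toFinset, Finset.subset_union_left, fun ζ hζ => ?_, fun ζ b c d => ?_⟩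
    · rcases Finset.mem_union.1 hζ with hζ | hζ
      · exact hE ζ hζ
      · exact ⟨(hf.mem_toFinset.1 hζ).2, (hf.mem_toFinset.1 hζ).1.1⟩
    · by_contra e
      exact d (Finset.mem_union_right _ (hf.mem_toFinset.2 ⟨⟨b, ha c, e⟩, c⟩))
  rcases E'.eq_empty_or_nonempty with rfl | hne
  · exact ⟨p, ⟨∅, fun _ => ∅, fun _ _ => ∅⟩, hp, Le.refl, h1, by simp, fun _ _ => rfl, by simp,
      by simp, by simp only [Finset.notMem_empty, IsEmpty.forall_iff, implies_true], h3⟩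
  obtain ⟨ζ, hζ, hmax⟩ := E'.exists_max_image id hne
  obtain ⟨hζa, hζA⟩ := h2 ζ hζ
  have hI := isLowerSet_Iio ζ
  have hsub : Iio ζ ⊆ A := fun _ hξ => hA (le_of_lt hξ) hζA
  have hml := hp.ok.ml ζ
  obtain ⟨t, q, q1, q2, q3⟩ := F_ex hI (ι := Finset ℕ) (t := fun t => {x | (p ζ).L x = ↑t})
    (fun t => by
      let _ := MS (Iio ζ)
      exact meas_eq hml.L fun _ => MeasurableSet.const _) (hp.sub hsub)
    (mem_of_superset (hp.v ζ hζA) fun x b => ⟨b.1.toFinset, b.1.coe_toFinset.symm⟩)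
  obtain ⟨c₁, ν₁, c1, c2, c3, c4⟩ := ih ζ hζA q q1 (q2.trans hI (hle.sub hsub))
    (E'.filter (· < ζ)) fun ξ hξ =>
      ⟨(h2 ξ (Finset.mem_filter.1 hξ).1).1, (Finset.mem_filter.1 hξ).2⟩
  have c5 := c2.trans hI q2
  have hz : cat (Iio ζ) c₁ p ζ = p ζ := cat_out (lt_irrefl ζ)
  have fq : F (Iio ζ) (cat (Iio ζ) c₁ p) ≤ F (Iio ζ) q := F_mono hI (cat_le_left.trans hI c2)
  let d : Loc T := ⟨True, fun _ => ↑t, (p ζ).O, fun i x => (p ζ).K i x ∪ Nul ((p ζ).O x)⟩
  have d1 : ML (Iio ζ) d := ⟨fun _ => MeasurableSet.const _, hml.O, fun i Z => by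
    let _ := MS (Iio ζ)
    exact (hml.K i Z).union (meas_sub (M := fun _ => (↑Z : Set ℕ))
      (fun _ => MeasurableSet.const _) hml.O)⟩
  have d2 : wS d (cat (Iio ζ) c₁ p ζ) ∈ F (Iio ζ) (cat (Iio ζ) c₁ p) := by
    rw [hz]
    exact mem_of_superset (fq q3) fun x b =>
      ⟨subset_of_eq b, subset_rfl, Cv.of_sub fun i => ⟨i, subset_union_left⟩⟩
  have d3 : vS d ∈ F (Iio ζ) (cat (Iio ζ) c₁ p) := by
    filter_upwards [fq q3, fq (F_mono hI q2 (hp.v ζ hζA))] with x b c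
    refine ⟨t.finite_toSet, c.2.1.mono_left (subset_of_eq (Eq.symm b)), fun h => c.2.2 ?_⟩
    refine h.ext fun i => ⟨i + 1, fun Z hZ => hZ.imp (fun e => sub_Un i.lt_succ_self e)
      fun e => disjoint_compl_right.mono_left e⟩
  have hlow : ∀ ξ < ζ, Function.update (cat (Iio ζ) c₁ p) ζ d ξ = c₁ ξ := fun ξ hξ => by
    rw [Function.update_of_ne hξ.ne, cat_in (A := Iio ζ) hξ]
  have hfl : ∀ ξ < ζ, F (Iio ξ) (Function.update (cat (Iio ζ) c₁ p) ζ d) ≤ F (Iio ξ) c₁ :=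
    fun ξ hξ => (le_of_agree hlow).fl hI hξ
  have hcp : Le A (Function.update (cat (Iio ζ) c₁ p) ζ d) p :=
    (upd_le trivial d2).trans hA (cat_le hI c5)
  refine ⟨Function.update (cat (Iio ζ) c₁ p) ζ d,
    ⟨insert ζ ν₁.E, Function.update ν₁.t ζ t, Function.update ν₁.O ζ (p ζ).O⟩,
    upd_val hA (cat_val hI hA c1 hp c5) d1 trivial d2 d3, hcp, fun ξ hξ => ?_,
    fun ξ hξ => ?_, fun ξ hξ => ?_, fun ξ hξ => ?_, fun ξ hξ => ?_, fun ξ hξ => ?_,
    fun ξ b c hξ => ?_⟩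
  · rcases (hmax ξ (h1 hξ)).eq_or_lt with e | e
    · exact Finset.mem_insert.2 (Or.inl e)
    · exact Finset.mem_insert_of_mem (c3 (Finset.mem_filter.2 ⟨h1 hξ, e⟩))
  · rcases Finset.mem_insert.1 hξ with rfl | e
    exacts [⟨hζa, hζA⟩, ⟨(c4.sub ξ e).1, hsub (c4.sub ξ e).2⟩]
  · obtain ⟨e1, e2⟩ := not_or.1 (mt Finset.mem_insert.2 hξ)
    exact (Function.update_of_ne e1 _ _).trans (c4.nrm ξ e2)
  · rcases Finset.mem_insert.1 hξ with rfl | e
    · simp only [Function.update_self, d]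
    · have e' : ξ < ζ := (c4.sub ξ e).2
      simp only [hlow ξ e', Function.update_of_ne e'.ne, c4.L ξ e]
  · rcases Finset.mem_insert.1 hξ with rfl | e
    · simp only [Function.update_self, d]
    · have e' : ξ < ζ := (c4.sub ξ e).2
      simp only [hlow ξ e', Function.update_of_ne e'.ne, c4.O ξ e]
  · rcases Finset.mem_insert.1 hξ with rfl | e
    · rw [Function.update_self]
      exact Eventually.of_forall fun x => Sm.of_nul (i := 0) subset_union_right
    · have e' : ξ < ζ := (c4.sub ξ e).2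
      rw [hlow ξ e']
      exact hfl ξ e' (c4.sm ξ e)
  · obtain ⟨e1, e2⟩ := not_or.1 (mt Finset.mem_insert.2 hξ)
    rcases lt_or_gt_of_ne e1 with e | e
    · rw [hlow ξ e]
      exact hfl ξ e (c4.eq ξ e c e2)
    · rw [Function.update_of_ne e1, cat_out (A := Iio ζ) (not_lt.2 e.le)]
      exact hcp.fl hA b (h3 ξ b c fun h => not_le.2 e (hmax ξ h))

/-- The stems at the finitely many changed coordinates can be decided. -/
theorem dec (hA : IsLowerSet A) (ha : a ⊆ sp W) (hp : Val A p) (hle : Le A p W) (E : Finset T)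
    (hE : ∀ ζ ∈ E, ζ ∈ a ∧ ζ ∈ A) :
    ∃ c ν, Val A c ∧ Le A c p ∧ E ⊆ ν.E ∧ Leaf A a W c ν := by
  refine dec_step hA ha (fun ζ h => ?_) hp hle E hE
  clear h
  induction ζ using WellFoundedLT.induction with
  | ind ζ ih => exact fun p b c => dec_step (isLowerSet_Iio ζ) ha ih b c

end Pool.Agent.MP_9590fd_lc

end

-- part MP_9590fd_lc.Glue
section

/-!
A finite tree of extensions of `W` is absorbed into one extension that keeps the finite parts
on `a`.
-/

set_option autoImplicit false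
set_option linter.unusedSectionVars false

namespace Pool.Agent.MP_9590fd_lc

open Set Filter MeasureTheory

variable {T : Type} [LinearOrder T] [WellFoundedLT T]

namespace Gl

variable {ι : Type} {a A : Set T} {W r : Cd T} {c : ι → Cd T} {ν : ι → Md T}

/-- The coordinates at which the finite part of `W` is kept. -/
def keep (a : Set T) (W : Cd T) (c : ι → Cd T) (ζ : T) : Prop :=
  ζ ∈ a ∨ (ζ ∈ sp W ∧ ∀ i, eS (c i ζ) (W ζ) ∈ F (Iio ζ) (c i))

open Classical in
/-- The glued condition. -/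
noncomputable def gw (a : Set T) (W : Cd T) (c : ι → Cd T) (ν : ι → Md T) : Cd T := fun ζ =>
  ⟨(W ζ).on ∨ ∃ i, (c i ζ).on,
    if keep a W c ζ then (W ζ).L
      else fun x => (W ζ).L x ∪ {k | ∃ i, x ∈ (ν i).ev (Iio ζ) ∧ k ∈ (c i ζ).L x},
    if keep a W c ζ then (W ζ).O
      else fun x => (W ζ).O x ∪ {k | ∃ i, x ∈ (ν i).ev (Iio ζ) ∧ k ∈ (c i ζ).O x},
    fun n x => (W ζ).K n x ∪ {Z | ∃ i, x ∈ (ν i).ev (Iio ζ) ∧ Z ∈ (c i ζ).K n x}⟩

theorem L_keep {ζ : T} (h : keep a W c ζ) : (gw a W c ν ζ).L = (W ζ).L := if_pos h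

theorem O_keep {ζ : T} (h : keep a W c ζ) : (gw a W c ν ζ).O = (W ζ).O := if_pos h

theorem L_not {ζ : T} (h : ¬ keep a W c ζ) : (gw a W c ν ζ).L =
    fun x => (W ζ).L x ∪ {k | ∃ i, x ∈ (ν i).ev (Iio ζ) ∧ k ∈ (c i ζ).L x} := if_neg h

theorem O_not {ζ : T} (h : ¬ keep a W c ζ) : (gw a W c ν ζ).O =
    fun x => (W ζ).O x ∪ {k | ∃ i, x ∈ (ν i).ev (Iio ζ) ∧ k ∈ (c i ζ).O x} := if_neg h

theorem K_eq (ζ : T) (n : ℕ) (x : Pt T) : (gw a W c ν ζ).K n x =
    (W ζ).K n x ∪ {Z | ∃ i, x ∈ (ν i).ev (Iio ζ) ∧ Z ∈ (c i ζ).K n x} := rfl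

theorem sp_W {ζ : T} (h : ζ ∈ sp W) : ζ ∈ sp (gw a W c ν) := Or.inl h

theorem sp_c {ζ : T} {i : ι} (h : ζ ∈ sp (c i)) : ζ ∈ sp (gw a W c ν) := Or.inr ⟨i, h⟩

theorem add_in {μ : Md T} {ζ : T} (h : ζ ∈ μ.E) : add r μ ζ =
    ⟨True, fun x => (r ζ).L x ∪ ↑(μ.t ζ), fun x => (r ζ).O x ∪ μ.O ζ x, (r ζ).K⟩ := if_pos h

theorem add_out {μ : Md T} {ζ : T} (h : ζ ∉ μ.E) : add r μ ζ = r ζ := if_neg h

/-- The event of a modification is forced by the modified condition. -/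
theorem ev_add (hA : IsLowerSet A) (r : Cd T) (μ : Md T) : μ.ev A ∈ F A (add r μ) := by
  have : ∀ᶠ x in F A (add r μ), ∀ ζ ∈ μ.E, ζ ∈ A →
      (↑(μ.t ζ) : Set ℕ) ⊆ x ζ ∧ Disjoint (x ζ) (μ.O ζ x) := by
    rw [eventually_all_finset]
    intro ζ hζ
    by_cases hA' : ζ ∈ A
    · filter_upwards [F_gen (p := add r μ) hA hA'] with x hx _
      rw [add_in hζ] at hx
      exact ⟨subset_union_right.trans hx.1, hx.2.mono_right subset_union_right⟩
    · exact Eventually.of_forall fun _ h => (hA' h).elim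
  exact this

theorem add_ok {μ : Md T} (hr : OK r) (h : ∀ ζ ∈ μ.E, Mf (Iio ζ) (μ.O ζ)) : OK (add r μ) := by
  refine ⟨(hr.cnt.union μ.E.countable_toSet).mono fun ζ hζ => ?_, fun ζ hζ => ?_, fun ζ => ?_⟩
  · by_cases hE : ζ ∈ μ.E
    · exact Or.inr hE
    · exact Or.inl (by rw [sp, mem_ofPred_eq, add_out hE] at hζ; exact hζ)
  · by_cases hE : ζ ∈ μ.E
    · exact (hζ (by rw [sp, mem_ofPred_eq, add_in hE]; trivial)).elim
    · rw [add_out hE]
      exact hr.off ζ fun h' => hζ (by rw [sp, mem_ofPred_eq, add_out hE]; exact h')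
  · by_cases hE : ζ ∈ μ.E
    · rw [add_in hE]
      refine ⟨fun k => ?_, fun k => ?_, (hr.ml ζ).K⟩
      · exact ((hr.ml ζ).L k).union (MeasurableSet.const (k ∈ (↑(μ.t ζ) : Set ℕ)))
      · exact ((hr.ml ζ).O k).union (h ζ hE k)
    · rw [add_out hE]
      exact hr.ml ζ

/-- Leaves whose events hold at the same point share their local conditions. -/
theorem tree_pt (ht : Tree a c ν) {i j : ι} {ζ : T} {x : Pt T} (hi : x ∈ (ν i).ev (Iio ζ))
    (hj : x ∈ (ν j).ev (Iio ζ)) : (c i ζ).K = (c j ζ).K ∧ (ζ ∉ a → c i ζ = c j ζ) := by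
  have key : ∀ μ μ' : Md T, x ∈ μ.ev (Iio ζ) → x ∈ μ'.ev (Iio ζ) → ¬ Excl μ μ' ζ := by
    rintro μ μ' h h' ⟨η, hη, hE, hE', k, hk, -, hk'⟩
    exact disjoint_left.1 (h' η hE' hη).2 ((h η hE hη).1 (Finset.mem_coe.2 hk)) (hk' x)
  rcases ht i j ζ with h | h | h
  · exact (key _ _ hi hj h).elim
  · exact (key _ _ hj hi h).elim
  · exact h.2

section main

variable [Finite ι] (hW : Val univ W) (ha : a ⊆ sp W) (hv : ∀ i, Val univ (c i))
  (hle : ∀ i, Le univ (c i) W) (hl : ∀ i, Leaf univ a W (c i) (ν i)) (ht : Tree a c ν)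

include hv hl in
theorem mf_O (i : ι) : ∀ ζ ∈ (ν i).E, Mf (Iio ζ) ((ν i).O ζ) := fun ζ hζ => by
  rw [← (hl i).O ζ hζ]
  exact ((hv i).ok.ml ζ).O

include hW hv hl in
theorem gw_ok : OK (gw a W c ν) := by
  have hg : ∀ i ζ, Ms (Iio ζ) ((ν i).ev (Iio ζ)) := fun i ζ =>
    ms_ev (isLowerSet_Iio ζ) (mf_O hv hl i)
  have hu : ∀ {β : Type} (ζ : T) (f : Pt T → Set β) (e : ι → Pt T → Set β), Mf (Iio ζ) f →
      (∀ i, Mf (Iio ζ) (e i)) →
      Mf (Iio ζ) fun x => f x ∪ {k | ∃ i, x ∈ (ν i).ev (Iio ζ) ∧ k ∈ e i x} := by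
    intro β ζ f e hf he k
    have : {x | k ∈ f x ∪ {k | ∃ i, x ∈ (ν i).ev (Iio ζ) ∧ k ∈ e i x}} =
        {x | k ∈ f x} ∪ ⋃ i, (ν i).ev (Iio ζ) ∩ {x | k ∈ e i x} := by
      ext x
      simp only [mem_union, mem_ofPred_eq, mem_iUnion, mem_inter_iff]
    rw [this]
    exact (hf k).union (MeasurableSet.iUnion fun i => (hg i ζ).inter (he i k))
  refine ⟨(hW.ok.cnt.union (countable_iUnion fun i => (hv i).ok.cnt)).mono fun ζ hζ => ?_,
    fun ζ hζ => ?_, fun ζ => ⟨?_, ?_, fun n => ?_⟩⟩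
  · exact Or.imp_right (fun h => mem_iUnion.2 h) hζ
  · have h1 : W ζ = triv := hW.ok.off ζ fun h => hζ (sp_W h)
    have h2 : ∀ i, c i ζ = triv := fun i => (hv i).ok.off ζ fun h => hζ (sp_c h)
    refine Loc.ext (propext ⟨fun h => hζ h, False.elim⟩) ?_ ?_ ?_
    · by_cases hk : keep a W c ζ
      · rw [L_keep hk, h1]
      · rw [L_not hk]
        funext x
        simp only [h1, triv, h2, mem_empty_iff_false, and_false, exists_false, ofPred_false, union_self]
    · by_cases hk : keep a W c ζ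
      · rw [O_keep hk, h1]
      · rw [O_not hk]
        funext x
        simp only [h1, triv, h2, mem_empty_iff_false, and_false, exists_false, ofPred_false, union_self]
    · funext n x
      rw [K_eq]
      simp only [h1, triv, h2, mem_empty_iff_false, and_false, exists_false, ofPred_false, union_self]
  · by_cases hk : keep a W c ζ
    · rw [L_keep hk]
      exact (hW.ok.ml ζ).L
    · rw [L_not hk]
      exact hu ζ _ _ (hW.ok.ml ζ).L fun i => ((hv i).ok.ml ζ).L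
  · by_cases hk : keep a W c ζ
    · rw [O_keep hk]
      exact (hW.ok.ml ζ).O
    · rw [O_not hk]
      exact hu ζ _ _ (hW.ok.ml ζ).O fun i => ((hv i).ok.ml ζ).O
  · exact hu ζ _ _ ((hW.ok.ml ζ).K n) fun i => ((hv i).ok.ml ζ).K n

include hle in
theorem gw_le : Le univ (gw a W c ν) W := by
  refine ⟨fun η _ h => sp_W h, fun η _ => univ_mem' fun x => ⟨?_, ?_, ?_⟩,
    (finite_iUnion fun i => (hle i).fin).subset fun η hη => ?_⟩
  · by_cases hk : keep a W c η
    · rw [L_keep hk]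
    · rw [L_not hk]
      exact subset_union_left
  · by_cases hk : keep a W c η
    · rw [O_keep hk]
    · rw [O_not hk]
      exact subset_union_left
  · exact Cv.of_sub fun n => ⟨n, subset_union_left⟩
  · by_contra hc
    have hk : keep a W c η := Or.inr ⟨hη.2.1, fun i => by
      by_contra h
      exact hc (mem_iUnion.2 ⟨i, mem_univ _, hη.2.1, h⟩)⟩
    exact hη.2.2 (univ_mem' fun x => ⟨by rw [L_keep hk], by rw [O_keep hk]⟩)

include hl in
theorem keep_eS {ζ : T} (hk : keep a W c ζ) {i : ι} (hE : ζ ∉ (ν i).E) :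
    eS (c i ζ) (W ζ) ∈ F (Iio ζ) (c i) :=
  hk.elim (fun h => (hl i).eq ζ (mem_univ _) h hE) fun h => h.2 i

include ht in
/-- Off the kept coordinates the glued condition has the finite part of the leaf. -/
theorem not_keep {ζ : T} (hk : ¬ keep a W c ζ) {i : ι} {x : Pt T} (hx : x ∈ (ν i).ev (Iio ζ))
    (hw : x ∈ wS (c i ζ) (W ζ)) : x ∈ eS (gw a W c ν ζ) (c i ζ) := by
  have hj : ∀ j, x ∈ (ν j).ev (Iio ζ) → c j ζ = c i ζ := fun j hj =>
    (tree_pt ht hj hx).2 fun h => hk (Or.inl h)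
  refine ⟨?_, ?_⟩
  · rw [L_not hk]
    refine Subset.antisymm (union_subset hw.1 ?_) fun k h => Or.inr ⟨i, hx, h⟩
    rintro k ⟨j, h1, h2⟩
    rwa [hj j h1] at h2
  · rw [O_not hk]
    refine Subset.antisymm (union_subset hw.2.1 ?_) fun k h => Or.inr ⟨i, hx, h⟩
    rintro k ⟨j, h1, h2⟩
    rwa [hj j h1] at h2

theorem cv_in {ζ : T} {i : ι} {x : Pt T} (hx : x ∈ (ν i).ev (Iio ζ)) :
    Cv ((c i ζ).K · x) ((gw a W c ν ζ).K · x) :=
  Cv.of_sub fun n => ⟨n, fun _ h => Or.inr ⟨i, hx, h⟩⟩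

include ht in
theorem cv_out {ζ : T} {i : ι} {x : Pt T} (hx : x ∈ (ν i).ev (Iio ζ))
    (hw : x ∈ wS (c i ζ) (W ζ)) : Cv ((gw a W c ν ζ).K · x) ((c i ζ).K · x) := by
  intro n
  obtain ⟨m, hm⟩ := hw.2.2 n
  refine ⟨max m (n + 1), union_subset (hm.trans (Un_mono (le_max_left _ _))) ?_⟩
  rintro Z ⟨j, h1, h2⟩
  rw [(tree_pt ht h1 hx).1] at h2
  exact sub_Un (K := ((c i ζ).K · x)) (lt_of_lt_of_le n.lt_succ_self (le_max_right _ _)) h2

include hle hl ht in
/-- An extension of the glued condition, modified by a leaf, extends the leaf. -/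
theorem key_le (hA : IsLowerSet A) (hr : Le A r (gw a W c ν)) (i : ι) :
    Le A (add r (ν i)) (c i) := by
  refine le_ind hA (hr.fin.union (ν i).E.finite_toSet) fun η hη ih => ?_
  have f1 : F (Iio η) (add r (ν i)) ≤ F (Iio η) r := F_mono (isLowerSet_Iio η) add_le
  have f2 : F (Iio η) (add r (ν i)) ≤ F (Iio η) (c i) := F_mono (isLowerSet_Iio η) ih
  have he := ev_add (isLowerSet_Iio η) r (ν i)
  have hw := f1 (hr.w η hη)
  have hw' := f2 ((hle i).w η (mem_univ _))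
  by_cases hE : η ∈ (ν i).E
  · refine ⟨fun _ => by rw [sp, mem_ofPred_eq, add_in hE]; trivial, ?_,
      fun _ h => (h (Or.inr hE)).elim⟩
    filter_upwards [he, hw] with x h1 h2
    rw [add_in hE]
    refine ⟨?_, ?_, (cv_in h1).trans h2.2.2⟩
    · rw [(hl i).L η hE]
      exact subset_union_right
    · rw [(hl i).O η hE]
      exact subset_union_right
  · have h0 : eS (gw a W c ν η) (c i η) ∈ F (Iio η) (add r (ν i)) := by
      by_cases hk : keep a W c η
      · filter_upwards [f2 (keep_eS hl hk hE)] with x h1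
        exact ⟨by rw [L_keep hk, h1.1], by rw [O_keep hk, h1.2]⟩
      · filter_upwards [he, hw'] with x h1 h2
        exact not_keep ht hk h1 h2
    refine ⟨fun h => ?_, ?_, fun h h' => ?_⟩
    · rw [sp, mem_ofPred_eq, add_out hE]
      exact hr.on η hη (sp_c h)
    · filter_upwards [he, hw, h0] with x h1 h2 h3
      rw [add_out hE]
      exact ⟨h3.1 ▸ h2.1, h3.2 ▸ h2.2.1, (cv_in h1).trans h2.2.2⟩
    · have h4 : eS (r η) (gw a W c ν η) ∈ F (Iio η) r := by
        by_contra h5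
        exact h' (Or.inl ⟨hη, sp_c h, h5⟩)
      filter_upwards [f1 h4, h0] with x h1 h2
      rw [add_out hE]
      exact ⟨h1.1.trans h2.1, h1.2.trans h2.2⟩

include ha hv hle hl in
theorem mod_c (i : ι) : Mod (c i) (ν i) := by
  refine fun ζ hζ => ⟨(hle i).supp (ha ((hl i).sub ζ hζ).1), mf_O hv hl i ζ hζ, ?_⟩
  filter_upwards [(hv i).v ζ (mem_univ _), (hl i).sm ζ hζ] with x h1 h2 _
  have h3 := h1.2.1
  rw [(hl i).L ζ hζ, (hl i).O ζ hζ] at h3
  rw [(hl i).O ζ hζ] at h2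
  exact ⟨by rw [(hl i).L ζ hζ], by rw [(hl i).O ζ hζ], h3, h2⟩

include ha hv hle hl ht in
theorem key_val (hA : IsLowerSet A) (hr : Le A r (gw a W c ν)) (hrv : Val A r) {i : ι}
    (he : (ν i).ev A ∈ F A r) : Val A (add r (ν i)) := by
  have hk := key_le hle hl ht hA hr i
  refine ⟨add_ok hrv.ok (mf_O hv hl i), fun η hη => ?_⟩
  have f1 : F (Iio η) (add r (ν i)) ≤ F (Iio η) r := F_mono (isLowerSet_Iio η) add_le
  have f2 : F (Iio η) (add r (ν i)) ≤ F (Iio η) (c i) := hk.fl hA hη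
  by_cases hE : η ∈ (ν i).E
  · filter_upwards [f1 (hrv.v η hη), f1 (join_ev hA (mod_c ha hv hle hl i) hrv he hE hη),
      f2 ((hv i).v η (mem_univ _)), f2 ((hl i).sm η hE), hk.w η hη] with x h1 h2 h3 h4 h5
    have h6 := h3.2.1
    rw [(hl i).L η hE, (hl i).O η hE] at h6
    rw [(hl i).O η hE] at h4
    rw [add_in hE] at h5 ⊢
    refine ⟨h1.1.union (Finset.finite_toSet _), ?_, fun h => h1.2.2 ?_⟩
    · exact disjoint_union_left.2 ⟨disjoint_union_right.2 ⟨h1.2.1, h2.1⟩,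
        disjoint_union_right.2 ⟨h2.2, h6⟩⟩
    · refine (Sm.union h (h4.cv h5.2.2)).mono fun k hk' => ?_
      by_cases h7 : k ∈ (ν i).O η x
      · exact Or.inr h7
      · exact Or.inl fun h8 => h8.elim hk' h7
  · rw [add_out hE]
    exact f1 (hrv.v η hη)

include ha hv hle hl ht in
/-- What a leaf forces is forced by the glued condition on the event of the leaf. -/
theorem tr (hA : IsLowerSet A) {i : ι} {s : Set (Pt T)} (hs : s ∈ F A (c i)) :
    ∀ᶠ x in F A (gw a W c ν), x ∈ (ν i).ev A → x ∈ s := by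
  refine F_reg hA fun q hq hqle => ?_
  obtain ⟨q', h1, h2, h3 | h3⟩ := F_dec hA (ms_ev hA (mf_O hv hl i)) hq
  · have h4 := h2.trans hA hqle
    refine ⟨add q' (ν i), key_val ha hv hle hl ht hA h4 h1 h3, add_le.trans hA h2, ?_⟩
    exact mem_of_superset (F_mono hA (key_le hle hl ht hA h4 i) hs) fun _ h _ => h
  · exact ⟨q', h1, h2, mem_of_superset h3 fun _ h h' => (h h').elim⟩

include hW ha hv hle hl ht in
theorem gw_val : Val univ (gw a W c ν) := by
  refine ⟨gw_ok hW hv hl, fun η _ => ?_⟩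
  have h1 : ∀ᶠ x in F (Iio η) (gw a W c ν), ∀ i, x ∈ (ν i).ev (Iio η) →
      x ∈ vS (c i η) ∩ wS (c i η) (W η) :=
    eventually_all.2 fun i => tr ha hv hle hl ht (isLowerSet_Iio η)
      (inter_mem ((hv i).v η (mem_univ _)) ((hle i).w η (mem_univ _)))
  filter_upwards [h1, (gw_le (ν := ν) (a := a) hle).fl' η (hW.v η (mem_univ _))] with x h2 h3
  by_cases hx : ∃ i, x ∈ (ν i).ev (Iio η)
  · obtain ⟨i, hi⟩ := hx
    obtain ⟨h4, h5⟩ := h2 i hi
    have h6 := cv_out ht hi h5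
    by_cases hk : keep a W c η
    · refine ⟨by rw [L_keep hk]; exact h3.1, by rw [L_keep hk, O_keep hk]; exact h3.2.1,
        fun h => h4.2.2 ((h.cv h6).mono ?_)⟩
      rw [O_keep hk]
      exact compl_subset_compl.2 h5.2.1
    · have h7 := not_keep ht hk hi h5
      exact ⟨h7.1 ▸ h4.1, by rw [h7.1, h7.2]; exact h4.2.1,
        fun h => h4.2.2 (h7.2 ▸ h.cv h6)⟩
  · have h4 : ∀ {β : Type} (s : Set β) (e : ι → Set β),
        s ∪ {k | ∃ i, x ∈ (ν i).ev (Iio η) ∧ k ∈ e i} = s := fun s e =>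
      union_eq_left.2 fun _ ⟨i, h, _⟩ => (hx ⟨i, h⟩).elim
    have hL : (gw a W c ν η).L x = (W η).L x := by
      by_cases hk : keep a W c η
      · rw [L_keep hk]
      · rw [L_not hk]
        exact h4 _ _
    have hO : (gw a W c ν η).O x = (W η).O x := by
      by_cases hk : keep a W c η
      · rw [O_keep hk]
      · rw [O_not hk]
        exact h4 _ _
    refine ⟨hL ▸ h3.1, by rw [hL, hO]; exact h3.2.1, fun h => h3.2.2 (hO ▸ h.cv ?_)⟩
    exact Cv.of_sub fun n => ⟨n, (h4 _ _).subset⟩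

include ha hv hle hl ht in
theorem gw_mod (i : ι) : Mod (gw a W c ν) (ν i) := by
  intro ζ hζ
  have hk : keep a W c ζ := Or.inl ((hl i).sub ζ hζ).1
  refine ⟨sp_W (ha ((hl i).sub ζ hζ).1), mf_O hv hl i ζ hζ, ?_⟩
  filter_upwards [tr ha hv hle hl ht (isLowerSet_Iio ζ)
    (inter_mem (mod_c ha hv hle hl i ζ hζ).2.2 ((hle i).w ζ (mem_univ _)))] with x h1 h2
  obtain ⟨h3, h4⟩ := h1 h2
  have h5 := h3 h2
  refine ⟨?_, ?_, h5.2.2.1, h5.2.2.2.cv (cv_in h2)⟩
  · rw [L_keep hk]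
    exact h4.1.trans h5.1
  · rw [O_keep hk]
    exact h4.2.1.trans h5.2.1

end main

end Gl

theorem glue {ι : Type} [Finite ι] {a : Set T} {W : Cd T} {c : ι → Cd T} {ν : ι → Md T}
    (hW : Val univ W) (ha : a ⊆ sp W) (hv : ∀ i, Val univ (c i)) (hle : ∀ i, Le univ (c i) W)
    (hl : ∀ i, Leaf univ a W (c i) (ν i)) (ht : Tree a c ν) :
    ∃ W', Val univ W' ∧ Ext a W' W ∧ ∀ i, Mod W' (ν i) ∧ Le univ (add W' (ν i)) (c i) :=
  ⟨Gl.gw a W c ν, Gl.gw_val hW ha hv hle hl ht,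
    ⟨Gl.gw_le hle, fun _ hη => ⟨Gl.L_keep (Or.inl hη), Gl.O_keep (Or.inl hη)⟩⟩,
    fun i => ⟨Gl.gw_mod ha hv hle hl ht i, Gl.key_le hle hl ht isLowerSet_univ Le.refl i⟩⟩

theorem glue_one {a : Set T} {W c : Cd T} {ν : Md T} (hW : Val univ W) (ha : a ⊆ sp W)
    (hv : Val univ c) (hle : Le univ c W) (hl : Leaf univ a W c ν) :
    ∃ W', Val univ W' ∧ Ext a W' W ∧ Mod W' ν ∧ Le univ (add W' ν) c := by
  obtain ⟨W', h1, h2, h3⟩ := glue (ι := Unit) (c := fun _ => c) (ν := fun _ => ν) hW ha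
    (fun _ => hv) (fun _ => hle) (fun _ => hl)
    fun _ _ _ => Or.inr (Or.inr ⟨fun _ _ => ⟨rfl, Iff.rfl⟩, rfl, fun _ => rfl⟩)
  exact ⟨W', h1, h2, h3 ()⟩

end Pool.Agent.MP_9590fd_lc

end
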